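import Pool.Agent.H39R2.Gon.Base

/-!
# A2: the finite field theorem FT follows from the count theorem

Total variation lemma and contraction argument.
-/

namespace H39Gon

namespace A2

open Finset

section general

variable {I K : Type} [Fintype I] [DecidableEq I] [Fintype K] [DecidableEq K]

/-- number of functions `I → K` (as a real number). -/
noncomputable def NQ (I K : Type) [Fintype I] [Fintype K] : ℝ :=
  (Fintype.card K : ℝ) ^ (Fintype.card I)

theorem card_fun : (Fintype.card (I → K) : ℝ) = NQ I K := by simp [NQ]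

theorem NQ_pos [Nonempty K] : 0 < NQ I K := by
  unfold NQ
  have : 0 < Fintype.card K := Fintype.card_pos
  positivity

/-- average over all functions with prescribed values on `T`. -/
noncomputable def A (T : Finset I) (f : (I → K) → ℝ) (z : I → K) : ℝ :=
  (∑ z' : I → K, f (T.piecewise z z')) / NQ I K

/-- the involution exchanging the values off `T`. -/
def swapE (T : Finset I) : ((I → K) × (I → K)) ≃ ((I → K) × (I → K)) where
  toFun p := (T.piecewise p.1 p.2, T.piecewise p.2 p.1)
  invFun p := (T.piecewise p.1 p.2, T.piecewise p.2 p.1)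
  left_inv p := by
    ext a <;> by_cases h : a ∈ T <;> simp [h]
  right_inv p := by
    ext a <;> by_cases h : a ∈ T <;> simp [h]

theorem sum_piecewise (T : Finset I) (F : (I → K) → ℝ) :
    ∑ z : I → K, ∑ z' : I → K, F (T.piecewise z z') = NQ I K * ∑ z, F z := by
  have h1 : ∑ z : I → K, ∑ z' : I → K, F (T.piecewise z z')
      = ∑ p : (I → K) × (I → K), F ((swapE T p).1) := by
    rw [Fintype.sum_prod_type]
    rfl
  rw [h1, Equiv.sum_comp (swapE T) (fun p => F p.1), Fintype.sum_prod_type]
  simp only [sum_const, card_univ, nsmul_eq_mul]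
  rw [← mul_sum, card_fun]

/-- resampling one coordinate. -/
theorem sum_update (a : I) (F : (I → K) → ℝ) :
    ∑ z : I → K, ∑ x : K, F (Function.update z a x) = (Fintype.card K : ℝ) * ∑ z, F z := by
  let e : ((I → K) × K) ≃ ((I → K) × K) :=
    { toFun := fun p => (Function.update p.1 a p.2, p.1 a)
      invFun := fun p => (Function.update p.1 a p.2, p.1 a)
      left_inv := fun p => by simp
      right_inv := fun p => by simp }
  have h1 : ∑ z : I → K, ∑ x : K, F (Function.update z a x)
      = ∑ p : (I → K) × K, F ((e p).1) := by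
    rw [Fintype.sum_prod_type]
    rfl
  rw [h1, Equiv.sum_comp e (fun p => F p.1), Fintype.sum_prod_type]
  simp only [sum_const, card_univ, nsmul_eq_mul]
  rw [← mul_sum]

/-- (a) -/
theorem sum_mul_A [Nonempty K] (T : Finset I) (g f : (I → K) → ℝ)
    (hg : ∀ z z', g (T.piecewise z z') = g z) :
    ∑ z, g z * A T f z = ∑ z, g z * f z := by
  have h := sum_piecewise T (fun z => g z * f z)
  have hQ : NQ I K ≠ 0 := NQ_pos.ne'
  unfold A
  have h2 : ∀ z, g z * ((∑ z' : I → K, f (T.piecewise z z')) / NQ I K)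
      = (∑ z' : I → K, g (T.piecewise z z') * f (T.piecewise z z')) / NQ I K := by
    intro z
    rw [mul_div_assoc', mul_sum]
    congr 1
    exact sum_congr rfl fun z' _ => by rw [hg]
  rw [sum_congr rfl fun z _ => h2 z, ← sum_div, h]
  field_simp

/-- (b) -/
theorem A_A [Nonempty K] {S T : Finset I} (hST : S ⊆ T) (f : (I → K) → ℝ) (z : I → K) :
    A S (A T f) z = A S f z := by
  have hQ : NQ I K ≠ 0 := NQ_pos.ne'
  unfold A
  congr 1
  rw [← sum_div]
  have h2 : ∀ z' z'' : I → K, T.piecewise (S.piecewise z z') z''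
      = S.piecewise z (T.piecewise z' z'') := by
    intro z' z''
    ext a
    by_cases h : a ∈ S
    · simp [h, hST h]
    · by_cases h' : a ∈ T <;> simp [h, h']
  simp only [h2]
  rw [sum_piecewise T (fun w => f (S.piecewise z w))]
  field_simp

theorem A_mono (S : Finset I) {f g : (I → K) → ℝ} (h : ∀ z, f z ≤ g z) (z : I → K) :
    A S f z ≤ A S g z := by
  unfold A NQ
  gcongr with z' _
  exact h _

theorem A_nonneg (S : Finset I) {f : (I → K) → ℝ} (h : ∀ z, 0 ≤ f z) (z : I → K) :
    0 ≤ A S f z := by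
  unfold A NQ
  exact div_nonneg (sum_nonneg fun z' _ => h _) (by positivity)

/-- number of functions with a coincidence. -/
theorem card_coinc (a : I) (g : (I → K) → K) (hg : ∀ z x, g (Function.update z a x) = g z) :
    (Fintype.card K : ℝ) * ∑ z : I → K, (if z a = g z then (1 : ℝ) else 0) = NQ I K := by
  rw [← sum_update a (fun z => if z a = g z then (1 : ℝ) else 0)]
  simp only [hg, Function.update_self]
  simp only [sum_ite_eq', mem_univ, if_true, sum_const, card_univ, nsmul_eq_mul, mul_one]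
  exact card_fun

/-- conditioning. -/
theorem sum_cond [Nonempty K] (S : Finset I) (t : I → K) (F : (I → K) → ℝ) :
    (Fintype.card K : ℝ) ^ S.card * ∑ z : I → K, (if ∀ a ∈ S, z a = t a then F z else 0)
      = NQ I K * A S F t := by
  have h1 : ∑ z : I → K, (if ∀ a ∈ S, z a = t a then F z else 0)
      = ∑ z : I → K, (if ∀ a ∈ S, z a = t a then (1 : ℝ) else 0) * F z := by
    refine sum_congr rfl fun z _ => ?_
    split_ifs <;> simp
  have h2 := sum_mul_A S (fun z : I → K => if ∀ a ∈ S, z a = t a then (1 : ℝ) else 0) F (by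
    intro z z'
    congr 1
    refine propext (forall₂_congr fun a ha => ?_)
    simp [ha])
  rw [h1, ← h2]
  have h3 : ∀ z : I → K, (if ∀ a ∈ S, z a = t a then (1 : ℝ) else 0) * A S F z
      = (if ∀ a ∈ S, z a = t a then (1 : ℝ) else 0) * A S F t := by
    intro z
    split_ifs with hz
    · rw [one_mul, one_mul]
      unfold A
      congr 1
      refine sum_congr rfl fun z' _ => ?_
      congr 1
      ext a
      by_cases h : a ∈ S
      · simp [h, hz a h]
      · simp [h]
    · simp
  rw [sum_congr rfl fun z _ => h3 z, ← sum_mul, ← mul_assoc]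
  congr 1
  have h4 : ∑ z : I → K, (if ∀ a ∈ S, z a = t a then (1 : ℝ) else 0)
      = ((Fintype.piFinset (fun a => if a ∈ S then {t a} else (univ : Finset K))).card : ℝ) := by
    rw [Finset.sum_boole]
    congr 2
    ext z
    simp only [mem_filter, mem_univ, true_and, Fintype.mem_piFinset]
    refine ⟨fun h a => ?_, fun h a ha => ?_⟩
    · by_cases ha : a ∈ S
      · simp [ha, h a ha]
      · simp [ha]
    · have := h a
      simpa [ha] using this
  rw [h4, Fintype.card_piFinset]
  have h5 : ∀ a, (if a ∈ S then {t a} else (univ : Finset K)).card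
      = if a ∈ S then 1 else Fintype.card K := by
    intro a
    split_ifs <;> simp
  simp only [h5]
  rw [Finset.prod_ite]
  simp only [prod_const_one, one_mul, prod_const]
  unfold NQ
  push_cast
  rw [← pow_add]
  congr 1
  have h6 : (univ.filter fun a => a ∉ S) = univ \ S := by
    ext a; simp
  rw [h6, card_sdiff_of_subset (subset_univ S), card_univ]
  have := card_le_univ S
  omega

/-- good points. -/
def Good {γ : Type} (grp : I → γ) (T : Finset I) (z : I → K) : Prop :=
  ∀ a ∈ T, ∀ b ∈ T, grp a ≠ grp b → z a ≠ z b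

open Classical in
theorem prob_bad [Nonempty K] {γ : Type} (grp : I → γ) (S T : Finset I)
    (t : I → K) (ht : Good grp S t) :
    A S (fun z => if Good grp T z then (0 : ℝ) else 1) t ≤ (T.card : ℝ) ^ 2 / Fintype.card K := by
  have hQ : (0 : ℝ) < NQ I K := NQ_pos
  have hq : (0 : ℝ) < Fintype.card K := by exact_mod_cast (Fintype.card_pos : 0 < Fintype.card K)
  unfold A
  rw [div_le_div_iff₀ hQ hq]
  have h1 : ∀ z' : I → K, (if Good grp T (S.piecewise t z') then (0 : ℝ) else 1)
      ≤ ∑ a ∈ T, ∑ b ∈ T, (if grp a ≠ grp b ∧ S.piecewise t z' a = S.piecewise t z' b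
        then (1 : ℝ) else 0) := by
    intro z'
    have hnn : 0 ≤ ∑ a ∈ T, ∑ b ∈ T, (if grp a ≠ grp b ∧ S.piecewise t z' a = S.piecewise t z' b
        then (1 : ℝ) else 0) :=
      sum_nonneg fun a _ => sum_nonneg fun b _ => by split_ifs <;> norm_num
    split_ifs with hz
    · exact hnn
    · unfold Good at hz
      push Not at hz
      obtain ⟨a, ha, b, hb, hab, hz⟩ := hz
      calc (1 : ℝ) = (if grp a ≠ grp b ∧ S.piecewise t z' a = S.piecewise t z' b
              then (1 : ℝ) else 0) := by simp [hab, hz]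
        _ ≤ ∑ b ∈ T, (if grp a ≠ grp b ∧ S.piecewise t z' a = S.piecewise t z' b
              then (1 : ℝ) else 0) :=
            single_le_sum (f := fun b => (if grp a ≠ grp b ∧ S.piecewise t z' a =
              S.piecewise t z' b then (1 : ℝ) else 0))
              (fun b _ => by split_ifs <;> norm_num) hb
        _ ≤ _ :=
            single_le_sum (f := fun a => ∑ b ∈ T, (if grp a ≠ grp b ∧ S.piecewise t z' a =
              S.piecewise t z' b then (1 : ℝ) else 0))
              (fun a _ => sum_nonneg fun b _ => by split_ifs <;> norm_num) ha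
  have h2 : ∀ a ∈ T, ∀ b ∈ T, (Fintype.card K : ℝ) * ∑ z' : I → K,
      (if grp a ≠ grp b ∧ S.piecewise t z' a = S.piecewise t z' b then (1 : ℝ) else 0)
      ≤ NQ I K := by
    intro a ha b hb
    by_cases hab : grp a = grp b
    · simp [hab, hQ.le]
    have hne : a ≠ b := fun h => hab (by rw [h])
    by_cases haS : a ∈ S
    · by_cases hbS : b ∈ S
      · have : t a ≠ t b := ht a haS b hbS hab
        simp [haS, hbS, this, hQ.le]
      · have := card_coinc b (fun z' : I → K => S.piecewise t z' a) (by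
          intro z x; simp [haS])
        rw [← this]
        refine le_of_eq ?_
        congr 1
        refine sum_congr rfl fun z' _ => ?_
        congr 1
        refine propext ⟨fun h => ?_, fun h => ⟨hab, ?_⟩⟩
        · have := h.2
          simp only [hbS, not_false_eq_true, Finset.piecewise_eq_of_notMem] at this
          exact this.symm
        · simp only [hbS, not_false_eq_true, Finset.piecewise_eq_of_notMem]
          exact h.symm
    · have := card_coinc a (fun z' : I → K => S.piecewise t z' b) (by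
          intro z x
          by_cases hbS : b ∈ S
          · simp [hbS]
          · simp [hbS, Function.update_of_ne hne.symm])
      rw [← this]
      refine le_of_eq ?_
      congr 1
      refine sum_congr rfl fun z' _ => ?_
      congr 1
      refine propext ⟨fun h => ?_, fun h => ⟨hab, ?_⟩⟩
      · have := h.2
        simp only [haS, not_false_eq_true, Finset.piecewise_eq_of_notMem] at this
        exact this
      · simp only [haS, not_false_eq_true, Finset.piecewise_eq_of_notMem]
        exact h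
  calc (∑ z' : I → K, (if Good grp T (S.piecewise t z') then (0 : ℝ) else 1)) * Fintype.card K
      ≤ (∑ z' : I → K, ∑ a ∈ T, ∑ b ∈ T,
        (if grp a ≠ grp b ∧ S.piecewise t z' a = S.piecewise t z' b
        then (1 : ℝ) else 0)) * Fintype.card K := by
        gcongr with z' _
        exact h1 z'
    _ = ∑ a ∈ T, ∑ b ∈ T, (Fintype.card K : ℝ) * ∑ z' : I → K,
      (if grp a ≠ grp b ∧ S.piecewise t z' a = S.piecewise t z' b then (1 : ℝ) else 0) := by
        rw [mul_comm, sum_comm, mul_sum]
        refine sum_congr rfl fun a _ => ?_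
        rw [sum_comm, mul_sum]
    _ ≤ ∑ a ∈ T, ∑ b ∈ T, NQ I K :=
        sum_le_sum fun a ha => sum_le_sum fun b hb => h2 a ha b hb
    _ = (T.card : ℝ) ^ 2 * NQ I K := by
        simp only [sum_const, nsmul_eq_mul]
        ring

open Classical in
/-- the total variation lemma. -/
theorem tv [Nonempty K] {γ : Type} (grp : I → γ) (W : (I → K) → ℝ) (hW : ∀ z, 0 ≤ W z)
    (w ε : ℝ) (hw : 0 ≤ w) (S T : Finset I) (hST : S ⊆ T) (t : I → K)
    (ht : Good grp S t) (hS : |A S W t - w| ≤ ε * w)
    (hT : ∀ z, Good grp T z → |A T W z - w| ≤ ε * w) :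
    A S (fun z => |A T W z - w|) t ≤ (3 * ε + 2 * ((T.card : ℝ) ^ 2 / Fintype.card K)) * w := by
  have hQ : (0 : ℝ) < NQ I K := NQ_pos
  have hεw : 0 ≤ ε * w := le_trans (abs_nonneg _) hS
  have h1 : ∀ z, |A T W z - w| ≤ A T W z + ((-w + 2 * (ε * w)) +
      2 * w * (if Good grp T z then (0 : ℝ) else 1)) := by
    intro z
    split_ifs with hz
    · have := hT z hz
      have h3 := abs_le.1 this
      rw [abs_le]
      constructor <;> nlinarith
    · have h4 : 0 ≤ A T W z := A_nonneg T hW z
      rw [abs_le]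
      constructor <;> nlinarith
  have h2 := A_mono S h1 t
  have h3 : A S (fun z => A T W z + ((-w + 2 * (ε * w)) +
      2 * w * (if Good grp T z then (0 : ℝ) else 1))) t
      = A S W t + ((-w + 2 * (ε * w)) + 2 * w *
        A S (fun z => if Good grp T z then (0 : ℝ) else 1) t) := by
    rw [← A_A hST W t]
    unfold A
    rw [sum_add_distrib, sum_add_distrib, ← mul_sum]
    simp only [sum_const, card_univ, nsmul_eq_mul]
    rw [card_fun]
    field_simp
  rw [h3] at h2
  have h4 := prob_bad grp S T t ht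
  have h5 := abs_le.1 hS
  have h6 : 2 * w * A S (fun z => if Good grp T z then (0 : ℝ) else 1) t
      ≤ 2 * w * ((T.card : ℝ) ^ 2 / Fintype.card K) :=
    mul_le_mul_of_nonneg_left h4 (by linarith)
  nlinarith

section contraction

variable {ι : Type} [Fintype ι] [DecidableEq ι]

/-- the contraction kernel. -/
noncomputable def hh (k : ι → I) (t : ι → K) (z : I → K) : ℝ :=
  ∏ i, ((Fintype.card K : ℝ) * (if z (k i) = t i then 1 else 0) - 1)

theorem hh_expand (k : ι → I) (t : ι → K) (z : I → K) :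
    hh k t z = ∑ U ∈ (univ : Finset ι).powerset, (-1 : ℝ) ^ (univ \ U).card *
      ((Fintype.card K : ℝ) ^ U.card * (if ∀ i ∈ U, z (k i) = t i then 1 else 0)) := by
  unfold hh
  simp only [sub_eq_add_neg]
  rw [Finset.prod_add]
  refine sum_congr rfl fun U _ => ?_
  rw [prod_const, mul_comm]
  congr 1
  rw [prod_mul_distrib, prod_const, Finset.prod_boole]
  congr

theorem sum_cond' [Nonempty K] (k : ι → I) (hk : Function.Injective k) (t : ι → K) (ts : I → K)
    (hts : ∀ i, ts (k i) = t i) (U : Finset ι) (F : (I → K) → ℝ) :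
    ∑ z : I → K, ((Fintype.card K : ℝ) ^ U.card *
      (if ∀ i ∈ U, z (k i) = t i then (1 : ℝ) else 0)) * F z = NQ I K * A (U.image k) F ts := by
  rw [← sum_cond (U.image k) ts F, card_image_of_injective U hk, mul_sum]
  refine sum_congr rfl fun z _ => ?_
  have : (∀ i ∈ U, z (k i) = t i) ↔ (∀ a ∈ U.image k, z a = ts a) := by
    simp [hts]
  by_cases h : ∀ i ∈ U, z (k i) = t i
  · rw [if_pos h, if_pos (this.1 h)]
    ring
  · rw [if_neg h, if_neg (fun h' => h (this.2 h'))]
    ring

theorem err_U [Nonempty K] {γ : Type} (grp : I → γ) (W : (I → K) → ℝ) (hW : ∀ z, 0 ≤ W z)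
    (w ε : ℝ) (hw : 0 ≤ w) (N : ℕ)
    (hT : ∀ T : Finset I, T.card ≤ N → ∀ z, Good grp T z → |A T W z - w| ≤ ε * w)
    (k : ι → I) (hk : Function.Injective k) (t : ι → K) (ts : I → K)
    (hts : ∀ i, ts (k i) = t i) (htg : ∀ i i', grp (k i) ≠ grp (k i') → t i ≠ t i')
    (J : Finset I) (hJ : Fintype.card ι + J.card ≤ N) (F : (I → K) → ℝ)
    (hF : ∀ z z', (∀ a ∈ J, z a = z' a) → F z = F z') (M : ℝ) (hM : ∀ z, |F z| ≤ M)
    (U : Finset ι) :
    |∑ z : I → K, (W z - w) * ((Fintype.card K : ℝ) ^ U.card *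
      (if ∀ i ∈ U, z (k i) = t i then (1 : ℝ) else 0)) * F z|
      ≤ M * (NQ I K * ((3 * ε + 2 * ((N : ℝ) ^ 2 / Fintype.card K)) * w)) := by
  have hQ : (0 : ℝ) < NQ I K := NQ_pos
  have hq : (0 : ℝ) < Fintype.card K := by exact_mod_cast (Fintype.card_pos : 0 < Fintype.card K)
  set T : Finset I := U.image k ∪ J with hTdef
  have hTc : T.card ≤ N := by
    refine (card_union_le _ _).trans (le_trans ?_ hJ)
    gcongr
    exact card_image_le.trans (card_le_univ U)
  set g : (I → K) → ℝ := fun z => ((Fintype.card K : ℝ) ^ U.card *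
      (if ∀ i ∈ U, z (k i) = t i then (1 : ℝ) else 0)) * F z with hg
  have hgT : ∀ z z', g (T.piecewise z z') = g z := by
    intro z z'
    have h1 : F (T.piecewise z z') = F z := by
      refine hF _ _ fun a ha => ?_
      have : a ∈ T := mem_union_right _ ha
      simp [this]
    have h2 : (∀ i ∈ U, T.piecewise z z' (k i) = t i) ↔ (∀ i ∈ U, z (k i) = t i) := by
      refine forall₂_congr fun i hi => ?_
      have : k i ∈ T := mem_union_left _ (mem_image_of_mem k hi)
      simp [this]
    simp only [hg, h1, h2]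
  have h3 : ∑ z : I → K, (W z - w) * ((Fintype.card K : ℝ) ^ U.card *
      (if ∀ i ∈ U, z (k i) = t i then (1 : ℝ) else 0)) * F z
      = ∑ z, g z * (A T W z - w) := by
    have h4 := sum_mul_A T g W hgT
    have h5 : ∑ z, g z * (A T W z - w) = ∑ z, g z * (W z - w) := by
      simp only [mul_sub, sum_sub_distrib]
      rw [h4]
    rw [h5]
    refine sum_congr rfl fun z _ => ?_
    simp only [hg]
    ring
  rw [h3]
  have hM0 : 0 ≤ M := (abs_nonneg _).trans (hM ts)
  calc |∑ z, g z * (A T W z - w)| ≤ ∑ z, |g z * (A T W z - w)| := abs_sum_le_sum_abs _ _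
    _ ≤ ∑ z : I → K, ((Fintype.card K : ℝ) ^ U.card *
      (if ∀ i ∈ U, z (k i) = t i then (1 : ℝ) else 0)) * (M * |A T W z - w|) := by
        refine sum_le_sum fun z _ => ?_
        rw [abs_mul]
        simp only [hg]
        rw [abs_mul, abs_of_nonneg (a := (Fintype.card K : ℝ) ^ U.card *
          (if ∀ i ∈ U, z (k i) = t i then (1 : ℝ) else 0)) (by split_ifs <;> positivity), mul_assoc]
        refine mul_le_mul_of_nonneg_left ?_ (by split_ifs <;> positivity)
        exact mul_le_mul_of_nonneg_right (hM z) (abs_nonneg _)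
    _ = NQ I K * A (U.image k) (fun z => M * |A T W z - w|) ts :=
        sum_cond' k hk t ts hts U _
    _ = M * (NQ I K * A (U.image k) (fun z => |A T W z - w|) ts) := by
        unfold A
        rw [← mul_sum]
        ring
    _ ≤ M * (NQ I K * ((3 * ε + 2 * ((T.card : ℝ) ^ 2 / Fintype.card K)) * w)) := by
        have hgood : Good grp (U.image k) ts := by
          intro a ha b hb hab
          obtain ⟨i, _, rfl⟩ := mem_image.1 ha
          obtain ⟨i', _, rfl⟩ := mem_image.1 hb
          rw [hts, hts]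
          exact htg i i' hab
        have := tv grp W hW w ε hw (U.image k) T subset_union_left ts hgood
          (hT _ (card_image_le.trans ((card_le_univ U).trans (by omega))) ts hgood)
          (hT T hTc)
        gcongr
    _ ≤ M * (NQ I K * ((3 * ε + 2 * ((N : ℝ) ^ 2 / Fintype.card K)) * w)) := by
        have : (T.card : ℝ) ≤ N := by exact_mod_cast hTc
        gcongr

theorem err_j [Nonempty K] {γ : Type} (grp : I → γ) (W : (I → K) → ℝ) (hW : ∀ z, 0 ≤ W z)
    (w ε : ℝ) (hw : 0 ≤ w) (N : ℕ)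
    (hT : ∀ T : Finset I, T.card ≤ N → ∀ z, Good grp T z → |A T W z - w| ≤ ε * w)
    (k : ι → I) (hk : Function.Injective k) (t : ι → K) (ts : I → K)
    (hts : ∀ i, ts (k i) = t i) (htg : ∀ i i', grp (k i) ≠ grp (k i') → t i ≠ t i')
    (J : Finset I) (hJ : Fintype.card ι + J.card ≤ N) (F : (I → K) → ℝ)
    (hF : ∀ z z', (∀ a ∈ J, z a = z' a) → F z = F z') (M : ℝ) (hM : ∀ z, |F z| ≤ M) :
    |∑ z : I → K, (W z - w) * hh k t z * F z|
      ≤ 2 ^ Fintype.card ι * (M * (NQ I K * ((3 * ε + 2 * ((N : ℝ) ^ 2 / Fintype.card K)) * w))) := by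
  have h1 : ∑ z : I → K, (W z - w) * hh k t z * F z
      = ∑ U ∈ (univ : Finset ι).powerset, (-1 : ℝ) ^ (univ \ U).card *
        ∑ z : I → K, (W z - w) * ((Fintype.card K : ℝ) ^ U.card *
        (if ∀ i ∈ U, z (k i) = t i then (1 : ℝ) else 0)) * F z := by
    simp only [mul_sum]
    rw [sum_comm]
    refine sum_congr rfl fun z _ => ?_
    rw [hh_expand, mul_sum, sum_mul]
    refine sum_congr rfl fun U _ => ?_
    ring
  rw [h1]
  calc |∑ U ∈ (univ : Finset ι).powerset, (-1 : ℝ) ^ (univ \ U).card *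
        ∑ z : I → K, (W z - w) * ((Fintype.card K : ℝ) ^ U.card *
        (if ∀ i ∈ U, z (k i) = t i then (1 : ℝ) else 0)) * F z|
      ≤ ∑ U ∈ (univ : Finset ι).powerset, |(-1 : ℝ) ^ (univ \ U).card *
        ∑ z : I → K, (W z - w) * ((Fintype.card K : ℝ) ^ U.card *
        (if ∀ i ∈ U, z (k i) = t i then (1 : ℝ) else 0)) * F z| := abs_sum_le_sum_abs _ _
    _ ≤ ∑ U ∈ (univ : Finset ι).powerset,
        (M * (NQ I K * ((3 * ε + 2 * ((N : ℝ) ^ 2 / Fintype.card K)) * w))) := by
        refine sum_le_sum fun U _ => ?_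
        rw [abs_mul, abs_pow, abs_neg, abs_one, one_pow, one_mul]
        exact err_U grp W hW w ε hw N hT k hk t ts hts htg J hJ F hF M hM U
    _ = _ := by
        rw [sum_const, card_powerset, card_univ, nsmul_eq_mul]
        push_cast
        ring

theorem main_zero (k : ι → I) (hk : Function.Injective k) (t : ι → K) (i0 : ι)
    (hq : (Fintype.card K : ℝ) ≠ 0)
    (F : (I → K) → ℝ) (hF : ∀ z x, F (Function.update z (k i0) x) = F z) :
    ∑ z : I → K, hh k t z * F z = 0 := by
  have h := sum_update (k i0) (fun z : I → K => hh k t z * F z)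
  have h2 : ∀ z : I → K, ∑ x : K, hh k t (Function.update z (k i0) x) *
      F (Function.update z (k i0) x) = 0 := by
    intro z
    have h3 : ∀ x, hh k t (Function.update z (k i0) x)
        = ((Fintype.card K : ℝ) * (if x = t i0 then 1 else 0) - 1) *
          ∏ i ∈ univ.erase i0, ((Fintype.card K : ℝ) * (if z (k i) = t i then 1 else 0) - 1) := by
      intro x
      unfold hh
      rw [← mul_prod_erase univ _ (mem_univ i0)]
      congr 1
      · simp
      · refine prod_congr rfl fun i hi => ?_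
        have : k i ≠ k i0 := fun h => (ne_of_mem_erase hi) (hk h)
        rw [Function.update_of_ne this]
    simp only [h3, hF]
    rw [← sum_mul, ← sum_mul]
    have h4 : ∑ x : K, ((Fintype.card K : ℝ) * (if x = t i0 then 1 else 0) - 1) = 0 := by
      rw [sum_sub_distrib, ← mul_sum]
      simp
    rw [h4]
    simp
  simp only [h2, sum_const_zero] at h
  rcases mul_eq_zero.1 h.symm with h | h
  · exact absurd h hq
  · exact h

theorem main_perm [Nonempty K] (k : ι → I) (hk : Function.Injective k) (t : ι → K) (ts : I → K)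
    (hts : ∀ i, ts (k i) = t i) (σ : Equiv.Perm ι) (Φ : (ι → K) → ℝ)
    (hbal : ∀ (t : ι → K) (i : ι), ∑ x : K, Φ (Function.update t i x) = 0) :
    ∑ z : I → K, hh k t z * Φ (z ∘ k ∘ σ) = NQ I K * Φ (t ∘ σ) := by
  have hq : (0 : ℝ) < Fintype.card K := by exact_mod_cast (Fintype.card_pos : 0 < Fintype.card K)
  have h1 : ∑ z : I → K, hh k t z * Φ (z ∘ k ∘ σ)
      = ∑ U ∈ (univ : Finset ι).powerset, (-1 : ℝ) ^ (univ \ U).card *
        ∑ z : I → K, ((Fintype.card K : ℝ) ^ U.card *
        (if ∀ i ∈ U, z (k i) = t i then (1 : ℝ) else 0)) * Φ (z ∘ k ∘ σ) := by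
    simp only [mul_sum]
    rw [sum_comm]
    refine sum_congr rfl fun z _ => ?_
    rw [hh_expand, sum_mul]
    refine sum_congr rfl fun U _ => ?_
    ring
  rw [h1, sum_eq_single (univ : Finset ι)]
  · rw [sum_cond' k hk t ts hts]
    simp only [sdiff_self, Finset.bot_eq_empty, card_empty, pow_zero, one_mul]
    congr 1
    unfold A
    have h2 : ∀ z' : I → K, Φ ((univ.image k).piecewise ts z' ∘ k ∘ σ) = Φ (t ∘ σ) := by
      intro z'
      congr 1
      ext i
      simp [hts]
    simp only [h2, sum_const, card_univ, nsmul_eq_mul]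
    rw [card_fun]
    field_simp [(NQ_pos : 0 < NQ I K).ne']
  · intro U _ hU
    obtain ⟨i, hi⟩ : ∃ i, i ∉ U := by
      by_contra hcon
      push Not at hcon
      exact hU (eq_univ_iff_forall.2 hcon)
    have h := sum_update (k i) (fun z : I → K => ((Fintype.card K : ℝ) ^ U.card *
        (if ∀ i ∈ U, z (k i) = t i then (1 : ℝ) else 0)) * Φ (z ∘ k ∘ σ))
    have h2 : ∀ z : I → K, ∑ x : K, ((Fintype.card K : ℝ) ^ U.card *
        (if ∀ i' ∈ U, (Function.update z (k i) x) (k i') = t i' then (1 : ℝ) else 0)) *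
        Φ ((Function.update z (k i) x) ∘ k ∘ σ) = 0 := by
      intro z
      have h3 : ∀ x, (∀ i' ∈ U, (Function.update z (k i) x) (k i') = t i') ↔
          (∀ i' ∈ U, z (k i') = t i') := by
        intro x
        refine forall₂_congr fun i' hi' => ?_
        have : k i' ≠ k i := fun h => hi (by rw [← hk h]; exact hi')
        rw [Function.update_of_ne this]
      have h4 : ∀ x, (Function.update z (k i) x) ∘ k ∘ σ
          = Function.update (z ∘ k ∘ σ) (σ.symm i) x := by
        intro x
        ext i'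
        by_cases hi' : i' = σ.symm i
        · subst hi'
          simp
        · have : σ i' ≠ i := fun h => hi' (by rw [← h]; simp)
          have h5 : k (σ i') ≠ k i := fun h => this (hk h)
          simp [Function.update_of_ne h5, Function.update_of_ne hi']
      simp only [h3, h4]
      rw [← mul_sum, hbal, mul_zero]
    simp only [h2, sum_const_zero] at h
    rcases mul_eq_zero.1 h.symm with h | h
    · exact absurd h hq.ne'
    · rw [h, mul_zero]
  · intro h
    exact absurd (by simp) h

end contraction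

end general

open Classical in
/-- the slots attached to `t`. -/
noncomputable def kk {K : Type} {m d : ℕ} (hd : m + 2 ≤ d) (t : Fin (m + 2) → K) :
    Fin (m + 2) → Fin 3 × Fin d :=
  fun i => (if t i = t 0 then 2 else 0, Fin.castLE hd i)

theorem kk_inj {K : Type} {m d : ℕ} (hd : m + 2 ≤ d) (t : Fin (m + 2) → K) :
    Function.Injective (kk hd t) := by
  intro i i' h
  have := (Prod.ext_iff.1 h).2
  exact Fin.castLE_injective hd this

/-- extension of `t` to all slots. -/
noncomputable def tst {K : Type} {m d : ℕ} (t : Fin (m + 2) → K) : Fin 3 × Fin d → K :=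
  fun a => if h : (a.2 : ℕ) < m + 2 then t ⟨a.2, h⟩ else t 0

theorem tst_kk {K : Type} {m d : ℕ} (hd : m + 2 ≤ d) (t : Fin (m + 2) → K) (i : Fin (m + 2)) :
    tst t (kk hd t i) = t i := by
  unfold tst kk
  simp

theorem c0_kk {K : Type} {m d : ℕ} (hd : m + 2 ≤ d) (t : Fin (m + 2) → K) (i : Fin (m + 2))
    (h : t i = t 0) : c0 (kk hd t i).1 = c1 (kk hd t i).1 := by
  simp [c0, c1, kk, h]

theorem c0_kk' {K : Type} {m d : ℕ} (hd : m + 2 ≤ d) (t : Fin (m + 2) → K) (i : Fin (m + 2))
    (h : t i ≠ t 0) : c0 (kk hd t i).1 = 0 := by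
  simp [c0, kk, h]

theorem c1_kk {K : Type} {m d : ℕ} (hd : m + 2 ≤ d) (t : Fin (m + 2) → K) (i : Fin (m + 2)) :
    |c1 (kk hd t i).1| = 1 := by
  by_cases h : t i = t 0 <;> simp [c1, kk, h]

theorem abs_c0 (x : Fin 3) : |c0 x| ≤ 1 := by
  fin_cases x <;> simp [c0]

theorem abs_c1 (x : Fin 3) : |c1 x| ≤ 1 := by
  fin_cases x <;> simp [c1]

/-- sign of a slot assignment. -/
noncomputable def sg {m d : ℕ} (j : Fin (m + 2) → Fin 3 × Fin d) : ℝ :=
  c0 (j 0).1 * ∏ i : Fin (m + 1), c1 (j i.succ).1

theorem abs_sg {m d : ℕ} (j : Fin (m + 2) → Fin 3 × Fin d) : |sg j| ≤ 1 := by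
  unfold sg
  rw [abs_mul, abs_prod]
  have h1 : ∏ i : Fin (m + 1), |c1 (j i.succ).1| ≤ 1 :=
    prod_le_one (fun i _ => abs_nonneg _) (fun i _ => abs_c1 _)
  have h2 := abs_c0 (j 0).1
  have h3 : 0 ≤ ∏ i : Fin (m + 1), |c1 (j i.succ).1| := prod_nonneg fun i _ => abs_nonneg _
  calc |c0 (j 0).1| * ∏ i : Fin (m + 1), |c1 (j i.succ).1| ≤ 1 * 1 :=
        mul_le_mul h2 h1 h3 (by norm_num)
    _ = 1 := one_mul 1

theorem sg_kk {K : Type} {m d : ℕ} (hd : m + 2 ≤ d) (t : Fin (m + 2) → K)
    (Φ : (Fin (m + 2) → K) → ℝ)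
    (hsym : ∀ (σ : Equiv.Perm (Fin (m + 2))) (t : Fin (m + 2) → K), σ 0 = 0 → Φ (t ∘ σ) = Φ t)
    (σ : Equiv.Perm (Fin (m + 2))) (h : t (σ 0) = t 0) :
    sg (kk hd t ∘ σ) * Φ (t ∘ σ) = (∏ i, c1 (kk hd t i).1) * Φ t := by
  have h1 : sg (kk hd t ∘ σ) = ∏ i, c1 (kk hd t i).1 := by
    rw [← Equiv.prod_comp σ, Fin.prod_univ_succ]
    unfold sg
    simp only [Function.comp]
    rw [c0_kk hd t (σ 0) h]
  rw [h1]
  congr 1
  have h2 : t ∘ (Equiv.swap 0 (σ 0)) = t := by
    ext i
    simp only [Function.comp]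
    by_cases h0 : i = 0
    · subst h0
      simp [h]
    · by_cases h1 : i = σ 0
      · subst h1
        simp [h]
      · rw [Equiv.swap_apply_of_ne_of_ne h0 h1]
  have h3 : t ∘ (Equiv.swap 0 (σ 0) * σ : Equiv.Perm (Fin (m + 2))) = t ∘ σ := by
    rw [Equiv.Perm.coe_mul, ← Function.comp_assoc, h2]
  rw [← h3]
  exact hsym _ t (by simp)

end A2

open A2 Finset in
/-- A2. -/
theorem FT_of_countThm (m d : ℕ) (hd : m + 2 ≤ d) (h : CountThm (2 * (m + 2)) d) : FT m d := by
  classical
  have hd0 : (0 : ℝ) < d := by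
    have : 0 < d := by omega
    exact_mod_cast this
  set C0 : ℝ := (3 * d : ℝ) ^ (m + 2) * 2 ^ (m + 2) with hC0
  have hC0pos : 0 < C0 := by positivity
  obtain ⟨q1, hq1⟩ := h (1 / (12 * C0)) (by positivity)
  obtain ⟨q2, hq2⟩ := exists_nat_gt (8 * C0 * ((2 * (m + 2) : ℕ) : ℝ) ^ 2)
  refine ⟨max q1 q2, ?_⟩
  intro K _ _ _ hK Φ hbal hsym hrel
  by_contra hcon
  push Not at hcon
  obtain ⟨t0, ht0⟩ := hcon
  obtain ⟨t, htmax⟩ := Finite.exists_max (fun t => |Φ t|)
  have hM0 : 0 < |Φ t| := lt_of_lt_of_le (abs_pos.2 ht0) (htmax t0)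
  have hq : (1 : ℝ) < Fintype.card K := by exact_mod_cast Fintype.one_lt_card
  have hw : 0 < wbar (Fintype.card K) d := by
    unfold wbar
    have : (0 : ℝ) < (Fintype.card K : ℝ) - 1 := by linarith
    positivity
  set w := wbar (Fintype.card K) d with hwdef
  set ε : ℝ := 1 / (12 * C0) with hε
  have hNQ : NQ (Fin 3 × Fin d) K = (Fintype.card K : ℝ) ^ (3 * d) := by
    unfold NQ
    simp
  have hNQpos : 0 < NQ (Fin 3 × Fin d) K := NQ_pos
  have hT : ∀ T : Finset (Fin 3 × Fin d), T.card ≤ 2 * (m + 2) → ∀ z : Fin 3 × Fin d → K,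
      Good (fun a : Fin 3 × Fin d => a.1) T z → |A T Wt z - w| ≤ ε * w := by
    intro T hTc z hz
    have := hq1 K (le_trans (le_max_left _ _) hK) T hTc z hz
    unfold A
    rw [hNQ]
    exact this
  have hW : ∀ z : Fin 3 × Fin d → K, 0 ≤ Wt z := fun z => Nat.cast_nonneg _
  -- the total relation
  have hR : ∀ z : Fin 3 × Fin d → K,
      Wt z * ∑ j : Fin (m + 2) → Fin 3 × Fin d, sg j * Φ (z ∘ j) = 0 := by
    intro z
    by_cases h0 : Wt z = 0
    · rw [h0, zero_mul]
    · have hne : Nonempty {l : Fin 3 → Kˣ //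
          ∑ X : Fin 3, Polynomial.C (l X : K) * ∏ i : Fin d, (Polynomial.X - Polynomial.C (z (X, i))) = 0} := by
        by_contra hcon
        rw [not_nonempty_iff] at hcon
        apply h0
        unfold Wt
        rw [Nat.card_of_isEmpty]
        simp
      obtain ⟨l, hl⟩ := hne
      have := hrel z ⟨l, hl⟩
      unfold sg
      rw [this, mul_zero]
  have hsum : ∑ j : Fin (m + 2) → Fin 3 × Fin d, sg j *
      ((∑ z : Fin 3 × Fin d → K, (Wt z - w) * hh (kk hd t) t z * Φ (z ∘ j)) +
        w * ∑ z : Fin 3 × Fin d → K, hh (kk hd t) t z * Φ (z ∘ j)) = 0 := by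
    have h1 : ∀ j : Fin (m + 2) → Fin 3 × Fin d,
      sg j * ((∑ z : Fin 3 × Fin d → K, (Wt z - w) * hh (kk hd t) t z * Φ (z ∘ j)) +
        w * ∑ z : Fin 3 × Fin d → K, hh (kk hd t) t z * Φ (z ∘ j))
      = ∑ z : Fin 3 × Fin d → K, hh (kk hd t) t z * (Wt z * (sg j * Φ (z ∘ j))) := by
      intro j
      rw [mul_sum, ← sum_add_distrib, mul_sum]
      refine sum_congr rfl fun z _ => ?_
      ring
    rw [sum_congr rfl fun j _ => h1 j, sum_comm]
    refine sum_eq_zero fun z _ => ?_
    rw [← mul_sum, ← mul_sum, hR, mul_zero]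
  -- error terms
  set B : ℝ := 2 ^ (m + 2) * (|Φ t| * (NQ (Fin 3 × Fin d) K *
    ((3 * ε + 2 * (((2 * (m + 2) : ℕ) : ℝ) ^ 2 / Fintype.card K)) * w))) with hB
  have hD : ∀ j : Fin (m + 2) → Fin 3 × Fin d,
      |∑ z : Fin 3 × Fin d → K, (Wt z - w) * hh (kk hd t) t z * Φ (z ∘ j)| ≤ B := by
    intro j
    have := err_j (fun a : Fin 3 × Fin d => a.1) (Wt (K := K) (d := d)) hW w ε hw.le
      (2 * (m + 2)) hT (kk hd t) (kk_inj hd t) t (tst t) (tst_kk hd t)
      (by
        intro i i' hii'
        by_cases h1 : t i = t 0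
        · by_cases h2 : t i' = t 0
          · exact absurd (by simp [kk, h1, h2]) hii'
          · rw [h1]; exact fun h => h2 h.symm
        · by_cases h2 : t i' = t 0
          · rw [h2]; exact h1
          · exact absurd (by simp [kk, h1, h2]) hii')
      (univ.image j) (by
        have : (univ.image j).card ≤ m + 2 := by
          simpa using (card_image_le (s := (univ : Finset (Fin (m + 2)))) (f := j))
        simp only [Fintype.card_fin]
        omega)
      (fun z => Φ (z ∘ j)) (by
        intro z z' hz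
        congr 1
        ext i
        exact hz (j i) (mem_image_of_mem j (mem_univ i))) |Φ t| (fun z => htmax _)
    simpa only [Fintype.card_fin] using this
  -- main terms
  have hE : ∑ j : Fin (m + 2) → Fin 3 × Fin d, sg j *
      ∑ z : Fin 3 × Fin d → K, hh (kk hd t) t z * Φ (z ∘ j)
      = NQ (Fin 3 × Fin d) K * ((∏ i, c1 (kk hd t i).1) * Φ t) *
        ((univ.filter fun σ : Equiv.Perm (Fin (m + 2)) => t (σ 0) = t 0).card : ℝ) := by
    have h1 : ∑ j : Fin (m + 2) → Fin 3 × Fin d, sg j *
      ∑ z : Fin 3 × Fin d → K, hh (kk hd t) t z * Φ (z ∘ j)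
      = ∑ j ∈ (univ : Finset (Equiv.Perm (Fin (m + 2)))).image
        (fun σ : Equiv.Perm (Fin (m + 2)) => kk hd t ∘ σ), sg j *
      ∑ z : Fin 3 × Fin d → K, hh (kk hd t) t z * Φ (z ∘ j) := by
      symm
      refine sum_subset (subset_univ _) fun j _ hj => ?_
      have : ∃ i0, ∀ i, j i ≠ kk hd t i0 := by
        by_contra hcon
        push Not at hcon
        choose τ hτ using hcon
        have hτi : Function.Injective τ := by
          intro a b hab
          apply kk_inj hd t
          rw [← hτ a, ← hτ b, hab]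
        have hτb : Function.Bijective τ := Finite.injective_iff_bijective.1 hτi
        apply hj
        rw [mem_image]
        refine ⟨(Equiv.ofBijective τ hτb).symm, mem_univ _, ?_⟩
        ext1 i
        simp only [Function.comp]
        rw [← hτ]
        congr 1
        exact (Equiv.ofBijective τ hτb).apply_symm_apply i
      obtain ⟨i0, hi0⟩ := this
      rw [main_zero (kk hd t) (kk_inj hd t) t i0 (by positivity) (fun z => Φ (z ∘ j)), mul_zero]
      intro z x
      congr 1
      ext i
      simp [Function.update_of_ne (hi0 i)]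
    rw [h1, sum_image]
    · have h2 : ∀ σ : Equiv.Perm (Fin (m + 2)), sg (kk hd t ∘ σ) *
          ∑ z : Fin 3 × Fin d → K, hh (kk hd t) t z * Φ (z ∘ (kk hd t ∘ σ))
          = if t (σ 0) = t 0 then NQ (Fin 3 × Fin d) K * ((∏ i, c1 (kk hd t i).1) * Φ t) else 0 := by
        intro σ
        rw [main_perm (kk hd t) (kk_inj hd t) t (tst t) (tst_kk hd t) σ Φ hbal]
        split_ifs with hσ
        · rw [← sg_kk hd t Φ hsym σ hσ]
          ring
        · have : sg (kk hd t ∘ σ) = 0 := by
            unfold sg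
            simp only [Function.comp]
            rw [c0_kk' hd t (σ 0) hσ, zero_mul]
          rw [this, zero_mul]
      rw [sum_congr rfl fun σ _ => h2 σ, ← sum_filter, sum_const, nsmul_eq_mul]
      ring
    · intro σ _ σ' _ hσ
      ext1 i
      exact kk_inj hd t (congr_fun hσ i)
  have hcard : (1 : ℝ) ≤
      ((univ.filter fun σ : Equiv.Perm (Fin (m + 2)) => t (σ 0) = t 0).card : ℝ) := by
    have : 0 < (univ.filter fun σ : Equiv.Perm (Fin (m + 2)) => t (σ 0) = t 0).card :=
      card_pos.2 ⟨1, by simp⟩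
    exact_mod_cast this
  have hs1 : |∏ i, c1 (kk hd t i).1| = 1 := by
    rw [abs_prod]
    exact prod_eq_one fun i _ => c1_kk hd t i
  have hfin : w * (NQ (Fin 3 × Fin d) K * ((∏ i, c1 (kk hd t i).1) * Φ t) *
        ((univ.filter fun σ : Equiv.Perm (Fin (m + 2)) => t (σ 0) = t 0).card : ℝ))
      = - ∑ j : Fin (m + 2) → Fin 3 × Fin d, sg j *
        ∑ z : Fin 3 × Fin d → K, (Wt z - w) * hh (kk hd t) t z * Φ (z ∘ j) := by
    rw [← hE, eq_neg_iff_add_eq_zero, ← hsum, mul_sum, ← sum_add_distrib]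
    refine sum_congr rfl fun j _ => ?_
    ring
  have h3 : w * (NQ (Fin 3 × Fin d) K * |Φ t|) ≤ (3 * d : ℝ) ^ (m + 2) * B := by
    calc w * (NQ (Fin 3 × Fin d) K * |Φ t|)
        ≤ w * (NQ (Fin 3 × Fin d) K * |Φ t|) *
        ((univ.filter fun σ : Equiv.Perm (Fin (m + 2)) => t (σ 0) = t 0).card : ℝ) :=
          le_mul_of_one_le_right (by positivity) hcard
      _ = |w * (NQ (Fin 3 × Fin d) K * ((∏ i, c1 (kk hd t i).1) * Φ t) *
        ((univ.filter fun σ : Equiv.Perm (Fin (m + 2)) => t (σ 0) = t 0).card : ℝ))| := by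
          rw [abs_mul, abs_mul, abs_mul, abs_mul, hs1, abs_of_pos hw, abs_of_pos hNQpos,
            Nat.abs_cast]
          ring
      _ = |∑ j : Fin (m + 2) → Fin 3 × Fin d, sg j *
        ∑ z : Fin 3 × Fin d → K, (Wt z - w) * hh (kk hd t) t z * Φ (z ∘ j)| := by
          rw [hfin, abs_neg]
      _ ≤ ∑ j : Fin (m + 2) → Fin 3 × Fin d, |sg j *
        ∑ z : Fin 3 × Fin d → K, (Wt z - w) * hh (kk hd t) t z * Φ (z ∘ j)| :=
          abs_sum_le_sum_abs _ _
      _ ≤ ∑ j : Fin (m + 2) → Fin 3 × Fin d, B := by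
          refine sum_le_sum fun j _ => ?_
          rw [abs_mul]
          calc |sg j| * |∑ z : Fin 3 × Fin d → K, (Wt z - w) * hh (kk hd t) t z * Φ (z ∘ j)|
              ≤ 1 * B := mul_le_mul (abs_sg j) (hD j) (abs_nonneg _) (by norm_num)
            _ = B := one_mul B
      _ = (3 * d : ℝ) ^ (m + 2) * B := by
          rw [sum_const, card_univ, nsmul_eq_mul]
          simp
  have h4 : (3 * d : ℝ) ^ (m + 2) * B = (C0 * (3 * ε + 2 * (((2 * (m + 2) : ℕ) : ℝ) ^ 2 /
      Fintype.card K))) * (w * (NQ (Fin 3 × Fin d) K * |Φ t|)) := by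
    rw [hB, hC0]
    ring
  have h5 : C0 * (3 * ε + 2 * (((2 * (m + 2) : ℕ) : ℝ) ^ 2 / Fintype.card K)) ≤ 1 / 2 := by
    have h6 : C0 * (3 * ε) = 1 / 4 := by
      rw [hε]
      field_simp
      norm_num
    have h7 : (q2 : ℝ) ≤ Fintype.card K := by exact_mod_cast (le_trans (le_max_right _ _) hK)
    have h8 : C0 * (2 * (((2 * (m + 2) : ℕ) : ℝ) ^ 2 / Fintype.card K)) ≤ 1 / 4 := by
      rw [← mul_div_assoc, ← mul_div_assoc, div_le_iff₀ (by linarith)]
      nlinarith
    linarith
  have h9 : 0 < w * (NQ (Fin 3 × Fin d) K * |Φ t|) := by positivity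
  rw [h4] at h3
  nlinarith

end H39Gon
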