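import Pool.Agent.H39R2.Gon.B3

/-!
# Task B: the finite field theorem implies the duality statement for `k(x)`
-/

namespace H39Gon
namespace TaskB

open Polynomial

section clMap

variable {F F' : Type} [Field F] [Field F']

/-- the map `F^* → F'^*` induced by a ring hom -/
noncomputable def clMap (φ : F →+* F') : UV F →ₗ[ℤ] UV F' :=
  (MonoidHom.toAdditive (Units.map (φ : F →* F'))).toIntLinearMap

lemma clMap_cl (φ : F →+* F') (x : F) : clMap φ (cl x) = cl (φ x) := by
  by_cases hx : x = 0
  · subst hx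
    unfold cl
    simp
  · have hx' : φ x ≠ 0 := by rw [Ne, map_eq_zero]; exact hx
    unfold cl
    rw [dif_neg hx, dif_neg hx']
    change Additive.ofMul (Units.map (φ : F →* F') (Units.mk0 x hx)) = _
    congr 1
    ext
    simp

end clMap

section abs

variable {V W : Type} [AddCommGroup V] [AddCommGroup W]

lemma Tors.zsmul {x : V} (hx : Tors x) (n : ℤ) : Tors (n • x) := by
  obtain ⟨a, ha, hax⟩ := hx
  exact ⟨a, ha, by rw [smul_comm, hax, smul_zero]⟩

lemma Tors.map {x : V} (hx : Tors x) (f : V →ₗ[ℤ] W) : Tors (f x) := by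
  obtain ⟨a, ha, hax⟩ := hx
  exact ⟨a, ha, by rw [← map_nsmul, hax, map_zero]⟩

lemma Q_eq_of_tors {m : ℕ} (Q : MultilinearMap ℤ (fun _ : Fin (m + 1) => V) (V →ₗ[ℤ] ℚ))
    (s s' v v' : V) (hs : Tors (s - s')) (hv : Tors (v - v')) :
    Q (fun _ => s) v = Q (fun _ => s') v' := by
  have h := map_eq_of_tors (P1 Q) (Fin.cons v (fun _ => s)) (Fin.cons v' (fun _ => s'))
    (by
      intro i
      induction i using Fin.cases with
      | zero => simpa using hv
      | succ j => simpa using hs)
  rw [P1_apply, P1_apply] at h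
  simp only [Fin.tail_cons, Fin.cons_zero] at h
  exact_mod_cast h

lemma step_abs (x y : V) (f : W →ₗ[ℤ] V) (b : ℤ) (D1 D2 : W) (h1 : Tors (x - f D1))
    (h2 : Tors (y - f D2)) : Tors (b • x + y - f (b • D1 + D2)) := by
  have h3 := (h1.zsmul b).add h2
  convert h3 using 1
  rw [map_add, map_zsmul, smul_sub]
  abel

lemma zsmul_sum_abs {α : Type} (s : Finset α) (n : ℤ) (g : α → ℤ) (x : α → V) :
    ∑ a ∈ s, (n * g a) • x a = n • ∑ a ∈ s, g a • x a := by
  rw [Finset.smul_sum]
  apply Finset.sum_congr rfl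
  intro a _
  rw [mul_smul]

end abs

section rat

variable {k : Type} [Field k]

lemma D_zsmul (n : ℤ) (g : k →₀ ℤ) : D (n • g) = n • D g := by
  unfold D
  rw [Finsupp.sum_smul_index (by simp), Finsupp.sum, Finsupp.sum]
  exact zsmul_sum_abs _ _ _ _

/-- degree -/
noncomputable def dg (g : k →₀ ℤ) : ℤ := g.sum (fun _ n => n)

omit [Field k] in
lemma dg_add (g h : k →₀ ℤ) : dg (g + h) = dg g + dg h := by
  classical
  unfold dg
  rw [Finsupp.sum_add_index'] <;> simp

omit [Field k] in
lemma dg_zsmul (n : ℤ) (g : k →₀ ℤ) : dg (n • g) = n * dg g := by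
  unfold dg
  rw [Finsupp.sum_smul_index (by simp), Finsupp.sum, Finsupp.sum, Finset.mul_sum]

omit [Field k] in
lemma dg_single (a : k) (n : ℤ) : dg (Finsupp.single a n) = n := by
  unfold dg
  rw [Finsupp.sum_single_index] ; rfl

lemma sig_inj [IsAlgClosed k] (c : k) :
    Function.Injective (eval₂RingHom (RatFunc.C (K := k)) ((xx c)⁻¹)) := by
  classical
  rw [injective_iff_map_eq_zero]
  intro P hP
  by_contra hP0
  have h1 := (IsAlgClosed.splits P).eq_prod_roots
  rw [h1, map_mul] at hP
  have h2 : (eval₂RingHom (RatFunc.C (K := k)) ((xx c)⁻¹)) (C P.leadingCoeff) ≠ 0 := by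
    simp [hP0]
  have h3 := (mul_eq_zero.1 hP).resolve_left h2
  rw [map_multiset_prod, Multiset.prod_eq_zero_iff] at h3
  rw [Multiset.map_map, Multiset.mem_map] at h3
  obtain ⟨a, -, ha⟩ := h3
  simp only [Function.comp_apply, coe_eval₂RingHom, eval₂_sub, eval₂_X, eval₂_C] at ha
  have h4 : (xx c) * RatFunc.C a = 1 := by
    rw [← sub_eq_zero.1 ha, mul_inv_cancel₀ (xx_ne_zero c)]
  rw [xx_eq, ← RatFunc.algebraMap_C, ← map_mul, ← map_one (algebraMap k[X] (RatFunc k))] at h4
  have h5 := RatFunc.algebraMap_injective k h4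
  have ha0 : a ≠ 0 := by
    rintro rfl
    simp at h5
  have h6 := congrArg natDegree h5
  rw [natDegree_mul_C ha0, natDegree_X_sub_C, natDegree_one] at h6
  exact one_ne_zero h6

/-- the automorphism `x ↦ 1/(x-c)` (only used as a hom) -/
noncomputable def sig [IsAlgClosed k] (c : k) : RatFunc k →+* RatFunc k :=
  IsFractionRing.lift (A := k[X]) (K := RatFunc k) (sig_inj c)

lemma sig_xx [IsAlgClosed k] (c a : k) : sig c (xx a) = (xx c)⁻¹ - RatFunc.C a := by
  rw [xx_eq]
  unfold sig
  rw [IsFractionRing.lift_algebraMap]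
  simp

lemma sig_key [IsAlgClosed k] (hk : ConstTors k) (c a : k) (hac : a ≠ c) :
    Tors (cl (xx a) - clMap (sig c) (D (Finsupp.single (1 / (a - c)) 1 - Finsupp.single 0 1))) := by
  have h1 : RatFunc.C (c - a) * sig c (xx (1 / (a - c))) / sig c (xx 0) = xx a := by
    rw [sig_xx, sig_xx, map_zero, sub_zero]
    have hx : xx c ≠ 0 := xx_ne_zero c
    have h2 : RatFunc.C (c - a) * RatFunc.C (1 / (a - c)) = -1 := by
      rw [← map_mul]
      have : (c - a) * (1 / (a - c)) = -1 := by
        have : a - c ≠ 0 := sub_ne_zero.2 hac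
        field_simp
        ring
      rw [this, map_neg, map_one]
    have h3 : xx a = xx c + RatFunc.C (c - a) := by
      unfold xx; rw [map_sub]; ring
    rw [div_inv_eq_mul, h3]
    have h4 : (xx c)⁻¹ * xx c = 1 := inv_mul_cancel₀ hx
    linear_combination (RatFunc.C (c - a)) * h4 - (xx c) * h2
  have hs : ∀ b, sig c (xx b) ≠ 0 := fun b => by
    rw [Ne, map_eq_zero]; exact xx_ne_zero b
  have hC : RatFunc.C (c - a) ≠ 0 := by
    rw [Ne, map_eq_zero]; exact sub_ne_zero.2 hac.symm
  rw [← h1, cl_div (mul_ne_zero hC (hs _)) (hs 0), cl_mul hC (hs _), sub_eq_add_neg (Finsupp.single _ _),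
    D_add, D_neg, D_single, D_single, map_add, map_neg, clMap_cl, clMap_cl]
  have h5 := tors_C hk (c - a) (sub_ne_zero.2 hac.symm)
  convert h5 using 1
  abel

lemma transfer [IsAlgClosed k] (hk : ConstTors k) (c : k) (g : k →₀ ℤ) :
    c ∉ g.support → ∃ g' : k →₀ ℤ, dg g' = 0 ∧ Tors (D g - clMap (sig c) (D g')) := by
  classical
  induction g using Finsupp.induction with
  | zero => 
    intro _
    exact ⟨0, by simp [dg], by simpa [D_zero] using Tors.zero⟩
  | single_add a b f ha hb ih =>
    intro hc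
    have hs : (Finsupp.single a b + f).support = Finset.cons a f.support ha :=
      Finsupp.support_single_add ha hb
    rw [hs, Finset.mem_cons, not_or] at hc
    obtain ⟨g', hg', ht⟩ := ih hc.2
    have hac : a ≠ c := fun h => hc.1 h.symm
    refine ⟨b • (Finsupp.single (1 / (a - c)) 1 - Finsupp.single 0 1) + g', ?_, ?_⟩
    · rw [dg_add, hg', dg_zsmul, sub_eq_add_neg, ← Finsupp.single_neg, dg_add, dg_single, dg_single]
      ring
    · have h1 : D (Finsupp.single a b + f) = b • cl (xx a) + D f := by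
        rw [D_add]
        congr 1
        have : Finsupp.single a b = b • Finsupp.single a (1 : ℤ) := by simp
        rw [this, D_zsmul, D_single]
      rw [h1, D_add, D_zsmul]
      exact step_abs _ _ (clMap (sig c)) b _ _ (sig_key hk c a hac) ht

end rat

end TaskB

open TaskB Polynomial in
/-- B. -/
theorem spanDual_of_FT (k : Type) [Field k] [IsAlgClosed k] (p : ℕ) [Fact p.Prime]
    [Algebra (ZMod p) k] [Algebra.IsAlgebraic (ZMod p) k] (m d : ℕ) (h : FT m d) :
    SpanDual (RatFunc k) m := by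
  classical
  -- finite subfields
  have hfin : ∀ S : Finset k, ∃ (K : Type) (_ : Field K) (_ : Fintype K) (ι : K →+* k),
      (∀ a ∈ S, ∃ b, ι b = a) ∧ S.card ≤ Fintype.card K := by
    intro S
    have hfd : FiniteDimensional (ZMod p) (IntermediateField.adjoin (ZMod p) (S : Set k)) :=
      IntermediateField.finiteDimensional_adjoin
        (fun x _ => (Algebra.IsAlgebraic.isAlgebraic x).isIntegral)
    have hF : Finite (IntermediateField.adjoin (ZMod p) (S : Set k)) :=
      Module.finite_of_finite (ZMod p)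
    let _ : Fintype (IntermediateField.adjoin (ZMod p) (S : Set k)) := Fintype.ofFinite _
    refine ⟨IntermediateField.adjoin (ZMod p) (S : Set k), inferInstance, inferInstance,
      algebraMap _ k, ?_, ?_⟩
    · intro a ha
      exact ⟨⟨a, IntermediateField.subset_adjoin _ _ ha⟩, rfl⟩
    · rw [← Fintype.card_coe S]
      exact Fintype.card_le_of_injective
        (fun a : S => (⟨a.1, IntermediateField.subset_adjoin _ _ a.2⟩ :
          IntermediateField.adjoin (ZMod p) (S : Set k)))
        (by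
          intro a b hab
          apply Subtype.ext
          exact congrArg (fun x : IntermediateField.adjoin (ZMod p) (S : Set k) => (x : k)) hab)
  have hk : ConstTors k := by
    intro c hc
    obtain ⟨K, _, _, ι, hι, -⟩ := hfin {c}
    obtain ⟨b, hb⟩ := hι c (by simp)
    have hb0 : b ≠ 0 := by
      rintro rfl
      exact hc (by rw [← hb, map_zero])
    have h1 : 0 < Fintype.card K - 1 := by
      have := Fintype.one_lt_card (α := K)
      omega
    exact ⟨Fintype.card K - 1, h1, by
      rw [← hb, ← map_pow, FiniteField.pow_card_sub_one_eq_one b hb0, map_one]⟩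
  obtain ⟨q0, hq0⟩ := h
  -- degree zero
  have hdeg : ∀ Q : MultilinearMap ℤ (fun _ : Fin (m + 1) => UV (RatFunc k))
      (UV (RatFunc k) →ₗ[ℤ] ℚ),
      (∀ f : RatFunc k, f ≠ 0 → f ≠ 1 → Q (fun _ => cl f) (cl (1 - f)) = 0) →
      ∀ g h : k →₀ ℤ, dg g = 0 → dg h = 0 → Q (fun _ => D g) (D h) = 0 := by
    intro Q hQ g h hg hh
    obtain ⟨S, hS, hScard⟩ := Infinite.exists_superset_card_eq (g.support ∪ h.support)
      (max (g.support ∪ h.support).card q0) (le_max_left _ _)
    obtain ⟨K, _, _, ι, hι, hcard⟩ := hfin S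
    exact deg_zero hk K ι (hq0 K (le_trans (by rw [hScard]; exact le_max_right _ _) hcard)) Q hQ g h
      (fun a ha => hι a (hS (Finset.mem_union_left _ ha)))
      (fun a ha => hι a (hS (Finset.mem_union_right _ ha))) hg hh
  intro Q hQ s v
  obtain ⟨g, hg⟩ := decomp hk s
  obtain ⟨h, hh⟩ := decomp hk v
  obtain ⟨c, hc⟩ := Infinite.exists_notMem_finset (g.support ∪ h.support)
  rw [Finset.mem_union, not_or] at hc
  obtain ⟨g', hg'0, hg'⟩ := transfer hk c g hc.1
  obtain ⟨h', hh'0, hh'⟩ := transfer hk c h hc.2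
  set Q' : MultilinearMap ℤ (fun _ : Fin (m + 1) => UV (RatFunc k)) (UV (RatFunc k) →ₗ[ℤ] ℚ) :=
    (LinearMap.lcomp ℤ ℚ (clMap (sig c))).compMultilinearMap
      (Q.compLinearMap (fun _ => clMap (sig c))) with hQ'
  have hQ'a : ∀ s v, Q' (fun _ => s) v = Q (fun _ => clMap (sig c) s) (clMap (sig c) v) :=
    fun s v => rfl
  have h1 := hdeg Q' (by
    intro f hf0 hf1
    rw [hQ'a, clMap_cl, clMap_cl, map_sub, map_one]
    apply hQ
    · rw [Ne, map_eq_zero]; exact hf0
    · intro h
      exact hf1 ((sig c).injective (by rw [h, map_one]))) g' h' hg'0 hh'0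
  rw [hQ'a] at h1
  rw [Q_eq_of_tors Q s (D g) v (D h) hg hh,
    Q_eq_of_tors Q _ _ _ _ hg' hh', h1]

end H39Gon
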