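import Pool.Agent.H39R2.Gon.Base

/-!
# Task B (part 1): multilinear generalities, classes of rational functions
-/

namespace H39Gon
namespace TaskB

open Polynomial

section general

variable {V : Type} [AddCommGroup V]

/-- torsion elements -/
def Tors (x : V) : Prop := ∃ N : ℕ, 0 < N ∧ N • x = 0

lemma Tors.add {x y : V} (hx : Tors x) (hy : Tors y) : Tors (x + y) := by
  obtain ⟨a, ha, hax⟩ := hx
  obtain ⟨b, hb, hby⟩ := hy
  refine ⟨a * b, Nat.mul_pos ha hb, ?_⟩
  rw [smul_add, mul_comm, mul_smul, hax, smul_zero, mul_comm, mul_smul, hby, smul_zero, add_zero]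

lemma Tors.neg {x : V} (hx : Tors x) : Tors (-x) := by
  obtain ⟨a, ha, hax⟩ := hx
  exact ⟨a, ha, by rw [smul_neg, hax, neg_zero]⟩

lemma Tors.sub {x y : V} (hx : Tors x) (hy : Tors y) : Tors (x - y) := by
  rw [sub_eq_add_neg]; exact hx.add hy.neg

lemma Tors.nsmul {x : V} (hx : Tors x) (n : ℕ) : Tors (n • x) := by
  obtain ⟨a, ha, hax⟩ := hx
  exact ⟨a, ha, by rw [smul_comm, hax, smul_zero]⟩

lemma Tors.zero : Tors (0 : V) := ⟨1, one_pos, by simp⟩

lemma map_zero_of_tors {n : ℕ} (P : MultilinearMap ℤ (fun _ : Fin n => V) ℝ) (w : Fin n → V)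
    (i : Fin n) (h : Tors (w i)) : P w = 0 := by
  obtain ⟨N, hN, hNw⟩ := h
  have h1 : P (Function.update w i ((N : ℤ) • w i)) = (N : ℤ) • P (Function.update w i (w i)) :=
    P.map_update_smul w i (N : ℤ) (w i)
  have h2 : ((N : ℤ) • w i) = 0 := by rw [natCast_zsmul]; exact hNw
  rw [h2, MultilinearMap.map_update_zero, Function.update_eq_self] at h1
  have h3 : (N : ℝ) * P w = 0 := by
    rw [← h1.symm]; simp
  rcases mul_eq_zero.1 h3 with h4 | h4
  · exfalso; have : (N : ℝ) ≠ 0 := by positivity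
    exact this h4
  · exact h4

lemma map_eq_of_tors {n : ℕ} (P : MultilinearMap ℤ (fun _ : Fin n => V) ℝ) (w w' : Fin n → V)
    (h : ∀ i, Tors (w i - w' i)) : P w = P w' := by
  have h1 : w = w' + (w - w') := by simp
  rw [h1, MultilinearMap.map_add_univ]
  rw [Finset.sum_eq_single (Finset.univ : Finset (Fin n))]
  · congr 1
    funext i; simp
  · intro s _ hs
    obtain ⟨i, hi⟩ : ∃ i, i ∉ s := by
      by_contra hcon
      push Not at hcon
      exact hs (Finset.eq_univ_iff_forall.2 hcon)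
    apply map_zero_of_tors P _ i
    rw [Finset.piecewise_eq_of_notMem _ _ _ hi]
    exact h i
  · intro h; exact absurd (Finset.mem_univ _) h

/-- `w ↦ Q (tail w) (w 0)` -/
noncomputable def P1 {m : ℕ} (Q : MultilinearMap ℤ (fun _ : Fin (m + 1) => V) (V →ₗ[ℤ] ℚ)) :
    MultilinearMap ℤ (fun _ : Fin (m + 2) => V) ℝ :=
  MultilinearMap.mk' (fun w => ((Q (Fin.tail w) (w 0) : ℚ) : ℝ))
    (by
      intro w i x y
      induction i using Fin.cases with
      | zero => simp
      | succ j =>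
        simp only [Fin.tail_update_succ]
        rw [Q.map_update_add]
        simp [LinearMap.add_apply, Function.update_of_ne (Fin.succ_ne_zero j).symm])
    (by
      intro w i c x
      induction i using Fin.cases with
      | zero => simp
      | succ j =>
        simp only [Fin.tail_update_succ]
        rw [Q.map_update_smul]
        simp [LinearMap.smul_apply, Function.update_of_ne (Fin.succ_ne_zero j).symm])

lemma P1_apply {m : ℕ} (Q : MultilinearMap ℤ (fun _ : Fin (m + 1) => V) (V →ₗ[ℤ] ℚ))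
    (w : Fin (m + 2) → V) : P1 Q w = ((Q (Fin.tail w) (w 0) : ℚ) : ℝ) := rfl

open Classical in
/-- symmetrisation in the last variables -/
noncomputable def PS {m : ℕ} (Q : MultilinearMap ℤ (fun _ : Fin (m + 1) => V) (V →ₗ[ℤ] ℚ)) :
    MultilinearMap ℤ (fun _ : Fin (m + 2) => V) ℝ :=
  ∑ σ ∈ (Finset.univ.filter (fun σ : Equiv.Perm (Fin (m + 2)) => σ 0 = 0)),
    (P1 Q).domDomCongr σ

open Classical in
lemma PS_apply {m : ℕ} (Q : MultilinearMap ℤ (fun _ : Fin (m + 1) => V) (V →ₗ[ℤ] ℚ))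
    (w : Fin (m + 2) → V) : PS Q w =
      ∑ σ ∈ (Finset.univ.filter (fun σ : Equiv.Perm (Fin (m + 2)) => σ 0 = 0)),
        P1 Q (w ∘ σ) := by
  unfold PS
  rw [sum_apply]
  rfl

lemma PS_symm {m : ℕ} (Q : MultilinearMap ℤ (fun _ : Fin (m + 1) => V) (V →ₗ[ℤ] ℚ))
    (w : Fin (m + 2) → V) (τ : Equiv.Perm (Fin (m + 2))) (hτ : τ 0 = 0) :
    PS Q (w ∘ τ) = PS Q w := by
  classical
  rw [PS_apply, PS_apply]
  apply Finset.sum_bij (fun σ _ => τ * σ)
  · intro σ hσ
    simp only [Finset.mem_filter, Finset.mem_univ, true_and] at hσ ⊢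
    rw [Equiv.Perm.mul_apply, hσ, hτ]
  · intro a _ b _ hab
    exact mul_left_cancel hab
  · intro σ hσ
    simp only [Finset.mem_filter, Finset.mem_univ, true_and] at hσ
    refine ⟨τ⁻¹ * σ, ?_, by simp⟩
    simp only [Finset.mem_filter, Finset.mem_univ, true_and, Equiv.Perm.mul_apply, hσ]
    rw [Equiv.Perm.inv_eq_iff_eq, hτ]
  · intro σ _
    rfl

lemma PS_diag {m : ℕ} (Q : MultilinearMap ℤ (fun _ : Fin (m + 1) => V) (V →ₗ[ℤ] ℚ))
    (s v : V) : ∃ c : ℝ, c ≠ 0 ∧
      PS Q (Fin.cons v (fun _ => s) : Fin (m + 2) → V) = c * ((Q (fun _ => s) v : ℚ) : ℝ) := by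
  classical
  refine ⟨((Finset.univ.filter (fun σ : Equiv.Perm (Fin (m + 2)) => σ 0 = 0)).card : ℝ), ?_, ?_⟩
  · have : (1 : Equiv.Perm (Fin (m + 2))) ∈
        (Finset.univ.filter (fun σ : Equiv.Perm (Fin (m + 2)) => σ 0 = 0)) := by simp
    have h2 := Finset.card_pos.2 ⟨_, this⟩
    positivity
  · rw [PS_apply]
    rw [Finset.sum_congr rfl (g := fun _ => ((Q (fun _ => s) v : ℚ) : ℝ))]
    · rw [Finset.sum_const, nsmul_eq_mul]
    · intro σ hσ
      simp only [Finset.mem_filter, Finset.mem_univ, true_and] at hσ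
      have hw : (Fin.cons v (fun _ => s) : Fin (m + 2) → V) ∘ σ = Fin.cons v (fun _ => s) := by
        funext i
        induction i using Fin.cases with
        | zero => simp [hσ]
        | succ j =>
          have h1 : σ j.succ ≠ 0 := by
            intro h
            have : j.succ = 0 := σ.injective (by rw [h, hσ])
            exact Fin.succ_ne_zero j this
          obtain ⟨l, hl⟩ := Fin.exists_succ_eq.2 h1
          simp [← hl]
      rw [hw, P1_apply]
      simp [Fin.tail_cons]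

/-- expansion of a multilinear map -/
lemma map_lincomb {n : ℕ} {ι : Type} [Fintype ι] [DecidableEq ι]
    (P : MultilinearMap ℤ (fun _ : Fin n => V) ℝ) (g : Fin n → ι → ℤ) (x : ι → V) :
    P (fun i => ∑ a, g i a • x a) = ∑ r : Fin n → ι, (∏ i, (g i (r i) : ℝ)) * P (fun i => x (r i)) := by
  rw [MultilinearMap.map_sum]
  apply Finset.sum_congr rfl
  intro r _
  rw [MultilinearMap.map_smul_univ]
  simp

end general

end TaskB
end H39Gon
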