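import Pool.Agent.H39R2.Gon.B1

/-!
# Task B (part 2): classes of rational functions
-/

namespace H39Gon
namespace TaskB

open Polynomial

section cl

variable {F : Type} [Field F]

lemma cl_mul {x y : F} (hx : x ≠ 0) (hy : y ≠ 0) : cl (x * y) = cl x + cl y := by
  unfold cl
  rw [dif_neg hx, dif_neg hy, dif_neg (mul_ne_zero hx hy), ← ofMul_mul]
  congr 1
  ext; simp

lemma cl_one : cl (1 : F) = 0 := by
  have h := cl_mul (one_ne_zero (α := F)) (one_ne_zero (α := F))
  rw [mul_one] at h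
  exact left_eq_add.1 h |> fun h => h

lemma cl_inv {x : F} (hx : x ≠ 0) : cl x⁻¹ = - cl x := by
  have h := cl_mul hx (inv_ne_zero hx)
  rw [mul_inv_cancel₀ hx, cl_one] at h
  exact (neg_eq_of_add_eq_zero_right h.symm).symm

lemma cl_div {x y : F} (hx : x ≠ 0) (hy : y ≠ 0) : cl (x / y) = cl x - cl y := by
  rw [div_eq_mul_inv, cl_mul hx (inv_ne_zero hy), cl_inv hy, sub_eq_add_neg]

lemma cl_pow {x : F} (hx : x ≠ 0) (n : ℕ) : cl (x ^ n) = n • cl x := by
  induction n with
  | zero => simp [cl_one]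
  | succ n ih => rw [pow_succ, cl_mul (pow_ne_zero _ hx) hx, ih, succ_nsmul]

lemma cl_prod {ι : Type} (s : Finset ι) (f : ι → F) (h : ∀ i ∈ s, f i ≠ 0) :
    cl (∏ i ∈ s, f i) = ∑ i ∈ s, cl (f i) := by
  classical
  induction s using Finset.induction_on with
  | empty => simp [cl_one]
  | insert a s ha ih =>
    rw [Finset.prod_insert ha, Finset.sum_insert ha,
      cl_mul (h a (Finset.mem_insert_self _ _))
        (Finset.prod_ne_zero_iff.2 (fun i hi => h i (Finset.mem_insert_of_mem hi))),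
      ih (fun i hi => h i (Finset.mem_insert_of_mem hi))]

lemma exists_cl (u : UV F) : ∃ f : F, f ≠ 0 ∧ u = cl f := by
  refine ⟨(Additive.toMul u : Fˣ), Units.ne_zero _, ?_⟩
  unfold cl
  rw [dif_neg (Units.ne_zero _)]
  simp

lemma tors_of_pow {x : F} (n : ℕ) (hn : 0 < n) (h : x ^ n = 1) : Tors (cl x) := by
  have hx : x ≠ 0 := by
    rintro rfl
    rw [zero_pow hn.ne'] at h
    exact zero_ne_one h
  refine ⟨n, hn, ?_⟩
  rw [← cl_pow hx, h, cl_one]

lemma tors_neg_one : Tors (cl (-1 : F)) := tors_of_pow 2 (by norm_num) (by simp)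

end cl

section rat

variable {k : Type} [Field k]

/-- `X - a` in `k(X)`. -/
noncomputable def xx (a : k) : RatFunc k := RatFunc.X - RatFunc.C a

lemma xx_eq (a : k) : xx a = algebraMap k[X] (RatFunc k) (X - C a) := by
  simp [xx]

lemma xx_ne_zero (a : k) : xx a ≠ 0 := by
  rw [xx_eq]
  exact RatFunc.algebraMap_ne_zero (X_sub_C_ne_zero a)

/-- the divisor map `g ↦ ∑ g(a) [X - a]` -/
noncomputable def D (g : k →₀ ℤ) : UV (RatFunc k) := g.sum (fun a n => n • cl (xx a))

lemma D_add (g h : k →₀ ℤ) : D (g + h) = D g + D h := by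
  classical
  unfold D
  rw [Finsupp.sum_add_index']
  · simp
  · intro a b c; exact add_zsmul _ _ _

lemma D_neg (g : k →₀ ℤ) : D (-g) = - D g := by
  unfold D
  rw [Finsupp.sum_neg_index]
  · rw [Finsupp.sum, Finsupp.sum, ← Finset.sum_neg_distrib]
    simp
  · simp

lemma D_single (a : k) : D (Finsupp.single a 1) = cl (xx a) := by
  unfold D
  rw [Finsupp.sum_single_index] <;> simp

lemma D_zero : D (0 : k →₀ ℤ) = 0 := by simp [D]

/-- constants are torsion -/
def ConstTors (k : Type) [Field k] : Prop := ∀ c : k, c ≠ 0 → ∃ n : ℕ, 0 < n ∧ c ^ n = 1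

lemma tors_C (hk : ConstTors k) (c : k) (hc : c ≠ 0) : Tors (cl (RatFunc.C c)) := by
  obtain ⟨n, hn, h⟩ := hk c hc
  refine tors_of_pow n hn ?_
  rw [← map_pow, h, map_one]

lemma decomp_poly [IsAlgClosed k] (hk : ConstTors k) (P : k[X]) (hP : P ≠ 0) :
    ∃ g : k →₀ ℤ, Tors (cl (algebraMap k[X] (RatFunc k) P) - D g) := by
  classical
  have h1 := (IsAlgClosed.splits P).eq_prod_roots
  have key : ∀ s : Multiset k, ∃ g : k →₀ ℤ,
      algebraMap k[X] (RatFunc k) (s.map (fun a => X - C a)).prod ≠ 0 ∧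
      cl (algebraMap k[X] (RatFunc k) (s.map (fun a => X - C a)).prod) = D g := by
    intro s
    induction s using Multiset.induction_on with
    | empty => exact ⟨0, by simp, by simp [D_zero, cl_one]⟩
    | cons a s ih =>
      obtain ⟨g, hg0, hg⟩ := ih
      have h2 : algebraMap k[X] (RatFunc k) (X - C a) ≠ 0 := by
        rw [← xx_eq]; exact xx_ne_zero a
      refine ⟨Finsupp.single a 1 + g, ?_, ?_⟩
      · rw [Multiset.map_cons, Multiset.prod_cons, map_mul]
        exact mul_ne_zero h2 hg0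
      · rw [Multiset.map_cons, Multiset.prod_cons, map_mul, cl_mul h2 hg0, hg, D_add, D_single,
          xx_eq]
  obtain ⟨g, hg0, hg⟩ := key P.roots
  refine ⟨g, ?_⟩
  have h3 : algebraMap k[X] (RatFunc k) P =
      RatFunc.C P.leadingCoeff * algebraMap k[X] (RatFunc k)
        (P.roots.map (fun a => X - C a)).prod := by
    conv_lhs => rw [h1]
    rw [map_mul, RatFunc.algebraMap_C]
  have h4 : P.leadingCoeff ≠ 0 := leadingCoeff_ne_zero.2 hP
  have h5 : RatFunc.C P.leadingCoeff ≠ 0 := by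
    rw [Ne, map_eq_zero]; exact h4
  rw [h3, cl_mul h5 hg0, hg, add_sub_cancel_right]
  exact tors_C hk _ h4

lemma decomp [IsAlgClosed k] (hk : ConstTors k) (u : UV (RatFunc k)) :
    ∃ g : k →₀ ℤ, Tors (u - D g) := by
  obtain ⟨f, hf, rfl⟩ := exists_cl u
  have h1 : f.num ≠ 0 := RatFunc.num_ne_zero hf
  have h2 : f.denom ≠ 0 := RatFunc.denom_ne_zero f
  obtain ⟨g1, hg1⟩ := decomp_poly hk f.num h1
  obtain ⟨g2, hg2⟩ := decomp_poly hk f.denom h2
  refine ⟨g1 + (-g2), ?_⟩
  have h3 : cl f = cl (algebraMap k[X] (RatFunc k) f.num) - cl (algebraMap k[X] (RatFunc k) f.denom) := by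
    rw [← cl_div (RatFunc.algebraMap_ne_zero h1) (RatFunc.algebraMap_ne_zero h2),
      RatFunc.num_div_denom]
  rw [h3, D_add, D_neg]
  have h4 := hg1.sub hg2
  convert h4 using 1
  abel

end rat

end TaskB
end H39Gon
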