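import Pool.Agent.H39R2.Gon.B2

/-!
# Task B (part 3): the finite field theorem gives the vanishing in degree 0
-/

namespace H39Gon
namespace TaskB

open Polynomial

variable {k : Type} [Field k]

/-- `m_a = q x_a - ∑_b x_b` -/
def mV {V K : Type} [AddCommGroup V] [Fintype K] (x : K → V) (a : K) : V :=
  (Fintype.card K) • x a - ∑ b : K, x b

section abs

variable {V K : Type} [AddCommGroup V] [Fintype K]

lemma sum_mV (x : K → V) : ∑ a : K, mV x a = 0 := by
  unfold mV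
  rw [Finset.sum_sub_distrib, ← Finset.smul_sum, Finset.sum_const, Finset.card_univ, sub_self]

lemma sum_mV_fin (x : K → V) {d : ℕ} (z : Fin d → K) :
    ∑ i, mV x (z i) = (Fintype.card K) • (∑ i, x (z i)) - d • ∑ b : K, x b := by
  unfold mV
  rw [Finset.sum_sub_distrib, ← Finset.smul_sum, Finset.sum_const, Finset.card_univ,
      Fintype.card_fin]

lemma smul_mV (x : K → V) (g : K → ℤ) (h : ∑ a, g a = 0) :
    (Fintype.card K) • ∑ a, g a • x a = ∑ a : K, g a • mV x a := by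
  have h1 : ∀ a : K, (Fintype.card K) • (g a • x a) =
      g a • mV x a + g a • ∑ b : K, x b := by
    intro a
    unfold mV
    rw [smul_sub, sub_add_cancel, smul_comm]
  rw [Finset.smul_sum]
  simp only [h1]
  rw [Finset.sum_add_distrib, ← Finset.sum_smul, h, zero_smul, add_zero]

lemma abs_tors (q d : ℕ) (t c1 c2 s1 s2 b : V) (h : Tors (t + c1 - c2)) :
    Tors (q • (t + (c1 + s1) - (c2 + s2)) - ((q • s1 - d • b) - (q • s2 - d • b))) := by
  have := h.nsmul q
  convert this using 1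
  simp only [smul_add, smul_sub]
  abel

end abs

/-- `m_a = q [X-a] - ∑_b [X-b]` -/
noncomputable def mm {K : Type} [Field K] [Fintype K] (ι : K →+* k) (a : K) : UV (RatFunc k) :=
  mV (fun b => cl (xx (ι b))) a

lemma sum_mm {K : Type} [Field K] [Fintype K] (ι : K →+* k) : ∑ a : K, mm ι a = 0 :=
  sum_mV _

lemma tors_aux {K : Type} [Field K] [Fintype K] (hk : ConstTors k) (ι : K →+* k) {d : ℕ}
    (z : Fin 3 × Fin d → K) (l : Fin 3 → Kˣ) (X Y : Fin 3) :
    Tors ((Fintype.card K) • cl (-(RatFunc.C (ι (l X)) * ∏ i, xx (ι (z (X, i)))) /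
      (RatFunc.C (ι (l Y)) * ∏ i, xx (ι (z (Y, i))))) -
      (∑ i, mm ι (z (X, i)) - ∑ i, mm ι (z (Y, i)))) := by
  have hC : ∀ X, (ι (l X : K)) ≠ 0 := fun X => by
    rw [Ne, map_eq_zero]; exact Units.ne_zero _
  have hC' : ∀ X, RatFunc.C (ι (l X : K)) ≠ 0 := fun X => by
    rw [Ne, map_eq_zero]; exact hC X
  have hp : ∀ X, ∏ i : Fin d, xx (ι (z (X, i))) ≠ 0 := fun X =>
    Finset.prod_ne_zero_iff.2 (fun i _ => xx_ne_zero _)
  have hA : ∀ X, RatFunc.C (ι (l X : K)) * ∏ i, xx (ι (z (X, i))) ≠ 0 := fun X =>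
    mul_ne_zero (hC' X) (hp X)
  have h1 : ∀ X, cl (RatFunc.C (ι (l X : K)) * ∏ i, xx (ι (z (X, i)))) =
      cl (RatFunc.C (ι (l X : K))) + ∑ i, cl (xx (ι (z (X, i)))) := fun X => by
    rw [cl_mul (hC' X) (hp X), cl_prod _ _ (fun i _ => xx_ne_zero _)]
  have h2 : cl (-(RatFunc.C (ι (l X : K)) * ∏ i, xx (ι (z (X, i)))) /
      (RatFunc.C (ι (l Y : K)) * ∏ i, xx (ι (z (Y, i))))) =
      cl (-1 : RatFunc k) + (cl (RatFunc.C (ι (l X : K))) + ∑ i, cl (xx (ι (z (X, i)))))
       - (cl (RatFunc.C (ι (l Y : K))) + ∑ i, cl (xx (ι (z (Y, i))))) := by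
    rw [neg_div, ← neg_one_mul, cl_mul (by simp) (div_ne_zero (hA X) (hA Y)),
      cl_div (hA X) (hA Y), h1, h1]
    abel
  have h3 : ∀ X, ∑ i : Fin d, mm ι (z (X, i)) =
      (Fintype.card K) • (∑ i, cl (xx (ι (z (X, i))))) - d • ∑ b : K, cl (xx (ι b)) := fun X =>
    sum_mV_fin _ (fun i => z (X, i))
  rw [h2, h3, h3]
  exact abs_tors _ _ _ _ _ _ _ _
    ((tors_neg_one.add (tors_C hk _ (hC X))).sub (tors_C hk _ (hC Y)))

/-- integral versions of `c0`, `c1` -/
def c0z : Fin 3 → ℤ := ![0, 1, -1]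
/-- integral versions of `c0`, `c1` -/
def c1z : Fin 3 → ℤ := ![1, 0, -1]

lemma c0z_cast (X : Fin 3) : ((c0z X : ℤ) : ℝ) = c0 X := by
  fin_cases X <;> simp [c0z, c0]

lemma c1z_cast (X : Fin 3) : ((c1z X : ℤ) : ℝ) = c1 X := by
  fin_cases X <;> simp [c1z, c1]

lemma sum_c0z {V : Type} [AddCommGroup V] {d : ℕ} (g : Fin 3 × Fin d → V) :
    ∑ s : Fin 3 × Fin d, c0z s.1 • g s = ∑ i, g (1, i) - ∑ i, g (2, i) := by
  rw [Fintype.sum_prod_type, Fin.sum_univ_three]
  simp [c0z, sub_eq_add_neg]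

lemma sum_c1z {V : Type} [AddCommGroup V] {d : ℕ} (g : Fin 3 × Fin d → V) :
    ∑ s : Fin 3 × Fin d, c1z s.1 • g s = ∑ i, g (0, i) - ∑ i, g (2, i) := by
  rw [Fintype.sum_prod_type, Fin.sum_univ_three]
  simp [c1z, sub_eq_add_neg]

lemma core {m d : ℕ} (hk : ConstTors k) (K : Type) [Field K] [Fintype K] [DecidableEq K]
    (ι : K →+* k)
    (hFT : ∀ Φ : (Fin (m + 2) → K) → ℝ,
      (∀ (t : Fin (m + 2) → K) (i : Fin (m + 2)), ∑ x : K, Φ (Function.update t i x) = 0) →
      (∀ (σ : Equiv.Perm (Fin (m + 2))) (t : Fin (m + 2) → K), σ 0 = 0 → Φ (t ∘ σ) = Φ t) →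
      (∀ z : Fin 3 × Fin d → K,
        (∃ l : Fin 3 → Kˣ, ∑ X : Fin 3, C (l X : K) * ∏ i : Fin d, (Polynomial.X - C (z (X, i))) = 0) →
        ∑ j : Fin (m + 2) → Fin 3 × Fin d,
          c0 (j 0).1 * (∏ i : Fin (m + 1), c1 (j i.succ).1) * Φ (z ∘ j) = 0) →
      ∀ t, Φ t = 0)
    (Q : MultilinearMap ℤ (fun _ : Fin (m + 1) => UV (RatFunc k)) (UV (RatFunc k) →ₗ[ℤ] ℚ))
    (hQ : ∀ f : RatFunc k, f ≠ 0 → f ≠ 1 → Q (fun _ => cl f) (cl (1 - f)) = 0)
    (t : Fin (m + 2) → K) : PS Q (fun i => mm ι (t i)) = 0 := by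
  refine hFT (fun t => PS Q (fun i => mm ι (t i))) ?_ ?_ ?_ t
  · intro t i
    have h1 : ∀ x : K, (fun j => mm ι (Function.update t i x j)) =
        Function.update (fun j => mm ι (t j)) i (mm ι x) := by
      intro x
      funext j
      by_cases hj : j = i
      · subst hj; simp
      · simp [Function.update_of_ne hj]
    simp only [h1]
    rw [← MultilinearMap.map_update_sum, sum_mm, MultilinearMap.map_update_zero]
  · intro σ t hσ
    exact PS_symm Q (fun i => mm ι (t i)) σ hσ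
  · rintro z ⟨l, hl⟩
    set A : Fin 3 → RatFunc k := fun X => RatFunc.C (ι (l X : K)) * ∏ i, xx (ι (z (X, i))) with hA
    have hA0 : ∀ X, A X ≠ 0 := fun X => by
      refine mul_ne_zero ?_ (Finset.prod_ne_zero_iff.2 (fun i _ => xx_ne_zero _))
      rw [Ne, map_eq_zero, map_eq_zero]
      exact Units.ne_zero _
    have hsum : A 0 + A 1 + A 2 = 0 := by
      have h1 := congrArg ((algebraMap k[X] (RatFunc k)).comp (mapRingHom ι)) hl
      rw [map_sum, map_zero, Fin.sum_univ_three] at h1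
      simp only [map_mul, map_prod, RingHom.comp_apply, coe_mapRingHom, Polynomial.map_sub,
        Polynomial.map_X, Polynomial.map_C, ← xx_eq, RatFunc.algebraMap_C] at h1
      exact h1
    set f : RatFunc k := -A 0 / A 2 with hf
    have hf0 : f ≠ 0 := div_ne_zero (neg_ne_zero.2 (hA0 0)) (hA0 2)
    have hf1 : 1 - f = - A 1 / A 2 := by
      rw [hf, eq_div_iff (hA0 2), sub_mul, div_mul_cancel₀ _ (hA0 2)]
      linear_combination hsum
    have hf2 : f ≠ 1 := by
      intro h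
      rw [h, sub_self] at hf1
      exact (div_ne_zero (neg_ne_zero.2 (hA0 1)) (hA0 2)) hf1.symm
    have hq := hQ f hf0 hf2
    have e1 : PS Q (Fin.cons ((Fintype.card K) • cl (1 - f))
        (fun _ => (Fintype.card K) • cl f) : Fin (m + 2) → UV (RatFunc k)) = 0 := by
      obtain ⟨c, -, hc⟩ := PS_diag Q ((Fintype.card K) • cl f) ((Fintype.card K) • cl (1 - f))
      rw [hc]
      have h2 : Q (fun _ => (Fintype.card K) • cl f) =
          (∏ _i : Fin (m + 1), (Fintype.card K : ℤ)) • Q (fun _ => cl f) := by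
        rw [← MultilinearMap.map_smul_univ]
        simp
      rw [h2, LinearMap.smul_apply, map_nsmul, hq]
      simp
    set G : Fin (m + 2) → (Fin 3 × Fin d → ℤ) :=
      Fin.cons (fun s => c0z s.1) (fun _ s => c1z s.1) with hG
    have e2 : PS Q (Fin.cons ((Fintype.card K) • cl (1 - f))
        (fun _ => (Fintype.card K) • cl f) : Fin (m + 2) → UV (RatFunc k)) =
        PS Q (fun i => ∑ s, G i s • mm ι (z s)) := by
      apply map_eq_of_tors
      intro i
      induction i using Fin.cases with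
      | zero =>
        simp only [Fin.cons_zero, hG]
        rw [sum_c0z, hf1]
        exact tors_aux hk ι z l 1 2
      | succ j =>
        simp only [Fin.cons_succ, hG]
        rw [sum_c1z, hf]
        exact tors_aux hk ι z l 0 2
    rw [e2, map_lincomb] at e1
    rw [← e1]
    apply Finset.sum_congr rfl
    intro r _
    rw [Fin.prod_univ_succ (fun i => (G i (r i) : ℝ))]
    simp only [hG, Fin.cons_zero, Fin.cons_succ, c0z_cast, c1z_cast]
    rfl

lemma D_eq {K : Type} [Field K] [Fintype K] [DecidableEq K] (ι : K →+* k) (g : k →₀ ℤ)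
    (hg : ∀ a ∈ g.support, ∃ b, ι b = a) : D g = ∑ a : K, g (ι a) • cl (xx (ι a)) := by
  classical
  unfold D
  rw [Finsupp.sum_of_support_subset g (s := Finset.univ.map ⟨ι, ι.injective⟩) _ _ (by simp)]
  · rw [Finset.sum_map]
    rfl
  · intro a ha
    obtain ⟨b, hb⟩ := hg a ha
    simp only [Finset.mem_map, Finset.mem_univ, true_and, Function.Embedding.coeFn_mk]
    exact ⟨b, hb⟩

lemma sum_eq {K : Type} [Field K] [Fintype K] [DecidableEq K] (ι : K →+* k) (g : k →₀ ℤ)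
    (hg : ∀ a ∈ g.support, ∃ b, ι b = a) : g.sum (fun _ n => n) = ∑ a : K, g (ι a) := by
  classical
  rw [Finsupp.sum_of_support_subset g (s := Finset.univ.map ⟨ι, ι.injective⟩) _ _ (by simp)]
  · rw [Finset.sum_map]
    rfl
  · intro a ha
    obtain ⟨b, hb⟩ := hg a ha
    simp only [Finset.mem_map, Finset.mem_univ, true_and, Function.Embedding.coeFn_mk]
    exact ⟨b, hb⟩

lemma smul_D {K : Type} [Field K] [Fintype K] [DecidableEq K] (ι : K →+* k) (g : k →₀ ℤ)
    (hg : ∀ a ∈ g.support, ∃ b, ι b = a) (h0 : g.sum (fun _ n => n) = 0) :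
    (Fintype.card K) • D g = ∑ a : K, g (ι a) • mm ι a := by
  rw [D_eq ι g hg]
  exact smul_mV _ (fun a => g (ι a)) (by rw [← sum_eq ι g hg, h0])

lemma deg_zero {m d : ℕ} (hk : ConstTors k) (K : Type) [Field K] [Fintype K] [DecidableEq K]
    (ι : K →+* k)
    (hFT : ∀ Φ : (Fin (m + 2) → K) → ℝ,
      (∀ (t : Fin (m + 2) → K) (i : Fin (m + 2)), ∑ x : K, Φ (Function.update t i x) = 0) →
      (∀ (σ : Equiv.Perm (Fin (m + 2))) (t : Fin (m + 2) → K), σ 0 = 0 → Φ (t ∘ σ) = Φ t) →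
      (∀ z : Fin 3 × Fin d → K,
        (∃ l : Fin 3 → Kˣ, ∑ X : Fin 3, C (l X : K) * ∏ i : Fin d, (Polynomial.X - C (z (X, i))) = 0) →
        ∑ j : Fin (m + 2) → Fin 3 × Fin d,
          c0 (j 0).1 * (∏ i : Fin (m + 1), c1 (j i.succ).1) * Φ (z ∘ j) = 0) →
      ∀ t, Φ t = 0)
    (Q : MultilinearMap ℤ (fun _ : Fin (m + 1) => UV (RatFunc k)) (UV (RatFunc k) →ₗ[ℤ] ℚ))
    (hQ : ∀ f : RatFunc k, f ≠ 0 → f ≠ 1 → Q (fun _ => cl f) (cl (1 - f)) = 0)
    (g h : k →₀ ℤ) (hg : ∀ a ∈ g.support, ∃ b, ι b = a) (hh : ∀ a ∈ h.support, ∃ b, ι b = a)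
    (hg0 : g.sum (fun _ n => n) = 0) (hh0 : h.sum (fun _ n => n) = 0) :
    Q (fun _ => D g) (D h) = 0 := by
  have e1 : PS Q (Fin.cons ((Fintype.card K) • D h)
      (fun _ => (Fintype.card K) • D g) : Fin (m + 2) → UV (RatFunc k)) = 0 := by
    set G : Fin (m + 2) → (K → ℤ) :=
      Fin.cons (fun a => h (ι a)) (fun _ a => g (ι a)) with hG
    have h1 : (Fin.cons ((Fintype.card K) • D h)
      (fun _ => (Fintype.card K) • D g) : Fin (m + 2) → UV (RatFunc k)) =
        (fun i => ∑ a, G i a • mm ι a) := by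
      funext i
      induction i using Fin.cases with
      | zero => simp only [Fin.cons_zero, hG]; exact smul_D ι h hh hh0
      | succ j => simp only [Fin.cons_succ, hG]; exact smul_D ι g hg hg0
    rw [h1, map_lincomb]
    apply Finset.sum_eq_zero
    intro r _
    rw [core hk K ι hFT Q hQ r, mul_zero]
  obtain ⟨c, hc0, hc⟩ := PS_diag Q ((Fintype.card K) • D g) ((Fintype.card K) • D h)
  rw [hc] at e1
  have h2 : Q (fun _ => (Fintype.card K) • D g) =
      (∏ _i : Fin (m + 1), (Fintype.card K : ℤ)) • Q (fun _ => D g) := by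
    rw [← MultilinearMap.map_smul_univ]
    simp
  rw [h2, LinearMap.smul_apply, map_nsmul] at e1
  have h3 : (Fintype.card K : ℝ) ≠ 0 := by
    have := Fintype.card_pos (α := K)
    positivity
  have h4 := (mul_eq_zero.1 e1).resolve_left hc0
  have h5 : (∏ _i : Fin (m + 1), (Fintype.card K : ℤ)) • ((Fintype.card K) • (Q (fun _ => D g) (D h)))
    = 0 := by exact_mod_cast h4
  have h6 : (Fintype.card K : ℤ) ≠ 0 := by exact_mod_cast h3
  rw [smul_eq_zero, smul_eq_zero] at h5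
  rcases h5 with h5 | h5 | h5
  · exact absurd h5 (Finset.prod_ne_zero_iff.2 (fun _ _ => h6))
  · exact absurd h5 (by exact_mod_cast h6)
  · exact h5

end TaskB
end H39Gon
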