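import Pool.Agent.H39R2.Gon.Defs

/-!
# Auxiliary definitions for the proof that `Γ(k(x),n) ⊗ ℚ` is acyclic, `k = \bar F_p`
-/

namespace H39Gon

open scoped TensorProduct
open Polynomial

/-- coefficient of a slot in `div(1-f) = B - C`. -/
def c0 : Fin 3 → ℝ := ![0, 1, -1]
/-- coefficient of a slot in `div f = A - C`. -/
def c1 : Fin 3 → ℝ := ![1, 0, -1]

/-- FT: the finite field theorem. -/
def FT (m d : ℕ) : Prop :=
  ∃ q0 : ℕ, ∀ (K : Type) [Field K] [Fintype K] [DecidableEq K], q0 ≤ Fintype.card K →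
    ∀ Φ : (Fin (m + 2) → K) → ℝ,
      (∀ (t : Fin (m + 2) → K) (i : Fin (m + 2)), ∑ x : K, Φ (Function.update t i x) = 0) →
      (∀ (σ : Equiv.Perm (Fin (m + 2))) (t : Fin (m + 2) → K), σ 0 = 0 → Φ (t ∘ σ) = Φ t) →
      (∀ z : Fin 3 × Fin d → K,
        (∃ l : Fin 3 → Kˣ, ∑ X : Fin 3, C (l X : K) * ∏ i : Fin d, (Polynomial.X - C (z (X, i))) = 0) →
        ∑ j : Fin (m + 2) → Fin 3 × Fin d,
          c0 (j 0).1 * (∏ i : Fin (m + 1), c1 (j i.succ).1) * Φ (z ∘ j) = 0) →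
      ∀ t, Φ t = 0

/-- number of `(λ_A, λ_B, λ_C)` with `λ_A P_A + λ_B P_B + λ_C P_C = 0`,
`P_X = ∏_i (T - z(X,i))`. -/
noncomputable def Wt {K : Type} [Field K] {d : ℕ} (z : Fin 3 × Fin d → K) : ℝ :=
  (Nat.card {l : Fin 3 → Kˣ //
    ∑ X : Fin 3, C (l X : K) * ∏ i : Fin d, (Polynomial.X - C (z (X, i))) = 0} : ℝ)

/-- expected weight. -/
noncomputable def wbar (q d : ℕ) : ℝ := ((q : ℝ) - 1) ^ 3 / (q : ℝ) ^ (d + 1)

/-- Count theorem: the average of `W` over all `z'` with prescribed values on `T` is close to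
`wbar`, when the prescribed points in different groups are different. -/
def CountThm (N d : ℕ) : Prop :=
  ∀ ε : ℝ, 0 < ε → ∃ q0 : ℕ, ∀ (K : Type) [Field K] [Fintype K] [DecidableEq K],
    q0 ≤ Fintype.card K → ∀ T : Finset (Fin 3 × Fin d), T.card ≤ N →
    ∀ z : Fin 3 × Fin d → K, (∀ a ∈ T, ∀ b ∈ T, a.1 ≠ b.1 → z a ≠ z b) →
    |(∑ z' : Fin 3 × Fin d → K, Wt (T.piecewise z z')) / (Fintype.card K : ℝ) ^ (3 * d)
      - wbar (Fintype.card K) d| ≤ ε * wbar (Fintype.card K) d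

/-- SpanDual. -/
def SpanDual (F : Type) [Field F] (m : ℕ) : Prop :=
  ∀ Q : MultilinearMap ℤ (fun _ : Fin (m + 1) => UV F) (UV F →ₗ[ℤ] ℚ),
    (∀ f : F, f ≠ 0 → f ≠ 1 → Q (fun _ => cl f) (cl (1 - f)) = 0) →
    ∀ s v : UV F, Q (fun _ => s) v = 0

/-- the functional `{x} ↦ Ψ(1-x, x; x, …, x)`. -/
noncomputable def ev {F : Type} [Field F] {W : Type} [AddCommGroup W] {m : ℕ}
    (Ψ : UV F →ₗ[ℤ] UV F →ₗ[ℤ] MultilinearMap ℤ (fun _ : Fin m => UV F) W) : ZP F →ₗ[ℤ] W :=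
  Finsupp.linearCombination ℤ (fun x : P1 F => match x with
    | none => 0
    | some x => Ψ (cl (1 - x)) (cl x) (fun _ => cl x))

end H39Gon
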