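import Pool.Agent.H39R2.Gon.Base

/-!
# Task C2: the functionals `ev Ψ` kill the relations
-/

namespace H39Gon

open scoped TensorProduct
open Polynomial

namespace TC2

/-! ### basic facts on `cl` -/

lemma cl_zero {F : Type} [Field F] : cl (0 : F) = 0 := by simp [cl]

lemma cl_of_ne {F : Type} [Field F] {x : F} (h : x ≠ 0) :
    cl x = Additive.ofMul (Units.mk0 x h) := by simp [cl, h]

lemma cl_one {F : Type} [Field F] : cl (1 : F) = 0 := by
  rw [cl_of_ne one_ne_zero]
  have : Units.mk0 (1 : F) one_ne_zero = 1 := by ext; rfl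
  rw [this]; rfl

lemma cl_mul {F : Type} [Field F] {x y : F} (hx : x ≠ 0) (hy : y ≠ 0) :
    cl (x * y) = cl x + cl y := by
  rw [cl_of_ne hx, cl_of_ne hy, cl_of_ne (mul_ne_zero hx hy), ← ofMul_mul]
  congr 1
  ext; rfl

/-! ### the leading coefficient at `t₀` -/

/-- trailing coefficient of the Taylor expansion at `t₀` -/
noncomputable def tcHom {F : Type} [Field F] (t0 : F) : F[X] →*₀ F where
  toFun p := (taylor t0 p).trailingCoeff
  map_zero' := by simp
  map_one' := by
    rw [taylor_one]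
    unfold Polynomial.trailingCoeff
    simp
  map_mul' p q := by
    rw [taylor_mul, trailingCoeff_mul]

lemma tcHom_apply {F : Type} [Field F] (t0 : F) (p : F[X]) :
    tcHom t0 p = (taylor t0 p).trailingCoeff := rfl

lemma tcHom_of_eval {F : Type} [Field F] (t0 : F) {p : F[X]} (h : p.eval t0 ≠ 0) :
    tcHom t0 p = p.eval t0 := by
  rw [tcHom_apply, Polynomial.trailingCoeff]
  have h1 : (taylor t0 p).coeff 0 = p.eval t0 := taylor_coeff_zero t0 p
  have h2 : (taylor t0 p).natTrailingDegree = 0 := by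
    apply Nat.le_zero.1
    apply natTrailingDegree_le_of_ne_zero
    rw [h1]; exact h
  rw [h2, h1]

lemma tcHom_ne_zero {F : Type} [Field F] (t0 : F) {p : F[X]} (h : p ≠ 0) : tcHom t0 p ≠ 0 := by
  rw [tcHom_apply, Ne, trailingCoeff_eq_zero]
  intro hc
  apply h
  have := taylor_injective t0
  exact this (by rw [hc, map_zero])

/-- leading coefficient at `t₀` of a rational function -/
noncomputable def lc0 {F : Type} [Field F] (t0 : F) : RatFunc F →*₀ F :=
  RatFunc.liftMonoidWithZeroHom (tcHom t0) (by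
    intro p hp
    rw [Submonoid.mem_comap]
    exact mem_nonZeroDivisors_of_ne_zero (tcHom_ne_zero t0 (nonZeroDivisors.ne_zero hp)))

lemma lc0_apply {F : Type} [Field F] (t0 : F) (f : RatFunc F) :
    lc0 t0 f = tcHom t0 f.num / tcHom t0 f.denom := by
  unfold lc0
  rw [RatFunc.liftMonoidWithZeroHom_apply]

lemma lc0_div {F : Type} [Field F] (t0 : F) (p q : F[X]) :
    lc0 t0 (algebraMap F[X] (RatFunc F) p / algebraMap F[X] (RatFunc F) q) =
      tcHom t0 p / tcHom t0 q := by
  unfold lc0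
  rw [RatFunc.liftMonoidWithZeroHom_apply_div]

/-- the same on unit groups, additively -/
noncomputable def LC {F : Type} [Field F] (t0 : F) : UV (RatFunc F) →ₗ[ℤ] UV F :=
  (MonoidHom.toAdditive (Units.map (lc0 t0 : RatFunc F →* F))).toIntLinearMap

lemma LC_cl {F : Type} [Field F] (t0 : F) (f : RatFunc F) : LC t0 (cl f) = cl (lc0 t0 f) := by
  by_cases h : f = 0
  · subst h; rw [map_zero, cl_zero, cl_zero, map_zero]
  · have h' : lc0 t0 f ≠ 0 := by
      rw [Ne, map_eq_zero]; exact h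
    rw [cl_of_ne h, cl_of_ne h']
    unfold LC
    rw [AddMonoidHom.coe_toIntLinearMap]
    show Additive.ofMul (Units.map (lc0 t0 : RatFunc F →* F) (Units.mk0 f h)) = _
    congr 1
    ext; rfl

/-! ### comparison with the specialisation -/

lemma one_sub_eq {F : Type} [Field F] (f : RatFunc F) :
    1 - f = algebraMap F[X] (RatFunc F) (f.denom - f.num) /
      algebraMap F[X] (RatFunc F) f.denom := by
  have h : algebraMap F[X] (RatFunc F) f.denom ≠ 0 := by
    rw [Ne, FaithfulSMul.algebraMap_eq_zero_iff]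
    exact RatFunc.denom_ne_zero f
  rw [map_sub, sub_div, div_self h, RatFunc.num_div_denom]

lemma eval_ne_of_coprime {F : Type} [Field F] (f : RatFunc F) (t0 : F)
    (h : f.denom.eval t0 = 0) : f.num.eval t0 ≠ 0 := by
  intro hc
  obtain ⟨a, b, hab⟩ := RatFunc.isCoprime_num_denom f
  have := congrArg (Polynomial.eval t0) hab
  rw [eval_add, eval_mul, eval_mul, h, hc, eval_one] at this
  simp at this

/-- a `2`-torsion element of a `ℚ`-vector space is zero -/
lemma two_torsion {W : Type} [AddCommGroup W] [Module ℚ W] {x : W} (h : x + x = 0) : x = 0 := by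
  have h1 : (2 : ℚ) • x = 0 := by rw [two_smul]; exact h
  exact (smul_eq_zero.1 h1).resolve_left two_ne_zero

/-- `Ψ` composed with the leading coefficient at `t₀`. -/
noncomputable def pull {F : Type} [Field F] {W : Type} [AddCommGroup W] {m : ℕ} (t0 : F)
    (Ψ : UV F →ₗ[ℤ] UV F →ₗ[ℤ] MultilinearMap ℤ (fun _ : Fin m => UV F) W) :
    UV (RatFunc F) →ₗ[ℤ] UV (RatFunc F) →ₗ[ℤ]
      MultilinearMap ℤ (fun _ : Fin m => UV (RatFunc F)) W :=
  LinearMap.mk₂ ℤ (fun a b => (Ψ (LC t0 a) (LC t0 b)).compLinearMap (fun _ => LC t0))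
    (by intro a a' b; ext c; simp)
    (by intro n a b; ext c; simp)
    (by intro a b b'; ext c; simp)
    (by intro n a b; ext c; simp)

lemma pull_apply {F : Type} [Field F] {W : Type} [AddCommGroup W] {m : ℕ} (t0 : F)
    (Ψ : UV F →ₗ[ℤ] UV F →ₗ[ℤ] MultilinearMap ℤ (fun _ : Fin m => UV F) W)
    (a b : UV (RatFunc F)) (c : Fin m → UV (RatFunc F)) :
    pull t0 Ψ a b c = Ψ (LC t0 a) (LC t0 b) (fun i => LC t0 (c i)) := rfl

lemma ev_single_some {F : Type} [Field F] {W : Type} [AddCommGroup W] {m : ℕ}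
    (Ψ : UV F →ₗ[ℤ] UV F →ₗ[ℤ] MultilinearMap ℤ (fun _ : Fin m => UV F) W) (x : F) (n : ℤ) :
    ev Ψ (Finsupp.single (some x) n) = n • Ψ (cl (1 - x)) (cl x) (fun _ => cl x) := by
  unfold ev
  rw [Finsupp.linearCombination_single]

lemma ev_single_none {F : Type} [Field F] {W : Type} [AddCommGroup W] {m : ℕ}
    (Ψ : UV F →ₗ[ℤ] UV F →ₗ[ℤ] MultilinearMap ℤ (fun _ : Fin m => UV F) W) (n : ℤ) :
    ev Ψ (Finsupp.single none n) = 0 := by
  unfold ev
  rw [Finsupp.linearCombination_single, smul_zero]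

lemma ev_pull {F : Type} [Field F] {W : Type} [AddCommGroup W] [Module ℚ W] {m : ℕ} (t0 : F)
    (Ψ : UV F →ₗ[ℤ] UV F →ₗ[ℤ] MultilinearMap ℤ (fun _ : Fin m => UV F) W)
    (hΨ : ∀ a, Ψ a a = 0) (α : ZP (RatFunc F)) :
    ev (pull t0 Ψ) α = ev Ψ (specZ F t0 α) := by
  suffices h : ev (pull t0 Ψ) = (ev Ψ) ∘ₗ (specZ F t0) by rw [h]; rfl
  refine Finsupp.lhom_ext fun x n => ?_
  rw [LinearMap.comp_apply]
  unfold specZ
  rw [Finsupp.lmapDomain_apply, Finsupp.mapDomain_single]
  cases x with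
  | none => rw [ev_single_none, show spec F t0 none = none from rfl, ev_single_none]
  | some f =>
    rw [ev_single_some, pull_apply, LC_cl, LC_cl]
    by_cases hd : f.denom.eval t0 = 0
    · have hs : spec F t0 (some f) = none := by simp [spec, hd]
      rw [hs, ev_single_none]
      have hn := eval_ne_of_coprime f t0 hd
      have hn' : (f.denom - f.num).eval t0 ≠ 0 := by
        rw [eval_sub, hd, zero_sub]; exact neg_ne_zero.2 hn
      have hdt : tcHom t0 f.denom ≠ 0 := tcHom_ne_zero t0 (RatFunc.denom_ne_zero f)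
      have h1 : lc0 t0 (1 - f) = (-1) * lc0 t0 f := by
        rw [one_sub_eq, lc0_div, lc0_apply, tcHom_of_eval t0 hn', tcHom_of_eval t0 hn, eval_sub, hd]
        ring
      have h2 : lc0 t0 f ≠ 0 := by
        rw [lc0_apply, tcHom_of_eval t0 hn]
        exact div_ne_zero hn hdt
      rw [h1, cl_mul (neg_ne_zero.2 one_ne_zero) h2, map_add, LinearMap.add_apply, hΨ, add_zero]
      have h3 : cl (-1 : F) + cl (-1 : F) = 0 := by
        rw [← cl_mul (neg_ne_zero.2 one_ne_zero) (neg_ne_zero.2 one_ne_zero)]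
        rw [neg_mul_neg, one_mul, cl_one]
      have h4 : Ψ (cl (-1)) (cl (lc0 t0 f)) (fun _ => cl (lc0 t0 f)) = 0 := by
        apply two_torsion
        rw [← add_apply, ← LinearMap.add_apply, ← map_add, h3]
        simp
      rw [h4, smul_zero]
    · have hs : spec F t0 (some f) = some (f.num.eval t0 / f.denom.eval t0) := by simp [spec, hd]
      rw [hs, ev_single_some]
      congr 1
      by_cases hn : f.num.eval t0 = 0
      · have h1 : lc0 t0 (1 - f) = 1 := by
          rw [one_sub_eq, lc0_div]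
          have hn' : (f.denom - f.num).eval t0 ≠ 0 := by
            rw [eval_sub, hn, sub_zero]; exact hd
          rw [tcHom_of_eval t0 hn', tcHom_of_eval t0 hd, eval_sub, hn, sub_zero, div_self hd]
        rw [h1, hn, zero_div, sub_zero, cl_one, map_zero]
        rfl
      · have h2 : lc0 t0 f = f.num.eval t0 / f.denom.eval t0 := by
          rw [lc0_apply, tcHom_of_eval t0 hn, tcHom_of_eval t0 hd]
        by_cases he : f.denom.eval t0 - f.num.eval t0 = 0
        · have h3 : f.num.eval t0 / f.denom.eval t0 = 1 := by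
            rw [← sub_eq_zero.1 he, div_self hd]
          rw [h2, h3, sub_self, cl_one, cl_zero, map_zero, map_zero]
        · have hn' : (f.denom - f.num).eval t0 ≠ 0 := by rwa [eval_sub]
          have h1 : lc0 t0 (1 - f) = 1 - f.num.eval t0 / f.denom.eval t0 := by
            rw [one_sub_eq, lc0_div, tcHom_of_eval t0 hn', tcHom_of_eval t0 hd, eval_sub,
              sub_div, div_self hd]
          rw [h1, h2]

lemma ev_relSpan {F : Type} [Field F] {W : Type} [AddCommGroup W] [Module ℚ W] {m : ℕ}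
    (Ψ : UV F →ₗ[ℤ] UV F →ₗ[ℤ] MultilinearMap ℤ (fun _ : Fin m => UV F) W)
    (hΨ : ∀ a, Ψ a a = 0) (A : Submodule ℤ (ZP (RatFunc F)))
    (hA : ∀ Ψ' : UV (RatFunc F) →ₗ[ℤ] UV (RatFunc F) →ₗ[ℤ]
      MultilinearMap ℤ (fun _ : Fin m => UV (RatFunc F)) W, (∀ a, Ψ' a a = 0) →
      ∀ α ∈ A, ev Ψ' α = 0) (r : ZP F) (hr : r ∈ relSpan F A) : ev Ψ r = 0 := by
  unfold relSpan at hr
  have hp : ∀ (t0 : F) (a : UV (RatFunc F)), pull t0 Ψ a a = 0 := by
    intro t0 a
    ext c
    rw [pull_apply, hΨ]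
    rfl
  induction hr using Submodule.span_induction with
  | mem x hx =>
    rcases hx with hx | hx
    · rcases hx with hx | hx
      · rw [hx, ev_single_some, sub_zero, cl_one, map_zero]
        simp
      · rw [Set.mem_singleton_iff] at hx
        rw [hx, ev_single_none]
    · obtain ⟨α, hα, rfl⟩ := hx
      rw [map_sub, ← ev_pull 0 Ψ hΨ, ← ev_pull 1 Ψ hΨ, hA _ (hp 0) α hα, hA _ (hp 1) α hα, sub_zero]
  | zero => exact map_zero _
  | add x y _ _ hx hy => rw [map_add, hx, hy, add_zero]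
  | smul n x _ hx => rw [map_smul, hx, smul_zero]

/-! ### factorisation through `δ₂` and `δ` -/

/-- the alternating map associated with `Ψ` when `m = 0` -/
noncomputable def alt2 {F : Type} [Field F] {W : Type} [AddCommGroup W]
    (Ψ : UV F →ₗ[ℤ] UV F →ₗ[ℤ] MultilinearMap ℤ (fun _ : Fin 0 => UV F) W)
    (hΨ : ∀ a, Ψ a a = 0) : (UV F) [⋀^Fin 2]→ₗ[ℤ] W :=
  { MultilinearMap.mk' (R := ℤ) (M₁ := fun _ : Fin 2 => UV F)
      (fun z => Ψ (z 0) (z 1) (fun i => i.elim0))
      (by
        intro z i x y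
        fin_cases i <;> simp)
      (by
        intro z i c x
        fin_cases i <;> simp) with
    map_eq_zero_of_eq' := by
      intro z i j hz hij
      have h01 : z 0 = z 1 := by
        fin_cases i <;> fin_cases j <;> simp_all
      show Ψ (z 0) (z 1) (fun i => i.elim0) = 0
      rw [h01, hΨ]
      rfl }

lemma ev_ker_delta2 {F : Type} [Field F] {W : Type} [AddCommGroup W]
    (Ψ : UV F →ₗ[ℤ] UV F →ₗ[ℤ] MultilinearMap ℤ (fun _ : Fin 0 => UV F) W)
    (hΨ : ∀ a, Ψ a a = 0) (α : ZP F) (hα : α ∈ LinearMap.ker (delta2 F)) : ev Ψ α = 0 := by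
  have h : ev Ψ = (exteriorPower.alternatingMapLinearEquiv (alt2 Ψ hΨ)) ∘ₗ (delta2 F) := by
    refine Finsupp.lhom_ext fun x n => ?_
    rw [LinearMap.comp_apply]
    unfold delta2
    rw [Finsupp.linearCombination_single, map_smul]
    cases x with
    | none => rw [ev_single_none, map_zero, smul_zero]
    | some y =>
      rw [ev_single_some]
      congr 1
      rw [exteriorPower.alternatingMapLinearEquiv_apply_ιMulti]
      show _ = Ψ (cl (1 - y)) (cl y) (fun i => i.elim0)
      congr 1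
      funext i
      exact i.elim0
  rw [h, LinearMap.comp_apply, LinearMap.mem_ker.1 hα, map_zero]

/-- move the last variable to the coefficients -/
noncomputable def cur {F : Type} [Field F] {W : Type} [AddCommGroup W] {m : ℕ}
    (Ψ : UV F →ₗ[ℤ] UV F →ₗ[ℤ] MultilinearMap ℤ (fun _ : Fin (m + 1) => UV F) W) :
    UV F →ₗ[ℤ] UV F →ₗ[ℤ] MultilinearMap ℤ (fun _ : Fin m => UV F) (UV F →ₗ[ℤ] W) :=
  LinearMap.mk₂ ℤ (fun a b => (Ψ a b).curryRight)
    (by intro a a' b; ext c v; simp)
    (by intro n a b; ext c v; simp)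
    (by intro a b b'; ext c v; simp)
    (by intro n a b; ext c v; simp)

lemma cur_apply {F : Type} [Field F] {W : Type} [AddCommGroup W] {m : ℕ}
    (Ψ : UV F →ₗ[ℤ] UV F →ₗ[ℤ] MultilinearMap ℤ (fun _ : Fin (m + 1) => UV F) W)
    (a b : UV F) (c : Fin m → UV F) (v : UV F) :
    cur Ψ a b c v = Ψ a b (Fin.snoc c v) := rfl

lemma ev_ker_deltaS {F : Type} [Field F] {W : Type} [AddCommGroup W] {m : ℕ}
    (Ψ : UV F →ₗ[ℤ] UV F →ₗ[ℤ] MultilinearMap ℤ (fun _ : Fin (m + 1) => UV F) W)
    (S : Submodule ℤ (ZP F)) (hS : ∀ r ∈ S, ev (cur Ψ) r = 0)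
    (α : ZP F) (hα : α ∈ LinearMap.ker (deltaS F S)) : ev Ψ α = 0 := by
  have hker : S ≤ LinearMap.ker (ev (cur Ψ)) := fun r hr => LinearMap.mem_ker.2 (hS r hr)
  have h : ∀ β, ev Ψ β = (TensorProduct.lift (S.liftQ (ev (cur Ψ)) hker)) (deltaS F S β) := by
    intro β
    induction β using Finsupp.induction_linear with
    | zero => rw [map_zero, map_zero, map_zero]
    | add f g hf hg => rw [map_add, map_add, map_add, hf, hg]
    | single x n =>
    unfold deltaS
    rw [Finsupp.linearCombination_single, map_zsmul]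
    cases x with
    | none => rw [ev_single_none, map_zero, smul_zero]
    | some y =>
      rw [ev_single_some]
      congr 1
      rw [TensorProduct.lift.tmul, Submodule.mkQ_apply, Submodule.liftQ_apply, ev_single_some,
        one_smul, cur_apply]
      congr 1
      funext i
      refine Fin.lastCases ?_ (fun i => ?_) i <;> simp
  rw [h, LinearMap.mem_ker.1 hα, map_zero]

end TC2

open TC2 in
/-- K: these functionals kill the relations (any field, `W` a `ℚ`-vector space). -/
theorem ev_R {F : Type} [Field F] {W : Type} [AddCommGroup W] [Module ℚ W] {m : ℕ}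
    (Ψ : UV F →ₗ[ℤ] UV F →ₗ[ℤ] MultilinearMap ℤ (fun _ : Fin m => UV F) W)
    (hΨ : ∀ a, Ψ a a = 0) (r : ZP F) (hr : r ∈ R (m + 2) F) : ev Ψ r = 0 := by
  revert F W
  induction m with
  | zero =>
    intro F _ W _ _ Ψ hΨ r hr
    exact ev_relSpan Ψ hΨ _ (fun Ψ' hΨ' α hα => ev_ker_delta2 Ψ' hΨ' α hα) r hr
  | succ m ih =>
    intro F _ W _ _ Ψ hΨ r hr
    refine ev_relSpan Ψ hΨ (LinearMap.ker (deltaS (RatFunc F) (R (m + 2) (RatFunc F)))) ?_ r hr
    intro Ψ' hΨ' α hα
    refine ev_ker_deltaS Ψ' (R (m + 2) (RatFunc F)) ?_ α hα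
    intro s hs
    refine ih (cur Ψ') ?_ s hs
    intro a
    ext c v
    rw [cur_apply, hΨ']
    rfl

end H39Gon
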