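import Pool.Agent.H39R2.Gon.Defs

/-!
# C3: the Frobenius relation `{y^p}_n = p^n {y}_n`
-/

namespace H39Gon

open scoped TensorProduct
open Polynomial

theorem C3_cl_pow {F : Type} [Field F] (x : F) (n : ℕ) : cl (x ^ n) = (n : ℤ) • cl x := by
  rcases eq_or_ne n 0 with rfl | hn
  · simp only [pow_zero, Nat.cast_zero, zero_smul]
    unfold cl
    rw [dif_neg one_ne_zero]
    apply Additive.toMul.injective
    apply Units.ext
    rfl
  by_cases hx : x = 0
  · subst hx
    rw [zero_pow hn]
    unfold cl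
    rw [dif_pos rfl, smul_zero]
  · unfold cl
    rw [dif_neg hx, dif_neg (pow_ne_zero n hx)]
    rw [natCast_zsmul]
    apply Additive.toMul.injective
    apply Units.ext
    simp

theorem C3_spec {F : Type} [Field F] (t0 : F) (P : F[X]) :
    spec F t0 (some (algebraMap F[X] (RatFunc F) P)) = some (P.eval t0) := by
  simp [spec]

/-- the element `y t` -/
noncomputable def C3_Y {F : Type} [Field F] (y : F) : RatFunc F :=
  algebraMap F[X] (RatFunc F) (C y * X)

theorem C3_rel {F : Type} [Field F] (p : ℕ) (hp : p ≠ 0) (N : ℤ) (y : F)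
    (A : Submodule ℤ (ZP (RatFunc F)))
    (h : Finsupp.single (some (C3_Y y ^ p)) 1 - N • Finsupp.single (some (C3_Y y)) 1 ∈ A) :
    Finsupp.single (some (y ^ p)) 1 - N • Finsupp.single (some y) 1 ∈ relSpan F A := by
  have hs : ∀ t0 : F, specZ F t0 (Finsupp.single (some (C3_Y y ^ p)) 1 -
      N • Finsupp.single (some (C3_Y y)) 1) =
      Finsupp.single (some ((y * t0) ^ p)) 1 - N • Finsupp.single (some (y * t0)) 1 := by
    intro t0
    rw [map_sub, map_smul]
    unfold specZ C3_Y
    rw [← map_pow]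
    simp only [Finsupp.lmapDomain_apply, Finsupp.mapDomain_single, C3_spec]
    simp
  have h1 : specZ F 0 (Finsupp.single (some (C3_Y y ^ p)) 1 -
      N • Finsupp.single (some (C3_Y y)) 1) - specZ F 1 (Finsupp.single (some (C3_Y y ^ p)) 1 -
      N • Finsupp.single (some (C3_Y y)) 1) ∈ relSpan F A :=
    Submodule.subset_span (Or.inr ⟨_, h, rfl⟩)
  rw [hs, hs, mul_zero, zero_pow hp, mul_one] at h1
  have h0 : Finsupp.single (some (0 : F)) (1 : ℤ) ∈ relSpan F A :=
    Submodule.subset_span (Or.inl (Or.inl rfl))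
  have h2 := Submodule.sub_mem _ (Submodule.sub_mem _ h0 (Submodule.smul_mem _ N h0)) h1
  convert h2 using 1
  abel

theorem C3_tmul {M N : Type} [AddCommGroup M] [AddCommGroup N] (a b : ℤ) (x : M) (y : N) :
    (a • x) ⊗ₜ[ℤ] (b • y) = (a * b) • (x ⊗ₜ[ℤ] y) := by
  rw [TensorProduct.smul_tmul_smul]

theorem C3_charP {F : Type} [Field F] (p : ℕ) [CharP F p] : CharP (RatFunc F) p :=
  charP_of_injective_algebraMap (algebraMap F (RatFunc F)).injective p

/-- Frobenius: `{y^p}_n = p^n {y}_n`. -/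
theorem frob {F : Type} [Field F] (p : ℕ) [Fact p.Prime] [CharP F p] (m : ℕ) (y : F) :
    Finsupp.single (some (y ^ p)) 1 - (p ^ (m + 2) : ℤ) • Finsupp.single (some y) 1 ∈ R (m + 2) F := by
  have hp : p ≠ 0 := (Fact.out : p.Prime).ne_zero
  induction m generalizing F with
  | zero =>
    change _ ∈ relSpan F (LinearMap.ker (delta2 (RatFunc F)))
    apply C3_rel p hp
    have : CharP (RatFunc F) p := C3_charP p
    rw [LinearMap.mem_ker, map_sub, map_smul]
    unfold delta2
    simp only [Finsupp.linearCombination_single, one_smul]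
    have h1 : (1 : RatFunc F) - C3_Y y ^ p = (1 - C3_Y y) ^ p := by
      rw [sub_pow_char, one_pow]
    rw [h1, C3_cl_pow, C3_cl_pow]
    have h2 : exteriorPower.ιMulti ℤ 2 ![(p : ℤ) • cl (1 - C3_Y y), (p : ℤ) • cl (C3_Y y)] =
        ((p : ℤ) ^ (0 + 2)) • exteriorPower.ιMulti ℤ 2 ![cl (1 - C3_Y y), cl (C3_Y y)] := by
      have h3 := (exteriorPower.ιMulti ℤ 2 (M := UV (RatFunc F))).toMultilinearMap.map_smul_univ
        (fun _ => (p : ℤ)) ![cl (1 - C3_Y y), cl (C3_Y y)]
      rw [Fin.prod_univ_two] at h3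
      have h4 : (fun i => (p : ℤ) • (![cl (1 - C3_Y y), cl (C3_Y y)] : Fin 2 → UV (RatFunc F)) i) =
          ![(p : ℤ) • cl (1 - C3_Y y), (p : ℤ) • cl (C3_Y y)] := by
        funext i
        fin_cases i <;> rfl
      rw [h4] at h3
      rw [zero_add, sq]
      exact h3
    rw [h2, sub_self]
  | succ m ih =>
    change _ ∈ relSpan F (LinearMap.ker (deltaS (RatFunc F) (R (m + 2) (RatFunc F))))
    apply C3_rel p hp
    have : CharP (RatFunc F) p := C3_charP p
    have h0 := ih (F := RatFunc F) (C3_Y y)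
    rw [← Submodule.ker_mkQ (R (m + 2) (RatFunc F)), LinearMap.mem_ker, map_sub, map_smul,
      sub_eq_zero] at h0
    rw [LinearMap.mem_ker, map_sub, map_smul]
    unfold deltaS
    simp only [Finsupp.linearCombination_single, one_smul]
    rw [C3_cl_pow, h0, sub_eq_zero]
    refine (C3_tmul _ _ _ _).trans ?_
    rw [← pow_succ]

end H39Gon
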