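import Pool.Agent.H39R2.Gon.Defs

set_option autoImplicit false

/-!
# Functoriality of Goncharov's relation groups (task C1)
-/

namespace H39Gon

open scoped TensorProduct nonZeroDivisors
open Polynomial

section rm

open Classical in
/-- value at `t0` computed from any coprime representation -/
theorem rm_spec_eq {F : Type} [Field F] (t0 : F) (a b : F[X]) (hb : b ≠ 0) (hab : IsCoprime a b)
    (f : RatFunc F) (hf : f = algebraMap F[X] (RatFunc F) a / algebraMap F[X] (RatFunc F) b) :
    spec F t0 (some f) = if b.eval t0 = 0 then none else some (a.eval t0 / b.eval t0) := by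
  have hd : f.denom ≠ 0 := f.denom_ne_zero
  have hA : Function.Injective (algebraMap F[X] (RatFunc F)) := IsFractionRing.injective _ _
  have h1 : f.num * b = a * f.denom := by
    apply hA
    have h2 := f.num_div_denom
    rw [map_mul, map_mul]
    have hb' : algebraMap F[X] (RatFunc F) b ≠ 0 := fun h => hb (hA (by rw [h, map_zero]))
    have hd' : algebraMap F[X] (RatFunc F) f.denom ≠ 0 := fun h => hd (hA (by rw [h, map_zero]))
    rw [hf] at h2
    rw [← hf] at h2
    have h3 : algebraMap F[X] (RatFunc F) f.num / algebraMap F[X] (RatFunc F) f.denom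
        = algebraMap F[X] (RatFunc F) a / algebraMap F[X] (RatFunc F) b := by rw [h2]; exact hf
    exact (div_eq_div_iff hd' hb').1 h3
  have hcop := f.isCoprime_num_denom
  have h4 : f.denom ∣ b := hcop.symm.dvd_of_dvd_mul_left ⟨a, by rw [h1]; ring⟩
  have h5 : b ∣ f.denom := hab.symm.dvd_of_dvd_mul_left ⟨f.num, by rw [← h1]; ring⟩
  obtain ⟨u, hu⟩ := associated_of_dvd_dvd h4 h5
  have hunum : a = f.num * (u : F[X]) := by
    have h6 : f.denom * a = f.denom * (f.num * (u : F[X])) := by
      rw [mul_comm, ← h1, ← hu]; ring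
    exact mul_left_cancel₀ hd h6
  have hu0 : (u : F[X]).eval t0 ≠ 0 := by
    obtain ⟨c, hc, hcu⟩ := Polynomial.isUnit_iff.1 u.isUnit
    rw [← hcu, Polynomial.eval_C]
    exact hc.ne_zero
  rw [← hu, hunum]
  simp only [spec, Polynomial.eval_mul, mul_eq_zero, hu0, or_false]
  split_ifs with h
  · rfl
  · rw [mul_div_mul_right _ _ hu0]

variable {F F' : Type} [Field F] [Field F']

theorem rm_nzd (φ : F →+* F') : F[X]⁰ ≤ (F'[X]⁰).comap (Polynomial.mapRingHom φ) := by
  intro p hp
  rw [Submonoid.mem_comap, mem_nonZeroDivisors_iff_ne_zero]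
  rw [mem_nonZeroDivisors_iff_ne_zero] at hp
  intro h
  exact hp ((Polynomial.map_eq_zero φ).1 h)

/-- the induced homomorphism of rational function fields -/
noncomputable def rmT (φ : F →+* F') : RatFunc F →+* RatFunc F' :=
  RatFunc.mapRingHom (Polynomial.mapRingHom φ) (rm_nzd φ)

theorem rmT_div (φ : F →+* F') (a b : F[X]) :
    rmT φ (algebraMap F[X] (RatFunc F) a / algebraMap F[X] (RatFunc F) b)
      = algebraMap F'[X] (RatFunc F') (a.map φ) / algebraMap F'[X] (RatFunc F') (b.map φ) :=
  RatFunc.map_apply_div (Polynomial.mapRingHom φ) (rm_nzd φ) a b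

theorem rm_eval (φ : F →+* F') (p : F[X]) (t0 : F) : (p.map φ).eval (φ t0) = φ (p.eval t0) := by
  rw [Polynomial.eval_map, Polynomial.eval₂_at_apply]

theorem rm_spec (φ : F →+* F') (t0 : F) (x : P1 (RatFunc F)) :
    spec F' (φ t0) (Option.map (rmT φ) x) = Option.map φ (spec F t0 x) := by
  cases x with
  | none => rfl
  | some f =>
    have h1 : rmT φ f = algebraMap F'[X] (RatFunc F') (f.num.map φ)
        / algebraMap F'[X] (RatFunc F') (f.denom.map φ) := by
      conv_lhs => rw [← f.num_div_denom]
      exact rmT_div φ _ _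
    have h2 := rm_spec_eq (φ t0) (f.num.map φ) (f.denom.map φ)
      (fun h => f.denom_ne_zero ((Polynomial.map_eq_zero φ).1 h))
      (f.isCoprime_num_denom.map (Polynomial.mapRingHom φ)) (rmT φ f) h1
    rw [Option.map_some, h2, rm_eval, rm_eval]
    by_cases h : f.denom.eval t0 = 0
    · rw [if_pos (by rw [h, map_zero]), spec, if_pos h, Option.map_none]
    · rw [if_neg (fun e => h ((map_eq_zero φ).1 e)), spec, if_neg h, Option.map_some, map_div₀]

/-- the induced map on `ℤ[P^1]` -/
noncomputable def rmM (φ : F →+* F') : ZP F →ₗ[ℤ] ZP F' := Finsupp.lmapDomain ℤ ℤ (Option.map φ)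

theorem rmM_single (φ : F →+* F') (x : P1 F) (c : ℤ) :
    rmM φ (Finsupp.single x c) = Finsupp.single (Option.map φ x) c := by
  simp [rmM, Finsupp.lmapDomain_apply, Finsupp.mapDomain_single]

theorem rm_specZ (φ : F →+* F') (t0 : F) (α : ZP (RatFunc F)) :
    specZ F' (φ t0) (rmM (rmT φ) α) = rmM φ (specZ F t0 α) := by
  have h : (specZ F' (φ t0)).comp (rmM (rmT φ)) = (rmM φ).comp (specZ F t0) := by
    apply Finsupp.lhom_ext'
    intro x
    apply LinearMap.ext_ring
    simp only [LinearMap.comp_apply, Finsupp.lsingle_apply, rmM_single, specZ,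
      Finsupp.lmapDomain_apply, Finsupp.mapDomain_single, rm_spec]
  exact congrArg (fun L => L α) h

theorem rm_relSpan (φ : F →+* F') (A : Submodule ℤ (ZP (RatFunc F)))
    (A' : Submodule ℤ (ZP (RatFunc F'))) (h : ∀ α ∈ A, rmM (rmT φ) α ∈ A') (r : ZP F)
    (hr : r ∈ relSpan F A) : rmM φ r ∈ relSpan F' A' := by
  have hle : relSpan F A ≤ (relSpan F' A').comap (rmM φ) := by
    unfold relSpan
    rw [Submodule.span_le]
    rintro β (hβ | ⟨α, hα, rfl⟩)
    · rw [SetLike.mem_coe, Submodule.mem_comap]
      rcases hβ with rfl | hβ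
      · rw [rmM_single, Option.map_some, map_zero]
        exact Submodule.subset_span (Or.inl (Or.inl rfl))
      · rw [Set.mem_singleton_iff] at hβ
        subst hβ
        rw [rmM_single, Option.map_none]
        exact Submodule.subset_span (Or.inl (Or.inr rfl))
    · rw [SetLike.mem_coe, Submodule.mem_comap, map_sub, ← rm_specZ, ← rm_specZ, map_zero, map_one]
      exact Submodule.subset_span (Or.inr ⟨_, h α hα, rfl⟩)
  exact hle hr

/-- the induced map on units -/
noncomputable def rmU (φ : F →+* F') : UV F →ₗ[ℤ] UV F' :=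
  (MonoidHom.toAdditive (Units.map (φ : F →* F'))).toIntLinearMap

theorem rmU_cl (φ : F →+* F') (x : F) : rmU φ (cl x) = cl (φ x) := by
  by_cases h : x = 0
  · subst h
    simp [cl]
  · have h' : φ x ≠ 0 := fun e => h ((map_eq_zero φ).1 e)
    rw [cl, dif_neg h, cl, dif_neg h']
    show Additive.ofMul (Units.map (φ : F →* F') (Units.mk0 x h)) = _
    congr 1
    ext
    rfl

theorem rm_delta2 (φ : F →+* F') (α : ZP F) :
    delta2 F' (rmM φ α) = exteriorPower.map 2 (rmU φ) (delta2 F α) := by
  have h : (delta2 F').comp (rmM φ) = (exteriorPower.map 2 (rmU φ)).comp (delta2 F) := by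
    apply Finsupp.lhom_ext'
    intro x
    apply LinearMap.ext_ring
    simp only [LinearMap.comp_apply, Finsupp.lsingle_apply, rmM_single, delta2,
      Finsupp.linearCombination_single, one_smul]
    cases x with
    | none => simp
    | some x =>
      simp only [Option.map_some]
      rw [exteriorPower.map_apply_ιMulti]
      congr 1
      funext i
      fin_cases i
      · simp [rmU_cl]
      · simp [rmU_cl]
  exact congrArg (fun L => L α) h

theorem rm_deltaS_none (S : Submodule ℤ (ZP F)) (c : ℤ) :
    deltaS F S (Finsupp.single none c) = 0 := by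
  rw [deltaS, Finsupp.linearCombination_single, smul_zero]

theorem rm_deltaS_some (S : Submodule ℤ (ZP F)) (y : F) (c : ℤ) :
    deltaS F S (Finsupp.single (some y) c)
      = c • ((S.mkQ (Finsupp.single (some y) 1)) ⊗ₜ[ℤ] cl y) := by
  rw [deltaS, Finsupp.linearCombination_single]

theorem rm_deltaS (φ : F →+* F') (S : Submodule ℤ (ZP F)) (S' : Submodule ℤ (ZP F'))
    (hS : S ≤ S'.comap (rmM φ)) (α : ZP F) :
    deltaS F' S' (rmM φ α)
      = TensorProduct.map (Submodule.mapQ S S' (rmM φ) hS) (rmU φ) (deltaS F S α) := by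
  induction α using Finsupp.induction_linear with
  | zero => rw [map_zero, map_zero, map_zero, map_zero]
  | add a b ha hb => rw [map_add, map_add, map_add, map_add, ha, hb]
  | single x c =>
    rw [rmM_single]
    cases x with
    | none => rw [Option.map_none, rm_deltaS_none, rm_deltaS_none, map_zero]
    | some x =>
      rw [Option.map_some, rm_deltaS_some, rm_deltaS_some, map_zsmul, TensorProduct.map_tmul,
        Submodule.mkQ_apply, Submodule.mkQ_apply, Submodule.mapQ_apply, rmM_single, rmU_cl,
        Option.map_some]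

end rm

/-- functoriality of `R_n` under field homomorphisms. -/
theorem R_map {F F' : Type} [Field F] [Field F'] (φ : F →+* F') (m : ℕ) (r : ZP F)
    (hr : r ∈ R (m + 2) F) : Finsupp.lmapDomain ℤ ℤ (Option.map φ) r ∈ R (m + 2) F' := by
  induction m generalizing F F' with
  | zero =>
    refine rm_relSpan φ (LinearMap.ker (delta2 (RatFunc F))) (LinearMap.ker (delta2 (RatFunc F')))
      ?_ r hr
    intro α hα
    rw [LinearMap.mem_ker] at hα ⊢
    rw [rm_delta2, hα, map_zero]
  | succ m ih =>
    refine rm_relSpan φ (LinearMap.ker (deltaS (RatFunc F) (R (m + 2) (RatFunc F))))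
      (LinearMap.ker (deltaS (RatFunc F') (R (m + 2) (RatFunc F')))) ?_ r hr
    intro α hα
    rw [LinearMap.mem_ker] at hα ⊢
    rw [rm_deltaS (rmT φ) (R (m + 2) (RatFunc F)) (R (m + 2) (RatFunc F'))
      (fun s hs => ih (rmT φ) s hs), hα, map_zero]

end H39Gon
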