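import Pool.Agent.H39R2.Gon.Base
import Pool.Agent.H39R2.Gon.RMap
import Pool.Agent.H39R2.Gon.C3

/-!
# Task C4: every functional on `B_n(k(x))` is of the form `ev Ψ` (`k` algebraic over `F_p`)
-/

namespace H39Gon

open scoped TensorProduct
open Polynomial

namespace C4

/-! ### extension of functionals -/

/-- a `ℚ`-vector space is divisible -/
@[instance_reducible]
noncomputable def divQ (W : Type) [AddCommGroup W] [Module ℚ W] : DivisibleBy W ℤ where
  div x n := ((n : ℚ)⁻¹) • x
  div_zero x := by simp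
  div_cancel {n} x hn := by
    have hn' : (n : ℚ) ≠ 0 := by exact_mod_cast hn
    rw [← Int.cast_smul_eq_zsmul ℚ n, smul_smul, mul_inv_cancel₀ hn', one_smul]

lemma exists_ext {A T W : Type} [AddCommGroup A] [AddCommGroup T] [AddCommGroup W] [Module ℚ W]
    (δ : A →ₗ[ℤ] T) (θ : A →ₗ[ℤ] W) (h : ∀ a, δ a = 0 → θ a = 0) :
    ∃ L : T →ₗ[ℤ] W, θ = L ∘ₗ δ := by
  let _ := divQ W
  have hB : Module.Baer ℤ W := Module.Baer.of_divisible W
  obtain ⟨L, hL⟩ := hB.extension_property
    ((LinearMap.range δ).subtype ∘ₗ (LinearMap.quotKerEquivRange δ).toLinearMap)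
    ((Submodule.subtype_injective _).comp (LinearMap.quotKerEquivRange δ).injective)
    ((LinearMap.ker δ).liftQ θ (fun a ha => by
      rw [LinearMap.mem_ker] at ha ⊢
      exact h a ha))
  refine ⟨L, ?_⟩
  ext a
  have h1 := congrArg (fun f => f ((LinearMap.ker δ).mkQ a)) hL
  simp only [LinearMap.comp_apply] at h1
  rw [LinearMap.comp_apply]
  have h2 : ((LinearMap.ker δ).liftQ θ (fun a ha => by
      rw [LinearMap.mem_ker] at ha ⊢
      exact h a ha)) ((LinearMap.ker δ).mkQ a) = θ a := rfl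
  have h3 : (LinearMap.range δ).subtype
      ((LinearMap.quotKerEquivRange δ).toLinearMap ((LinearMap.ker δ).mkQ a)) = δ a := rfl
  rw [← h2, ← h1, h3]

/-! ### the specialisation argument -/

section spec

variable (k : Type) [Field k]

/-- `P(x) ↦ P(x t)` -/
noncomputable def eta : k[X] →+* (RatFunc k)[X] :=
  eval₂RingHom ((C : RatFunc k →+* (RatFunc k)[X]).comp (RatFunc.C : k →+* RatFunc k))
    (C (RatFunc.X : RatFunc k) * X)

lemma eta_eval_one (P : k[X]) : (eta k P).eval 1 = algebraMap k[X] (RatFunc k) P := by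
  have h : ((evalRingHom (1 : RatFunc k)).comp (eta k)) = algebraMap k[X] (RatFunc k) := by
    apply Polynomial.ringHom_ext
    · intro a
      simp [eta, RatFunc.algebraMap_C]
    · simp [eta, RatFunc.algebraMap_X]
  exact congrArg (fun f => f P) h

lemma eta_eval_zero (P : k[X]) : (eta k P).eval 0 = RatFunc.C (P.eval 0) := by
  have h : ((evalRingHom (0 : RatFunc k)).comp (eta k)) =
      (RatFunc.C : k →+* RatFunc k).comp (evalRingHom 0) := by
    apply Polynomial.ringHom_ext
    · intro a
      simp [eta]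
    · simp [eta]
  exact congrArg (fun f => f P) h

lemma eta_inj : Function.Injective (eta k) := by
  rw [injective_iff_map_eq_zero]
  intro P hP
  have h := eta_eval_one k P
  rw [hP, eval_zero] at h
  exact (map_eq_zero_iff _ (RatFunc.algebraMap_injective k)).1 h.symm

lemma eta_inj' : Function.Injective ((algebraMap (RatFunc k)[X] (RatFunc (RatFunc k))).comp (eta k)) :=
  (RatFunc.algebraMap_injective (RatFunc k)).comp (eta_inj k)

/-- `f(x) ↦ f(x t)` -/
noncomputable def phi : RatFunc k →+* RatFunc (RatFunc k) :=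
  IsFractionRing.lift (A := k[X]) (K := RatFunc k) (eta_inj' k)

lemma phi_eq (f : RatFunc k) : phi k f =
    algebraMap (RatFunc k)[X] (RatFunc (RatFunc k)) (eta k f.num) /
      algebraMap (RatFunc k)[X] (RatFunc (RatFunc k)) (eta k f.denom) := by
  conv_lhs => rw [← f.num_div_denom]
  rw [map_div₀]
  unfold phi
  rw [IsFractionRing.lift_algebraMap, IsFractionRing.lift_algebraMap]
  rfl

lemma spec_one_phi (x : P1 (RatFunc k)) :
    spec (RatFunc k) 1 (Option.map (phi k) x) = x := by
  classical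
  cases x with
  | none => rfl
  | some f =>
    rw [Option.map_some, rm_spec_eq 1 (eta k f.num) (eta k f.denom)
      ((map_ne_zero_iff _ (eta_inj k)).2 f.denom_ne_zero)
      (f.isCoprime_num_denom.map (eta k)) _ (phi_eq k f), eta_eval_one, eta_eval_one,
      if_neg (RatFunc.algebraMap_ne_zero f.denom_ne_zero), f.num_div_denom]

lemma spec_zero_phi (x : P1 (RatFunc k)) :
    spec (RatFunc k) 0 (Option.map (phi k) x) = none ∨
      ∃ c : k, spec (RatFunc k) 0 (Option.map (phi k) x) = some (RatFunc.C c) := by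
  classical
  cases x with
  | none => left; rfl
  | some f =>
    rw [Option.map_some, rm_spec_eq 0 (eta k f.num) (eta k f.denom)
      ((map_ne_zero_iff _ (eta_inj k)).2 f.denom_ne_zero)
      (f.isCoprime_num_denom.map (eta k)) _ (phi_eq k f), eta_eval_zero, eta_eval_zero]
    by_cases h : f.denom.eval 0 = 0
    · left
      rw [if_pos (by rw [h, map_zero])]
    · right
      exact ⟨f.num.eval 0 / f.denom.eval 0, by
        rw [if_neg (fun e => h ((map_eq_zero _).1 e)), map_div₀]⟩

lemma specZ_one_phi (α : ZP (RatFunc k)) : specZ (RatFunc k) 1 (rmM (phi k) α) = α := by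
  induction α using Finsupp.induction_linear with
  | zero => simp
  | add a b ha hb => rw [map_add, map_add, ha, hb]
  | single x c =>
    rw [rmM_single, specZ, Finsupp.lmapDomain_apply, Finsupp.mapDomain_single, spec_one_phi]

/-- H¹-vanishing up to torsion -/
lemma h1gen (A' : Submodule ℤ (ZP (RatFunc (RatFunc k))))
    (hR : ∀ c : k, ∃ N : ℕ, 0 < N ∧
      N • (Finsupp.single (some (RatFunc.C c)) 1 : ZP (RatFunc k)) ∈ relSpan (RatFunc k) A')
    (α : ZP (RatFunc k)) (hα : rmM (phi k) α ∈ A') :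
    ∃ N : ℕ, 0 < N ∧ N • α ∈ relSpan (RatFunc k) A' := by
  have key : ∀ β : ZP (RatFunc k), ∃ N : ℕ, 0 < N ∧
      N • specZ (RatFunc k) 0 (rmM (phi k) β) ∈ relSpan (RatFunc k) A' := by
    intro β
    induction β using Finsupp.induction_linear with
    | zero => exact ⟨1, one_pos, by simp⟩
    | add a b ha hb =>
      obtain ⟨N, hN, h1⟩ := ha
      obtain ⟨M, hM, h2⟩ := hb
      refine ⟨N * M, Nat.mul_pos hN hM, ?_⟩
      rw [map_add, map_add, smul_add]
      refine Submodule.add_mem _ ?_ ?_
      · rw [mul_comm, mul_smul]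
        exact (relSpan (RatFunc k) A').smul_of_tower_mem M h1
      · rw [mul_smul]
        exact (relSpan (RatFunc k) A').smul_of_tower_mem N h2
    | single x c =>
      rw [rmM_single, specZ, Finsupp.lmapDomain_apply, Finsupp.mapDomain_single]
      rcases spec_zero_phi k x with h | ⟨d, h⟩
      · refine ⟨1, one_pos, ?_⟩
        rw [h, one_smul]
        have h1 : (Finsupp.single none c : ZP (RatFunc k)) = c • Finsupp.single none 1 := by simp
        rw [h1]
        exact Submodule.smul_mem _ _ (Submodule.subset_span (Or.inl (Or.inr rfl)))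
      · obtain ⟨N, hN, h2⟩ := hR d
        refine ⟨N, hN, ?_⟩
        have h1 : (Finsupp.single (some (RatFunc.C d)) c : ZP (RatFunc k)) =
          c • Finsupp.single (some (RatFunc.C d)) 1 := by simp
        rw [h, h1, smul_comm]
        exact Submodule.smul_mem _ _ h2
  obtain ⟨N, hN, h1⟩ := key α
  refine ⟨N, hN, ?_⟩
  have h2 : specZ (RatFunc k) 0 (rmM (phi k) α) - specZ (RatFunc k) 1 (rmM (phi k) α) ∈
      relSpan (RatFunc k) A' := Submodule.subset_span (Or.inr ⟨_, hα, rfl⟩)
  rw [specZ_one_phi] at h2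
  have h3 := Submodule.sub_mem _ h1 ((relSpan (RatFunc k) A').smul_of_tower_mem N h2)
  convert h3 using 1
  rw [smul_sub]
  abel

end spec

lemma frob_iter {F : Type} [Field F] (p : ℕ) [Fact p.Prime] [CharP F p] (m : ℕ) (y : F) (r : ℕ) :
    Finsupp.single (some (y ^ p ^ r)) 1 - ((p ^ (m + 2) : ℤ) ^ r) • Finsupp.single (some y) 1 ∈
      R (m + 2) F := by
  induction r with
  | zero => simp
  | succ r ih =>
    have h1 := frob p m (y ^ p ^ r)
    have h2 := Submodule.smul_mem _ (p ^ (m + 2) : ℤ) ih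
    have h3 := Submodule.add_mem _ h1 h2
    have e : y ^ p ^ (r + 1) = (y ^ p ^ r) ^ p := by
      rw [← pow_mul, pow_succ]
    rw [e]
    convert h3 using 1
    rw [smul_sub, smul_smul, ← pow_succ', sub_add_sub_cancel]

lemma tors_const (k : Type) [Field k] (p : ℕ) [Fact p.Prime] [CharP k p]
    (hk : ∀ c : k, ∃ r : ℕ, 1 ≤ r ∧ c ^ p ^ r = c) (m : ℕ) (c : k) :
    ∃ N : ℕ, 0 < N ∧
      N • (Finsupp.single (some (RatFunc.C c)) 1 : ZP (RatFunc k)) ∈ R (m + 2) (RatFunc k) := by
  have : CharP (RatFunc k) p := charP_of_injective_algebraMap (algebraMap k (RatFunc k)).injective p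
  obtain ⟨r, hr, hc⟩ := hk c
  have h := frob_iter (F := RatFunc k) p m (RatFunc.C c) r
  rw [← map_pow, hc] at h
  have hp : 2 ≤ p := (Fact.out : p.Prime).two_le
  have h1 : 1 < (p ^ (m + 2)) ^ r := by
    rw [← pow_mul]
    exact Nat.one_lt_pow (by positivity) (by omega)
  refine ⟨(p ^ (m + 2)) ^ r - 1, by omega, ?_⟩
  have h2 := Submodule.neg_mem _ h
  convert h2 using 1
  rw [← natCast_zsmul, Nat.cast_sub h1.le]
  push_cast
  rw [sub_smul, one_smul, neg_sub]

end C4

open C4

/-- H¹-vanishing in functional form: every functional on `B_n(k(x))` is of the form `ev Ψ`. -/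
theorem ev_surj (k : Type) [Field k] (p : ℕ) [Fact p.Prime] [CharP k p]
    (hk : ∀ c : k, ∃ r : ℕ, 1 ≤ r ∧ c ^ p ^ r = c)
    {W : Type} [AddCommGroup W] [Module ℚ W] (m : ℕ) (θ : ZP (RatFunc k) →ₗ[ℤ] W)
    (hθ : ∀ r ∈ R (m + 2) (RatFunc k), θ r = 0) :
    ∃ Ψ : UV (RatFunc k) →ₗ[ℤ] UV (RatFunc k) →ₗ[ℤ]
        MultilinearMap ℤ (fun _ : Fin m => UV (RatFunc k)) W,
      (∀ a, Ψ a a = 0) ∧ θ = ev Ψ := by
  have hθN : ∀ (α : ZP (RatFunc k)) (N : ℕ), 0 < N → N • α ∈ R (m + 2) (RatFunc k) → θ α = 0 := by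
    intro α N hN h
    have h1 := hθ _ h
    rw [map_nsmul, ← Nat.cast_smul_eq_nsmul ℚ] at h1
    rcases smul_eq_zero.1 h1 with h2 | h2
    · exfalso
      have : (N : ℚ) ≠ 0 := by exact_mod_cast hN.ne'
      exact this h2
    · exact h2
  induction m generalizing W with
  | zero =>
    have hker : ∀ α, delta2 (RatFunc k) α = 0 → θ α = 0 := by
      intro α hα
      obtain ⟨N, hN, h⟩ := h1gen k (LinearMap.ker (delta2 (RatFunc (RatFunc k))))
        (fun c => tors_const k p hk 0 c) α (by
          rw [LinearMap.mem_ker, rm_delta2, hα, map_zero])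
      exact hθN α N hN h
    obtain ⟨L, hL⟩ := exists_ext _ θ hker
    set f : MultilinearMap ℤ (fun _ : Fin 2 => UV (RatFunc k)) W :=
      (L.compAlternatingMap (exteriorPower.ιMulti ℤ 2)).toMultilinearMap with hf
    refine ⟨(multilinearCurryLeftEquiv ℤ (fun _ : Fin 1 => UV (RatFunc k)) W).toLinearMap ∘ₗ
      f.curryLeft, ?_, ?_⟩
    · intro a
      ext c
      change (L.compAlternatingMap (exteriorPower.ιMulti ℤ 2)) (Fin.cons a (Fin.cons a c)) = 0
      apply AlternatingMap.map_eq_zero_of_eq _ _ (i := 0) (j := 1)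
      · rfl
      · simp
    · rw [hL]
      apply Finsupp.lhom_ext'
      intro x
      apply LinearMap.ext_ring
      simp only [LinearMap.comp_apply, Finsupp.lsingle_apply, delta2, ev,
        Finsupp.linearCombination_single, one_smul]
      cases x with
      | none => simp
      | some x =>
        change L (exteriorPower.ιMulti ℤ 2 ![cl (1 - x), cl x]) =
          L (exteriorPower.ιMulti ℤ 2 (Fin.cons (cl (1 - x)) (Fin.cons (cl x) (fun _ => cl x))))
        congr 2
  | succ m ih =>
    have hker : ∀ α, deltaS (RatFunc k) (R (m + 2) (RatFunc k)) α = 0 → θ α = 0 := by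
      intro α hα
      obtain ⟨N, hN, h⟩ := h1gen k
        (LinearMap.ker (deltaS (RatFunc (RatFunc k)) (R (m + 2) (RatFunc (RatFunc k)))))
        (fun c => tors_const k p hk (m + 1) c) α (by
          rw [LinearMap.mem_ker, rm_deltaS (phi k) (R (m + 2) (RatFunc k)) _
            (fun s hs => R_map (phi k) m s hs), hα, map_zero])
      exact hθN α N hN h
    obtain ⟨L, hL⟩ := exists_ext _ θ hker
    set θ' : ZP (RatFunc k) →ₗ[ℤ] (UV (RatFunc k) →ₗ[ℤ] W) :=
      (TensorProduct.curry L) ∘ₗ (R (m + 2) (RatFunc k)).mkQ with hθ'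
    have hθ'0 : ∀ r ∈ R (m + 2) (RatFunc k), θ' r = 0 := by
      intro r hr
      have h1 : (R (m + 2) (RatFunc k)).mkQ r = 0 := by
        rw [Submodule.mkQ_apply, Submodule.Quotient.mk_eq_zero]
        exact hr
      have h2 : θ' r = (TensorProduct.curry L) ((R (m + 2) (RatFunc k)).mkQ r) := rfl
      rw [h2, h1]
      exact map_zero _
    obtain ⟨Ψ', hΨ'1, hΨ'2⟩ := ih θ' hθ'0 (by
      intro α N hN h
      have h1 := hθ'0 _ h
      rw [map_nsmul, ← Nat.cast_smul_eq_nsmul ℚ] at h1
      rcases smul_eq_zero.1 h1 with h2 | h2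
      · exfalso
        have : (N : ℚ) ≠ 0 := by exact_mod_cast hN.ne'
        exact this h2
      · exact h2)
    set E : MultilinearMap ℤ (fun _ : Fin m => UV (RatFunc k)) (UV (RatFunc k) →ₗ[ℤ] W) →ₗ[ℤ]
      MultilinearMap ℤ (fun _ : Fin (m + 1) => UV (RatFunc k)) W :=
      (multilinearCurryRightEquiv ℤ (fun _ : Fin (m + 1) => UV (RatFunc k)) W).symm.toLinearMap
      with hE
    refine ⟨Ψ'.compr₂ E, ?_, ?_⟩
    · intro a
      rw [LinearMap.compr₂_apply, hΨ'1, map_zero]
    · rw [hL]
      apply Finsupp.lhom_ext'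
      intro x
      apply LinearMap.ext_ring
      have h1 := congrArg (fun f => f (Finsupp.single x 1)) hΨ'2
      simp only [LinearMap.comp_apply, Finsupp.lsingle_apply, deltaS, ev,
        Finsupp.linearCombination_single, one_smul] at h1 ⊢
      cases x with
      | none => simp
      | some x =>
        have h2 := congrArg (fun f => f (cl x)) h1
        exact h2

end H39Gon
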