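import Pool.Agent.H39R2.Gon.LW

/-!
# Characters of spaces of polynomials of bounded degree
-/

namespace H39Gon

open Polynomial Finset

variable {K : Type} [Field K]

/-- Bezout with degree control. -/
theorem bezout_deg {M M' : K[X]} (hM : M.Monic) (hM' : M'.Monic) (hc : IsCoprime M M') {n a a' : ℕ}
    (ha : M.natDegree + a = n) (ha' : M'.natDegree + a' = n)
    (hn : M.natDegree + M'.natDegree ≤ n) (P : K[X]) (hP : P ∈ degreeLT K n) :
    ∃ U ∈ degreeLT K a, ∃ V ∈ degreeLT K a', P = M * U + M' * V := by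
  obtain ⟨x, y, hxy⟩ := hc
  rw [mem_degreeLT] at hP
  set U := (x * P) %ₘ M' with hU
  have hUdeg : U.degree < M'.natDegree := by
    rw [← degree_eq_natDegree hM'.ne_zero]
    exact degree_modByMonic_lt _ hM'
  have hmod : U + M' * ((x * P) /ₘ M') = x * P := modByMonic_add_div _ _
  refine ⟨U, ?_, y * P + M * ((x * P) /ₘ M'), ?_, ?_⟩
  · rw [mem_degreeLT]
    refine lt_of_lt_of_le hUdeg ?_
    exact_mod_cast (by omega : M'.natDegree ≤ a)
  · have hP2 : M' * (y * P + M * ((x * P) /ₘ M')) = P - M * U := by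
      linear_combination P * hxy + M * hmod
    have hd : (M * U).degree < n := by
      rw [degree_mul, degree_eq_natDegree hM.ne_zero]
      by_cases hU0 : U = 0
      · simp [hU0]
      · rw [degree_eq_natDegree hU0] at hUdeg ⊢
        have : U.natDegree < M'.natDegree := by exact_mod_cast hUdeg
        exact_mod_cast (by omega : M.natDegree + U.natDegree < n)
    have hd2 : (M' * (y * P + M * ((x * P) /ₘ M'))).degree < n := by
      rw [hP2]
      exact lt_of_le_of_lt (degree_sub_le _ _) (max_lt hP hd)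
    rw [mem_degreeLT]
    set V := y * P + M * ((x * P) /ₘ M') with hV
    by_cases hV0 : V = 0
    · rw [hV0, degree_zero]; exact WithBot.bot_lt_coe _
    · rw [degree_mul, degree_eq_natDegree hM'.ne_zero, degree_eq_natDegree hV0] at hd2
      rw [degree_eq_natDegree hV0]
      have : M'.natDegree + V.natDegree < n := by exact_mod_cast hd2
      exact_mod_cast (by omega : V.natDegree < a')
  · linear_combination -P * hxy - M * hmod

/-- multiplication by `M` as a map between spaces of polynomials of bounded degree. -/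
noncomputable def mulMap (M : K[X]) {a b : ℕ} (h : M.natDegree + a ≤ b) :
    degreeLT K a →+ degreeLT K b where
  toFun P := ⟨M * P.1, by
    have hP := P.2
    rw [mem_degreeLT] at hP ⊢
    by_cases hM0 : M = 0
    · rw [hM0, zero_mul, degree_zero]; exact WithBot.bot_lt_coe _
    by_cases hP0 : P.1 = 0
    · rw [hP0, mul_zero, degree_zero]; exact WithBot.bot_lt_coe _
    · rw [degree_mul, degree_eq_natDegree hM0, degree_eq_natDegree hP0]
      rw [degree_eq_natDegree hP0] at hP
      have : P.1.natDegree < a := by exact_mod_cast hP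
      exact_mod_cast (by omega : M.natDegree + P.1.natDegree < b)⟩
  map_zero' := by ext1; simp
  map_add' P Q := by ext1; simp [mul_add]

@[simp] theorem mulMap_coe (M : K[X]) {a b : ℕ} (h : M.natDegree + a ≤ b) (P : degreeLT K a) :
    ((mulMap M h P : degreeLT K b) : K[X]) = M * P.1 := rfl

/-- restriction of a character to the multiples of `M`. -/
noncomputable def resC (M : K[X]) {a b : ℕ} (h : M.natDegree + a ≤ b) (χ : AddChar (degreeLT K b) ℂ) :
    AddChar (degreeLT K a) ℂ := χ.compAddMonoidHom (mulMap M h)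

@[simp] theorem resC_apply (M : K[X]) {a b : ℕ} (h : M.natDegree + a ≤ b)
    (χ : AddChar (degreeLT K b) ℂ) (P : degreeLT K a) : resC M h χ P = χ (mulMap M h P) := rfl

theorem resC_inj {M M' : K[X]} (hM : M.Monic) (hM' : M'.Monic) (hc : IsCoprime M M') {n a a' : ℕ}
    (ha : M.natDegree + a = n) (ha' : M'.natDegree + a' = n)
    (hn : M.natDegree + M'.natDegree ≤ n) (χ χ' : AddChar (degreeLT K n) ℂ)
    (h1 : resC M ha.le χ = resC M ha.le χ') (h2 : resC M' ha'.le χ = resC M' ha'.le χ') :
    χ = χ' := by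
  ext P
  obtain ⟨U, hU, V, hV, hP⟩ := bezout_deg hM hM' hc ha ha' hn P.1 P.2
  have : P = mulMap M ha.le ⟨U, hU⟩ + mulMap M' ha'.le ⟨V, hV⟩ := by
    ext1; simp [hP]
  rw [this, AddChar.map_add_eq_mul, AddChar.map_add_eq_mul]
  have e1 := DFunLike.congr_fun h1 ⟨U, hU⟩
  have e2 := DFunLike.congr_fun h2 ⟨V, hV⟩
  simp only [resC_apply] at e1 e2
  rw [e1, e2]

theorem resC_comp {M M' : K[X]} {a b c : ℕ} (h : M.natDegree + a ≤ b) (h' : M'.natDegree + b ≤ c)
    (h'' : (M' * M).natDegree + a ≤ c) (χ : AddChar (degreeLT K c) ℂ) :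
    resC M h (resC M' h' χ) = resC (M' * M) h'' χ := by
  ext P
  simp only [resC_apply]
  congr 1
  ext1
  simp [mul_assoc]

theorem resC_one (M : K[X]) {a b : ℕ} (h : M.natDegree + a ≤ b) :
    resC M h (1 : AddChar (degreeLT K b) ℂ) = 1 := by
  ext P; simp

/-! ### finiteness and cardinalities -/

instance finite_degreeLT [Finite K] (n : ℕ) : Finite (degreeLT K n) :=
  Finite.of_equiv (Fin n → K) (degreeLTEquiv K n).symm.toEquiv

noncomputable instance fintype_degreeLT [Finite K] (n : ℕ) : Fintype (degreeLT K n) :=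
  Fintype.ofFinite _

theorem card_degreeLT [Fintype K] (n : ℕ) : Fintype.card (degreeLT K n) = Fintype.card K ^ n := by
  classical
  rw [Fintype.card_congr (degreeLTEquiv K n).toEquiv]
  simp

end H39Gon
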