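import Pool.Agent.H39R2.Gon.Inv

/-!
# The count theorem
-/

namespace H39Gon

open Polynomial Finset

variable {K : Type} [Field K]

/-- product over a set of slots -/
noncomputable def MT {ι : Type} (N : Finset ι) (z : ι → K) : K[X] := ∏ a ∈ N, (X - C (z a))

theorem MT_monic {ι : Type} (N : Finset ι) (z : ι → K) : (MT N z).Monic :=
  monic_prod_of_monic _ _ (fun _ _ => monic_X_sub_C _)

theorem MT_natDegree {ι : Type} (N : Finset ι) (z : ι → K) : (MT N z).natDegree = N.card := by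
  unfold MT
  rw [natDegree_prod_of_monic _ _ (fun i _ => monic_X_sub_C _)]
  simp only [natDegree_X_sub_C, sum_const, smul_eq_mul, mul_one]

theorem MT_coprime {ι : Type} (N N' : Finset ι) (z : ι → K) (h : ∀ a ∈ N, ∀ b ∈ N', z a ≠ z b) :
    IsCoprime (MT N z) (MT N' z) := by
  unfold MT
  apply IsCoprime.prod_left; intro i hi
  apply IsCoprime.prod_right; intro j hj
  apply isCoprime_X_sub_C_of_isUnit_sub
  rw [isUnit_iff_ne_zero]
  exact sub_ne_zero.2 (h i hi j hj)

/-- free slots of group `X` -/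
def Sf {d : ℕ} (T : Finset (Fin 3 × Fin d)) (X : Fin 3) : Finset (Fin d) :=
  univ.filter (fun i => (X, i) ∉ T)

theorem Sf_card {d : ℕ} (T : Finset (Fin 3 × Fin d)) (X : Fin 3) :
    (T.filter (fun a => a.1 = X)).card + (Sf T X).card = d := by
  classical
  have h1 : (T.filter (fun a => a.1 = X)).card = (univ.filter (fun i : Fin d => (X, i) ∈ T)).card := by
    symm
    apply Finset.card_bij (fun i _ => (X, i))
    · intro i hi
      simp only [mem_filter, mem_univ, true_and] at hi ⊢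
      exact ⟨hi, trivial⟩
    · intro i _ j _ h
      simpa using h
    · intro b hb
      simp only [mem_filter] at hb
      refine ⟨b.2, ?_, ?_⟩
      · simp only [mem_filter, mem_univ, true_and]
        rw [← hb.2]; exact hb.1
      · rw [← hb.2]
  rw [h1]
  unfold Sf
  have := Finset.card_filter_add_card_filter_not (s := (univ : Finset (Fin d)))
    (fun i : Fin d => (X, i) ∈ T)
  simpa using this

theorem P_split {d : ℕ} (T : Finset (Fin 3 × Fin d)) (z z' : Fin 3 × Fin d → K) (Y : Fin 3) :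
    ∏ i : Fin d, (X - C (T.piecewise z z' (Y, i))) =
      MT (T.filter (fun a => a.1 = Y)) z * ∏ i ∈ Sf T Y, (X - C (z' (Y, i))) := by
  classical
  rw [← Finset.prod_filter_mul_prod_filter_not univ (fun i : Fin d => (Y, i) ∈ T)]
  congr 1
  · unfold MT
    apply Finset.prod_bij (fun i _ => (Y, i))
    · intro i hi
      simp only [mem_filter, mem_univ, true_and] at hi ⊢
      exact ⟨hi, trivial⟩
    · intro i _ j _ h
      simpa using h
    · intro b hb
      simp only [mem_filter] at hb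
      refine ⟨b.2, ?_, ?_⟩
      · simp only [mem_filter, mem_univ, true_and]
        rw [← hb.2]; exact hb.1
      · rw [← hb.2]
    · intro i hi
      simp only [mem_filter, mem_univ, true_and] at hi
      rw [Finset.piecewise_eq_of_mem _ _ _ hi]
  · unfold Sf
    apply Finset.prod_congr rfl
    intro i hi
    simp only [mem_filter, mem_univ, true_and] at hi
    rw [Finset.piecewise_eq_of_notMem _ _ _ hi]

/-- the reindexing equivalence -/
def reidx (d : ℕ) (A B : Type) : ((Fin 3 × Fin d → A) × (Fin 3 → B)) ≃ (Fin 3 → B × (Fin d → A)) where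
  toFun p := fun X => (p.2 X, fun i => p.1 (X, i))
  invFun w := (fun a => (w a.1).2 a.2, fun X => (w X).1)
  left_inv _ := rfl
  right_inv _ := rfl

/-- number of coefficients of the free part -/
def nf {d : ℕ} (T : Finset (Fin 3 × Fin d)) (X : Fin 3) : ℕ := (Sf T X).card + 1

theorem nf_eq {d : ℕ} (T : Finset (Fin 3 × Fin d)) (X : Fin 3) : (Sf T X).card + 1 = nf T X := rfl

theorem nf_lt {d : ℕ} (T : Finset (Fin 3 × Fin d)) (X : Fin 3) : (Sf T X).card < nf T X :=
  Nat.lt_succ_self _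

theorem hTX {d : ℕ} (T : Finset (Fin 3 × Fin d)) (z : Fin 3 × Fin d → K) (X : Fin 3) :
    (MT (T.filter (fun a => a.1 = X)) z).natDegree + nf T X = d + 1 := by
  rw [MT_natDegree, ← nf_eq, ← add_assoc, Sf_card]

theorem hTX' {d : ℕ} (T : Finset (Fin 3 × Fin d)) (z : Fin 3 × Fin d → K) (X : Fin 3) :
    (MT (T.filter (fun a => a.1 = X)) z).natDegree + nf T X ≤ d + 1 := le_of_eq (hTX T z X)

attribute [irreducible] nf

variable [Fintype K] [DecidableEq K]

theorem parseval_gf' {d : ℕ} (S : Finset (Fin d)) (n : ℕ) (hn : S.card + 1 = n) (h : S.card < n) :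
    ∑ χ : AddChar (degreeLT K n) ℂ, nrm (gf (K := K) S n h) χ ^ 2 ≤ 2 * d.factorial := by
  subst hn
  exact parseval_gf S

theorem scaling_bound' {d : ℕ} (S : Finset (Fin d)) (n : ℕ) (hn : S.card + 1 = n) (h : S.card < n)
    (M : K[X]) {a : ℕ}
    (hM : M.natDegree + a ≤ n) (Q : AddChar (degreeLT K a) ℂ) (hQ : Q ≠ 1)
    [DecidableEq (AddChar (degreeLT K a) ℂ)] :
    ∑ χ ∈ univ.filter (fun χ : AddChar (degreeLT K n) ℂ => resC M hM χ = Q),
      nrm (gf (K := K) S n h) χ ^ 2 ≤ 2 * d.factorial / ((Fintype.card K : ℝ) - 1) := by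
  subst hn
  exact scaling_bound S M hM Q hQ

theorem translation_bound' {d : ℕ} (S : Finset (Fin d)) (n : ℕ) (hn : S.card + 1 = n)
    (h : S.card < n) {ι : Type} (N : Finset ι) (z : ι → K) {a : ℕ}
    (hM : (MT N z).natDegree + a = n) (hN : 2 * N.card ≤ n)
    [DecidableEq (AddChar (degreeLT K a) ℂ)] :
    ∑ χ ∈ univ.filter (fun χ : AddChar (degreeLT K n) ℂ => resC (MT N z) hM.le χ = 1),
      nrm (gf (K := K) S n h) χ ^ 2 ≤
      1 + (N.card : ℝ) ^ 2 * (2 * d.factorial) / (Fintype.card K : ℝ) := by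
  subst hn
  exact translation_bound S N z hM hN

/-- restriction to multiples of `M_X` -/
noncomputable def resX {d : ℕ} (T : Finset (Fin 3 × Fin d)) (z : Fin 3 × Fin d → K) (Y : Fin 3)
    (χ : AddChar (degreeLT K (d + 1)) ℂ) : AddChar (degreeLT K (nf T Y)) ℂ :=
  resC (a := nf T Y) (b := d + 1) (MT (T.filter (fun a => a.1 = Y)) z) (hTX' T z Y) χ

/-- the vectors `M_X g_X(ω)` -/
noncomputable def vec {d : ℕ} (T : Finset (Fin 3 × Fin d)) (z : Fin 3 × Fin d → K) (X : Fin 3)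
    (ω : Kˣ × (Fin d → K)) : degreeLT K (d + 1) :=
  mulMap (a := nf T X) (b := d + 1) (MT (T.filter (fun a => a.1 = X)) z) (hTX' T z X)
    (gf (Sf T X) (nf T X) (nf_lt T X) ω)

omit [Fintype K] [DecidableEq K] in
theorem Wt_eq [Fintype K] [DecidableEq K] {d : ℕ} (T : Finset (Fin 3 × Fin d)) (z z' : Fin 3 × Fin d → K) :
    Wt (T.piecewise z z') = ∑ l : Fin 3 → Kˣ,
      (if ∑ X : Fin 3, vec T z X (l X, fun i => z' (X, i)) = 0 then (1 : ℝ) else 0) := by
  classical
  unfold Wt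
  rw [Nat.card_eq_fintype_card, Fintype.card_subtype, Finset.card_filter]
  push_cast
  apply Finset.sum_congr rfl
  intro l _
  have : (∑ Y : Fin 3, C (l Y : K) * ∏ i : Fin d, (X - C (T.piecewise z z' (Y, i))) = 0) ↔
      (∑ Y : Fin 3, vec T z Y (l Y, fun i => z' (Y, i)) = 0) := by
    rw [← Submodule.coe_eq_zero, Submodule.coe_sum]
    have e : ∀ Y : Fin 3, ((vec T z Y (l Y, fun i => z' (Y, i)) : degreeLT K (d + 1)) : K[X]) =
        C (l Y : K) * ∏ i : Fin d, (X - C (T.piecewise z z' (Y, i))) := by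
      intro Y
      rw [P_split]
      unfold vec
      rw [mulMap_coe, gf_coe]
      ring
    simp_rw [e]
  simp only [this]

theorem main_identity {d : ℕ} (T : Finset (Fin 3 × Fin d)) (z : Fin 3 × Fin d → K) :
    (((Fintype.card K : ℝ) ^ (d + 1) * ∑ z' : Fin 3 × Fin d → K, Wt (T.piecewise z z') : ℝ) : ℂ) =
      ∑ χ : AddChar (degreeLT K (d + 1)) ℂ, ∏ X : Fin 3, ∑ ω, χ (vec T z X ω) := by
  classical
  have h1 : ∀ z' : Fin 3 × Fin d → K, (((Fintype.card K : ℝ) ^ (d + 1) * Wt (T.piecewise z z') : ℝ) : ℂ)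
      = ∑ l : Fin 3 → Kˣ, ∑ χ : AddChar (degreeLT K (d + 1)) ℂ,
        ∏ X : Fin 3, χ (vec T z X (l X, fun i => z' (X, i))) := by
    intro z'
    rw [Wt_eq]
    push_cast
    rw [Finset.mul_sum]
    apply Finset.sum_congr rfl
    intro l _
    have := AddChar.sum_apply_eq_ite (∑ X : Fin 3, vec T z X (l X, fun i => z' (X, i)))
    have h2 : ∀ χ : AddChar (degreeLT K (d + 1)) ℂ,
        χ (∑ X : Fin 3, vec T z X (l X, fun i => z' (X, i))) =
        ∏ X : Fin 3, χ (vec T z X (l X, fun i => z' (X, i))) := by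
      intro χ
      rw [Fin.sum_univ_three, Fin.prod_univ_three, AddChar.map_add_eq_mul, AddChar.map_add_eq_mul]
    simp_rw [h2] at this
    rw [this, card_degreeLT]
    split_ifs <;> simp
  rw [Finset.mul_sum, Complex.ofReal_sum]
  simp_rw [h1]
  simp_rw [Finset.sum_comm (s := (univ : Finset (Fin 3 → Kˣ)))]
  rw [Finset.sum_comm]
  apply Finset.sum_congr rfl
  intro χ _
  rw [Finset.prod_univ_sum]
  rw [Fintype.piFinset_univ, ← Finset.sum_product', Finset.univ_product_univ]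
  exact Fintype.sum_equiv (reidx d K Kˣ) _ _ (fun p => rfl)

/-- abstract version of the error bound -/
theorem err_abs {d : ℕ} (S : Fin 3 → Finset (Fin d)) (n : Fin 3 → ℕ)
    (hn : ∀ Y, (S Y).card + 1 = n Y) (hlt : ∀ Y, (S Y).card < n Y)
    (M : Fin 3 → K[X]) (hmon : ∀ Y, (M Y).Monic) (hcop : ∀ X Y : Fin 3, X ≠ Y → IsCoprime (M X) (M Y))
    {ι : Type} (NN : Fin 3 → Finset ι) (z : ι → K) (MM : K[X])
    (hMN : ∀ Y, M Y * MT (NN Y) z = MM) (a e : ℕ)
    (hX : ∀ Y, (M Y).natDegree + n Y = d + 1)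
    (hra : ∀ Y, (MT (NN Y) z).natDegree + a = n Y)
    (ht0 : (M 1).natDegree + e = n 0) (ht1 : (M 0).natDegree + e = n 1)
    (hle : (M 0).natDegree + (M 1).natDegree + (M 2).natDegree ≤ d + 1)
    (hNN : ∀ Y, 2 * (NN Y).card ≤ n Y) (N : ℕ) (hN : ∀ Y, (NN Y).card ≤ N) :
    ∑ χ ∈ univ.erase (1 : AddChar (degreeLT K (d + 1)) ℂ),
      nrm (gf (S 0) (n 0) (hlt 0)) (resC (a := n 0) (b := d + 1) (M 0) (le_of_eq (hX 0)) χ) *
      nrm (gf (S 1) (n 1) (hlt 1)) (resC (a := n 1) (b := d + 1) (M 1) (le_of_eq (hX 1)) χ) *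
      nrm (gf (S 2) (n 2) (hlt 2)) (resC (a := n 2) (b := d + 1) (M 2) (le_of_eq (hX 2)) χ) ≤
      (2 * d.factorial) * √((2 * d.factorial) / ((Fintype.card K : ℝ) - 1)) +
        ((1 + (N : ℝ) ^ 2 * (2 * d.factorial) / (Fintype.card K : ℝ)) ^ 2 - 1) := by
  classical
  have hq : (0 : ℝ) < Fintype.card K := by exact_mod_cast Fintype.card_pos
  have hrr : ∀ (Y Y' : Fin 3) (χ : AddChar (degreeLT K (d + 1)) ℂ),
      resC (a := a) (b := n Y) (MT (NN Y) z) (le_of_eq (hra Y))
        (resC (a := n Y) (b := d + 1) (M Y) (le_of_eq (hX Y)) χ) =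
      resC (a := a) (b := n Y') (MT (NN Y') z) (le_of_eq (hra Y'))
        (resC (a := n Y') (b := d + 1) (M Y') (le_of_eq (hX Y')) χ) := by
    intro Y Y' χ
    ext P
    rw [resC_apply, resC_apply, resC_apply, resC_apply]
    congr 1
    ext1
    rw [mulMap_coe, mulMap_coe, mulMap_coe, mulMap_coe, ← mul_assoc, ← mul_assoc, hMN, hMN]
  apply abstract_bound (Θ := AddChar (degreeLT K e) ℂ) (H := AddChar (degreeLT K a) ℂ)
    (resC (a := n 0) (b := d + 1) (M 0) (le_of_eq (hX 0)))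
    (resC (a := n 1) (b := d + 1) (M 1) (le_of_eq (hX 1)))
    (resC (a := n 2) (b := d + 1) (M 2) (le_of_eq (hX 2)))
    (resC (a := e) (b := n 0) (M 1) (le_of_eq ht0)) (resC (a := e) (b := n 1) (M 0) (le_of_eq ht1))
    ?_ ?_ ?_
    (resC (a := a) (b := n 0) (MT (NN 0) z) (le_of_eq (hra 0)))
    (resC (a := a) (b := n 1) (MT (NN 1) z) (le_of_eq (hra 1)))
    (resC (a := a) (b := n 2) (MT (NN 2) z) (le_of_eq (hra 2))) ?_ ?_
    1 _ _ _ (nrm_nonneg _) (nrm_nonneg _) (nrm_nonneg _) ?_ _ _ _ (by positivity) (by positivity)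
    (parseval_gf' _ _ (hn 0) _) (parseval_gf' _ _ (hn 1) _) ?_ ?_ ?_ ?_
  · intro χ
    ext P
    rw [resC_apply, resC_apply, resC_apply, resC_apply]
    congr 1
    ext1
    rw [mulMap_coe, mulMap_coe, mulMap_coe, mulMap_coe]
    ring
  · intro χ χ' h h'
    exact resC_inj (hmon 0) (hmon 1) (hcop 0 1 (by decide)) (hX 0) (hX 1)
      (by omega) χ χ' h h'
  · intro χ χ' h h'
    have h01d : (M 0 * M 1).natDegree = (M 0).natDegree + (M 1).natDegree :=
      (hmon 0).natDegree_mul (hmon 1)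
    have hX0 := hX 0
    have hd01 : (M 0 * M 1).natDegree + e = d + 1 := by rw [h01d]; omega
    refine resC_inj ((hmon 0).mul (hmon 1)) (hmon 2)
      (IsCoprime.mul_left (hcop 0 2 (by decide)) (hcop 1 2 (by decide))) hd01 (hX 2)
      (by rw [h01d]; omega) χ χ' ?_ h'
    rw [← resC_comp (le_of_eq ht0) (le_of_eq (hX 0)) (le_of_eq hd01),
      ← resC_comp (le_of_eq ht0) (le_of_eq (hX 0)) (le_of_eq hd01)]
    exact h
  · intro χ; exact hrr 1 0 χ
  · intro χ; exact hrr 2 0 χ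
  · rw [resC_one, resC_one, resC_one, nrm_one, nrm_one, nrm_one]; norm_num
  · intro Q hQ
    apply scaling_bound' _ _ (hn 2)
    intro h1
    apply hQ
    rw [h1, resC_one, resC_one]
  · rw [resC_one, resC_one]
    refine (translation_bound' (S 0) _ (hn 0) (hlt 0) _ z (hra 0) (hNN 0)).trans ?_
    have : ((NN 0).card : ℝ) ≤ N := by exact_mod_cast hN 0
    gcongr
  · rw [resC_one, resC_one]
    refine (translation_bound' (S 1) _ (hn 1) (hlt 1) _ z (hra 1) (hNN 1)).trans ?_
    have : ((NN 1).card : ℝ) ≤ N := by exact_mod_cast hN 1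
    gcongr
  · rw [resC_one, resC_one]
    refine (translation_bound' (S 2) _ (hn 2) (hlt 2) _ z (hra 2) (hNN 2)).trans ?_
    have : ((NN 2).card : ℝ) ≤ N := by exact_mod_cast hN 2
    gcongr

theorem err_bound {d N : ℕ} (hN : 2 * N ≤ d) (T : Finset (Fin 3 × Fin d)) (hT : T.card ≤ N)
    (z : Fin 3 × Fin d → K) (hz : ∀ a ∈ T, ∀ b ∈ T, a.1 ≠ b.1 → z a ≠ z b) :
    ∑ χ ∈ univ.erase (1 : AddChar (degreeLT K (d + 1)) ℂ),
      nrm (gf (Sf T 0) (nf T 0) (nf_lt T 0)) (resX T z 0 χ) *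
      nrm (gf (Sf T 1) (nf T 1) (nf_lt T 1)) (resX T z 1 χ) *
      nrm (gf (Sf T 2) (nf T 2) (nf_lt T 2)) (resX T z 2 χ) ≤
      (2 * d.factorial) * √((2 * d.factorial) / ((Fintype.card K : ℝ) - 1)) +
        ((1 + (N : ℝ) ^ 2 * (2 * d.factorial) / (Fintype.card K : ℝ)) ^ 2 - 1) := by
  classical
  -- cardinalities
  have hc : ∀ X : Fin 3, (T.filter (fun a => a.1 = X)).card + (T.filter (fun a => ¬ a.1 = X)).card
      = T.card := fun X => Finset.card_filter_add_card_filter_not _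
  have h3 : (T.filter (fun a => a.1 = 0)).card + (T.filter (fun a => a.1 = 1)).card +
      (T.filter (fun a => a.1 = 2)).card = T.card := by
    rw [Finset.card_filter, Finset.card_filter, Finset.card_filter, ← Finset.sum_add_distrib,
      ← Finset.sum_add_distrib]
    rw [Finset.card_eq_sum_ones]
    apply Finset.sum_congr rfl
    rintro ⟨x, i⟩ _
    fin_cases x <;> simp
  have hS := fun X => Sf_card T X
  have hS0 := hS 0
  have hS1 := hS 1
  have hS2 := hS 2
  have hc0 := hc 0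
  have hc1 := hc 1
  have hc2 := hc 2
  have hnf := fun X => nf_eq T X
  have hnf0 := hnf 0
  have hnf1 := hnf 1
  have hnf2 := hnf 2
  refine err_abs (Sf T) (nf T) (nf_eq T) (nf_lt T) (fun Y => MT (T.filter (fun a => a.1 = Y)) z)
    (fun Y => MT_monic _ _) ?_ (fun Y => T.filter (fun a => ¬ a.1 = Y)) z (MT T z) ?_
    (d + 1 - T.card) (d + 1 - (T.filter (fun a => a.1 = 0)).card - (T.filter (fun a => a.1 = 1)).card)
    (hTX T z) ?_ ?_ ?_ ?_ ?_ N ?_
  · intro X Y hXY
    apply MT_coprime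
    intro a ha b hb
    simp only [mem_filter] at ha hb
    apply hz a ha.1 b hb.1
    rw [ha.2, hb.2]; exact hXY
  · intro Y
    exact Finset.prod_filter_mul_prod_filter_not _ _ _
  · intro Y
    have := hS Y
    have := hc Y
    have := hnf Y
    rw [MT_natDegree]
    omega
  · simp only [MT_natDegree]
    omega
  · simp only [MT_natDegree]
    omega
  · simp only [MT_natDegree]
    omega
  · intro Y
    have := hS Y
    have := hc Y
    have := hnf Y
    omega
  · intro Y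
    have := hc Y
    omega

theorem count_explicit {d N : ℕ} (hN : 2 * N ≤ d) (T : Finset (Fin 3 × Fin d)) (hT : T.card ≤ N)
    (z : Fin 3 × Fin d → K) (hz : ∀ a ∈ T, ∀ b ∈ T, a.1 ≠ b.1 → z a ≠ z b) :
    |(∑ z' : Fin 3 × Fin d → K, Wt (T.piecewise z z')) / (Fintype.card K : ℝ) ^ (3 * d)
      - wbar (Fintype.card K) d| ≤
      ((2 * d.factorial) * √((2 * d.factorial) / ((Fintype.card K : ℝ) - 1)) +
        ((1 + (N : ℝ) ^ 2 * (2 * d.factorial) / (Fintype.card K : ℝ)) ^ 2 - 1)) *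
      wbar (Fintype.card K) d := by
  classical
  have hq2 : 2 ≤ Fintype.card K := Fintype.one_lt_card
  set q : ℝ := (Fintype.card K : ℝ) with hqd
  have hq : (0 : ℝ) < q := by rw [hqd]; exact_mod_cast Fintype.card_pos
  have hq1 : (1 : ℝ) ≤ q - 1 := by
    have : (2 : ℝ) ≤ q := by rw [hqd]; exact_mod_cast hq2
    linarith
  set E := (2 * d.factorial) * √((2 * d.factorial) / (q - 1)) +
        ((1 + (N : ℝ) ^ 2 * (2 * d.factorial) / q) ^ 2 - 1) with hE
  have hcard : (Fintype.card (Kˣ × (Fin d → K)) : ℝ) = (q - 1) * q ^ d := by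
    rw [Fintype.card_prod, Fintype.card_units K]
    push_cast [Nat.cast_sub (by omega : 1 ≤ Fintype.card K)]
    simp [hqd]
  set S : ℝ := ∑ z' : Fin 3 × Fin d → K, Wt (T.piecewise z z') with hSdef
  have hmain := main_identity T z
  rw [← hSdef, ← hqd] at hmain
  have hterm : ∀ (χ : AddChar (degreeLT K (d + 1)) ℂ) (Y : Fin 3),
      ‖∑ ω, χ (vec T z Y ω)‖ = ((q - 1) * q ^ d) *
        nrm (gf (Sf T Y) (nf T Y) (nf_lt T Y))
        (resX T z Y χ) := by
    intro χ Y
    unfold nrm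
    rw [hcard, mul_div_cancel₀]
    · rfl
    · have : 0 < (q - 1) * q ^ d := by
        apply mul_pos (by linarith) (by positivity)
      exact this.ne'
  have hone : ∏ Y : Fin 3, ∑ ω, (1 : AddChar (degreeLT K (d + 1)) ℂ) (vec T z Y ω) =
      ((((q - 1) * q ^ d) ^ 3 : ℝ) : ℂ) := by
    simp only [AddChar.one_apply, sum_const, card_univ, nsmul_eq_mul, mul_one, prod_const,
      Fintype.card_fin]
    rw [← hcard]
    push_cast
    rfl
  have hdiff : ‖(((q ^ (d + 1) * S - ((q - 1) * q ^ d) ^ 3 : ℝ)) : ℂ)‖ ≤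
      ((q - 1) * q ^ d) ^ 3 * E := by
    rw [Complex.ofReal_sub, hmain, ← hone,
      ← Finset.sum_erase_add univ _ (mem_univ (1 : AddChar (degreeLT K (d + 1)) ℂ)),
      add_sub_cancel_right]
    refine (norm_sum_le _ _).trans ?_
    have herr := err_bound hN T hT z hz
    rw [← hqd, ← hE] at herr
    have hpos : 0 ≤ ((q - 1) * q ^ d) ^ 3 := by
      have : 0 < (q - 1) * q ^ d := mul_pos (by linarith) (by positivity)
      positivity
    refine le_trans (le_of_eq ?_) (mul_le_mul_of_nonneg_left herr hpos)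
    rw [Finset.mul_sum]
    apply Finset.sum_congr rfl
    intro χ _
    rw [norm_prod, Fin.prod_univ_three, hterm, hterm, hterm]
    ring
  rw [Complex.norm_real, Real.norm_eq_abs] at hdiff
  have hw : wbar (Fintype.card K) d = ((q - 1) * q ^ d) ^ 3 / (q ^ (d + 1) * q ^ (3 * d)) := by
    unfold wbar
    rw [← hqd, div_eq_div_iff (by positivity) (by positivity)]
    ring
  have e1 : S / q ^ (3 * d) - wbar (Fintype.card K) d =
      (q ^ (d + 1) * S - ((q - 1) * q ^ d) ^ 3) / (q ^ (d + 1) * q ^ (3 * d)) := by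
    rw [hw]
    field_simp
  rw [e1, abs_div, abs_of_pos (by positivity : 0 < q ^ (d + 1) * q ^ (3 * d)), hw]
  rw [div_le_iff₀ (by positivity)]
  refine hdiff.trans (le_of_eq ?_)
  field_simp

open Filter Topology in
/-- A1. -/
theorem countThm (N d : ℕ) (h : 3 * N ≤ d) : CountThm N d := by
  intro ε hε
  have hlim : Tendsto (fun n : ℕ => (2 * (d.factorial : ℝ)) * √((2 * d.factorial) / ((n : ℝ) - 1)) +
        ((1 + (N : ℝ) ^ 2 * (2 * d.factorial) / (n : ℝ)) ^ 2 - 1)) atTop (𝓝 0) := by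
    have hn : Tendsto (fun n : ℕ => (n : ℝ)) atTop atTop := tendsto_natCast_atTop_atTop
    have hn1 : Tendsto (fun n : ℕ => (n : ℝ) - 1) atTop atTop :=
      tendsto_atTop_add_const_right _ _ hn
    have l1 : Tendsto (fun n : ℕ => (2 * (d.factorial : ℝ)) / ((n : ℝ) - 1)) atTop (𝓝 0) :=
      hn1.const_div_atTop _
    have l2 : Tendsto (fun n : ℕ => (N : ℝ) ^ 2 * (2 * d.factorial) / (n : ℝ)) atTop (𝓝 0) :=
      hn.const_div_atTop _
    have l3 : Tendsto (fun n : ℕ => √((2 * (d.factorial : ℝ)) / ((n : ℝ) - 1))) atTop (𝓝 0) := by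
      have := l1.sqrt
      rwa [Real.sqrt_zero] at this
    have l4 := (l3.const_mul (2 * (d.factorial : ℝ))).add (((l2.const_add 1).pow 2).sub_const 1)
    simpa using l4
  have hev : ∀ᶠ n : ℕ in atTop, (2 * (d.factorial : ℝ)) * √((2 * d.factorial) / ((n : ℝ) - 1)) +
        ((1 + (N : ℝ) ^ 2 * (2 * d.factorial) / (n : ℝ)) ^ 2 - 1) < ε :=
    hlim.eventually (gt_mem_nhds hε)
  obtain ⟨q0, hq0⟩ := Filter.eventually_atTop.1 hev
  refine ⟨q0, ?_⟩
  intro K _ _ _ hK T hT z hz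
  refine (count_explicit (by omega) T hT z hz).trans ?_
  have hw : 0 ≤ wbar (Fintype.card K) d := by
    unfold wbar
    have hq2 : 2 ≤ Fintype.card K := Fintype.one_lt_card
    have : (2 : ℝ) ≤ Fintype.card K := by exact_mod_cast hq2
    have h1 : (0 : ℝ) ≤ (Fintype.card K : ℝ) - 1 := by linarith
    positivity
  exact mul_le_mul_of_nonneg_right (hq0 _ hK).le hw

end H39Gon
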