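import Pool.Agent.H39R2.Gon.Base

/-!
# Task D1: `koszul_step`
-/

namespace H39Gon

open Finset Function

section D1

variable {V : Type} [AddCommGroup V]

omit [AddCommGroup V] in
theorem D1_insertNth {n : ℕ} (i : Fin (n + 1)) (u s : V) :
    (i.insertNth u (fun _ => s) : Fin (n + 1) → V) = Function.update (fun _ => s) i u := by
  funext k
  rcases Fin.eq_self_or_eq_succAbove i k with h | ⟨l, h⟩
  · rw [h]; simp
  · rw [h]; simp

/-- polarisation: if the diagonal of `M` vanishes then so does its first derivative -/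
theorem D1_pol {n : ℕ} (M : MultilinearMap ℤ (fun _ : Fin n => V) ℚ)
    (h : ∀ s : V, M (fun _ => s) = 0) (s u : V) :
    ∑ i : Fin n, M (Function.update (fun _ => s) i u) = 0 := by
  classical
  have key : ∀ t : ℕ, (t : ℚ) * ∑ i : Fin n, M (Function.update (fun _ => s) i u) +
      ∑ S : Finset (Fin n) with 2 ≤ #S,
        (t : ℚ) ^ (#S) * M (S.piecewise (fun _ => u) (fun _ => s)) = 0 := by
    intro t
    have e := M.map_add_eq_map_add_linearDeriv_add (fun _ => s) (fun _ => (t : ℤ) • u)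
    have e0 : ((fun _ => s) + (fun _ => (t : ℤ) • u) : Fin n → V) = fun _ => s + (t : ℤ) • u := rfl
    rw [e0, h, h, zero_add, MultilinearMap.linearDeriv_apply] at e
    have e1 : ∀ i, M (Function.update (fun _ => s) i ((t : ℤ) • u)) =
        (t : ℚ) * M (Function.update (fun _ => s) i u) := by
      intro i
      rw [M.map_update_smul, zsmul_eq_mul]
      norm_cast
    have e2 : ∀ S : Finset (Fin n), M (S.piecewise (fun _ => (t : ℤ) • u) (fun _ => s)) =
        (t : ℚ) ^ (#S) * M (S.piecewise (fun _ => u) (fun _ => s)) := by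
      intro S
      have e3 := M.map_piecewise_smul (fun _ => (t : ℤ)) (S.piecewise (fun _ => u) (fun _ => s)) S
      have e4 : S.piecewise (fun i => (t : ℤ) • S.piecewise (fun _ => u) (fun _ => s) i)
          (S.piecewise (fun _ => u) (fun _ => s)) =
          (S.piecewise (fun _ => (t : ℤ) • u) (fun _ => s) : Fin n → V) := by
        funext i
        by_cases hi : i ∈ S <;> simp [hi]
      rw [e4, Finset.prod_const, zsmul_eq_mul] at e3
      rw [e3]
      norm_cast
    rw [e, mul_sum]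
    congr 1
    · exact Finset.sum_congr rfl fun i _ => (e1 i).symm
    · exact Finset.sum_congr rfl fun S _ => (e2 S).symm
  set c : ℚ := ∑ i : Fin n, M (Function.update (fun _ => s) i u) with hc
  set P : Polynomial ℚ := Polynomial.C c * Polynomial.X +
    ∑ S : Finset (Fin n) with 2 ≤ #S,
      Polynomial.C (M (S.piecewise (fun _ => u) (fun _ => s))) * Polynomial.X ^ (#S) with hP
  have hP0 : P = 0 := by
    refine Polynomial.eq_zero_of_infinite_isRoot P ?_
    refine Set.Infinite.mono ?_ (Set.infinite_range_of_injective (Nat.cast_injective (R := ℚ)))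
    rintro _ ⟨t, rfl⟩
    change Polynomial.eval (t : ℚ) P = 0
    rw [hP, Polynomial.eval_add, Polynomial.eval_mul, Polynomial.eval_C, Polynomial.eval_X,
      Polynomial.eval_finsetSum, ← key t]
    congr 1
    · ring
    · refine Finset.sum_congr rfl fun S _ => ?_
      rw [Polynomial.eval_mul, Polynomial.eval_C, Polynomial.eval_pow, Polynomial.eval_X]
      ring
  have h1 : P.coeff 1 = c := by
    rw [hP, Polynomial.coeff_add, Polynomial.finsetSum_coeff]
    have : ∀ S ∈ (Finset.univ.filter fun S : Finset (Fin n) => 2 ≤ #S),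
        (Polynomial.C (M (S.piecewise (fun _ => u) (fun _ => s))) *
          Polynomial.X ^ (#S)).coeff 1 = 0 := by
      intro S hS
      rw [Polynomial.coeff_C_mul, Polynomial.coeff_X_pow, if_neg, mul_zero]
      have := (Finset.mem_filter.1 hS).2
      omega
    rw [Finset.sum_eq_zero this, add_zero, Polynomial.coeff_C_mul, Polynomial.coeff_X_one,
      mul_one]
  rw [← h1, hP0, Polynomial.coeff_zero]

end D1

section D1g

variable {R : Type} [CommRing R] {V : Type} [AddCommGroup V] [Module R V]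
  {X : Type} [AddCommGroup X] [Module R X] {Y : Type} [AddCommGroup Y] [Module R Y]

/-- the derivative of a multilinear map, on tuples -/
def D1_kd {a : ℕ} (Q : MultilinearMap R (fun _ : Fin (a + 1) => V) X) :
    MultilinearMap R (fun _ : Fin a => V) (V →ₗ[R] X) where
  toFun s :=
    { toFun := fun u => ∑ i : Fin (a + 1), Q.curryMid i u s
      map_add' := fun u u' => by
        rw [← Finset.sum_add_distrib]
        refine Finset.sum_congr rfl fun i _ => ?_
        rw [(Q.curryMid i).map_add]; rfl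
      map_smul' := fun c u => by
        rw [Finset.smul_sum]
        refine Finset.sum_congr rfl fun i _ => ?_
        rw [(Q.curryMid i).map_smul]; rfl }
  map_update_add' s i x y := by
    ext u
    change ∑ k : Fin (a + 1), Q.curryMid k u (Function.update s i (x + y)) =
      ∑ k : Fin (a + 1), Q.curryMid k u (Function.update s i x) +
        ∑ k : Fin (a + 1), Q.curryMid k u (Function.update s i y)
    rw [← Finset.sum_add_distrib]
    exact Finset.sum_congr rfl fun k _ => (Q.curryMid k u).map_update_add s i x y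
  map_update_smul' s i c x := by
    ext u
    change ∑ k : Fin (a + 1), Q.curryMid k u (Function.update s i (c • x)) =
      c • ∑ k : Fin (a + 1), Q.curryMid k u (Function.update s i x)
    rw [Finset.smul_sum]
    exact Finset.sum_congr rfl fun k _ => (Q.curryMid k u).map_update_smul s i c x

theorem D1_kd_apply {a : ℕ} (Q : MultilinearMap R (fun _ : Fin (a + 1) => V) X) (s : Fin a → V)
    (u : V) : D1_kd Q s u = ∑ i : Fin (a + 1), Q (i.insertNth u s) := rfl

theorem D1_kd_comp {a : ℕ} (Q : MultilinearMap R (fun _ : Fin (a + 1) => V) X) (g : X →ₗ[R] Y)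
    (s : Fin a → V) (u : V) : D1_kd (g.compMultilinearMap Q) s u = g (D1_kd Q s u) := by
  rw [D1_kd_apply, D1_kd_apply, map_sum]
  rfl

theorem D1_kd_self {a : ℕ} (Q : MultilinearMap R (fun _ : Fin (a + 1) => V) X) (s : V) :
    D1_kd Q (fun _ => s) s = (a + 1) • Q (fun _ => s) := by
  rw [D1_kd_apply]
  have : ∀ i : Fin (a + 1), Q (i.insertNth s (fun _ => s)) = Q (fun _ => s) := by
    intro i
    rw [D1_insertNth, Function.update_eq_self i (fun _ => s)]
  simp only [this, Finset.sum_const, Finset.card_univ, Fintype.card_fin]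

end D1g

section D1

variable {V : Type} [AddCommGroup V]

/-- polarisation with one more linear variable -/
theorem D1_pol' {a : ℕ} (M : MultilinearMap ℤ (fun _ : Fin (a + 1) => V) (V →ₗ[ℤ] ℚ))
    (h : ∀ s : V, M (fun _ => s) s = 0) (s u : V) :
    D1_kd M (fun _ => s) u s + M (fun _ => s) u = 0 := by
  have h1 := D1_pol (MultilinearMap.uncurryRight (M := fun _ : Fin (a + 2) => V) M)
    (fun s => by rw [MultilinearMap.uncurryRight_apply]; exact h s) s u
  rw [Fin.sum_univ_castSucc] at h1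
  simp only [MultilinearMap.uncurryRight_apply] at h1
  have e1 : ∀ k : Fin (a + 1), Fin.init (Function.update (fun _ : Fin (a + 2) => s)
      (Fin.castSucc k) u) = (k.insertNth u (fun _ => s) : Fin (a + 1) → V) := by
    intro k
    rw [D1_insertNth]
    exact Fin.init_update_castSucc _ _ _
  have e2 : ∀ k : Fin (a + 1), Function.update (fun _ : Fin (a + 2) => s)
      (Fin.castSucc k) u (Fin.last (a + 1)) = s := by
    intro k
    rw [Function.update_of_ne (Fin.castSucc_lt_last k).ne']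
  have e3 : Fin.init (Function.update (fun _ : Fin (a + 2) => s) (Fin.last (a + 1)) u) =
      fun _ => s := Fin.init_update_last _ _
  have e4 : Function.update (fun _ : Fin (a + 2) => s) (Fin.last (a + 1)) u (Fin.last (a + 1)) =
      u := Function.update_self _ _ _
  simp only [e1, e2, e3, e4] at h1
  rw [D1_kd_apply, LinearMap.sum_apply]
  exact h1

/-- `f ↦ (w ↦ f (w, y))` -/
def D1_consLM {i : ℕ} (y : Fin i → V) : (V [⋀^Fin (i + 1)]→ₗ[ℤ] ℚ) →ₗ[ℤ] (V →ₗ[ℤ] ℚ) where
  toFun f :=
    { toFun := fun w => f (Fin.cons w y)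
      map_add' := fun w w' => by
        have := congrArg (fun g : V [⋀^Fin i]→ₗ[ℤ] ℚ => g y) (map_add f.curryLeft w w')
        exact this
      map_smul' := fun c w => by
        have := congrArg (fun g : V [⋀^Fin i]→ₗ[ℤ] ℚ => g y) (map_smul f.curryLeft c w)
        exact this }
  map_add' f g := by ext w; rfl
  map_smul' c f := by ext w; rfl

omit [AddCommGroup V] in
theorem D1_removeNth {i : ℕ} (k : Fin (i + 1)) (s : V) (y : Fin (i + 1) → V) :
    k.succ.removeNth (Fin.cons s y : Fin (i + 2) → V) = Fin.cons s (k.removeNth y) := by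
  funext l
  refine Fin.cases ?_ (fun l => ?_) l
  · simp [Fin.removeNth_apply]
  · simp [Fin.removeNth_apply]

/-- the homotopy formula -/
theorem D1_hom {a j : ℕ} (R : MultilinearMap ℤ (fun _ : Fin (a + 1) => V) (V [⋀^Fin j]→ₗ[ℤ] ℚ))
    (hD : ∀ (i : ℕ) (hi : j = i + 1) (s : V) (y : Fin i → V),
      R (fun _ => s) ((Fin.cons s y : Fin (i + 1) → V) ∘ Fin.cast hi) = 0)
    (s : V) (y : Fin j → V) :
    AlternatingMap.alternatizeUncurryFin (D1_kd R (fun _ => s)) (Fin.cons s y) =
      ((a : ℚ) + 1 + j) * R (fun _ => s) y := by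
  rw [AlternatingMap.alternatizeUncurryFin_apply, Fin.sum_univ_succ]
  have e0 : (-1 : ℤ) ^ ((0 : Fin (j + 1)) : ℕ) • (D1_kd R (fun _ => s)
      ((Fin.cons s y : Fin (j + 1) → V) 0))
      ((0 : Fin (j + 1)).removeNth (Fin.cons s y : Fin (j + 1) → V)) =
      ((a : ℚ) + 1) * R (fun _ => s) y := by
    have e : (0 : Fin (j + 1)).removeNth (Fin.cons s y : Fin (j + 1) → V) = y := by
      funext l; simp [Fin.removeNth_apply]
    rw [e, Fin.cons_zero, D1_kd_self]
    simp [nsmul_eq_mul]
  rw [e0]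
  have e1 : ∀ k : Fin j, (-1 : ℤ) ^ ((k.succ : Fin (j + 1)) : ℕ) • (D1_kd R (fun _ => s)
      ((Fin.cons s y : Fin (j + 1) → V) k.succ))
        (k.succ.removeNth (Fin.cons s y : Fin (j + 1) → V)) =
      R (fun _ => s) y := by
    intro k
    obtain ⟨i, rfl⟩ : ∃ i, j = i + 1 := ⟨j - 1, by have := k.isLt; omega⟩
    rw [D1_removeNth, Fin.cons_succ]
    have h1 := D1_pol' ((D1_consLM (k.removeNth y)).compMultilinearMap R)
      (fun s => hD i rfl s (k.removeNth y)) s (y k)
    rw [D1_kd_comp] at h1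
    have h2 : D1_kd R (fun _ => s) (y k) (Fin.cons s (k.removeNth y)) =
        -(R (fun _ => s) (Fin.cons (y k) (k.removeNth y))) := by
      have h3 : D1_kd R (fun _ => s) (y k) (Fin.cons s (k.removeNth y)) +
        R (fun _ => s) (Fin.cons (y k) (k.removeNth y)) = 0 := h1
      linarith
    have h4 : R (fun _ => s) (Fin.cons (y k) (k.removeNth y)) =
        (-1 : ℤ) ^ (k : ℕ) • R (fun _ => s) y := by
      have := AlternatingMap.neg_one_pow_smul_map_insertNth (R (fun _ => s)) k (y k)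
        (k.removeNth y)
      rw [Fin.insertNth_self_removeNth] at this
      exact this.symm
    rw [h2, h4, Fin.val_succ, pow_succ, ← smul_neg, smul_smul]
    have h5 : (-1 : ℤ) ^ (k : ℕ) * -1 * (-1) ^ (k : ℕ) = -1 := by
      have : (-1 : ℤ) ^ (k : ℕ) * (-1) ^ (k : ℕ) = 1 := by
        rw [← pow_add]; exact Even.neg_one_pow ⟨_, rfl⟩
      linear_combination (-1) * this
    rw [h5]; simp
  rw [Finset.sum_congr rfl fun k _ => e1 k]
  simp only [Finset.sum_const, Finset.card_univ, Fintype.card_fin, nsmul_eq_mul]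
  ring

/-- `f ↦ (v ↦ alt (u ↦ f u v))` -/
def D1_altFlip (j : ℕ) : (V →ₗ[ℤ] (V →ₗ[ℤ] (V [⋀^Fin j]→ₗ[ℤ] ℚ))) →ₗ[ℤ]
    (V →ₗ[ℤ] (V [⋀^Fin (j + 1)]→ₗ[ℤ] ℚ)) where
  toFun f := (AlternatingMap.alternatizeUncurryFinLM).comp f.flip
  map_add' f g := by
    ext v y
    simp [LinearMap.comp_apply, AlternatingMap.alternatizeUncurryFin_apply,
      Finset.sum_add_distrib]
  map_smul' c f := by
    ext v y
    simp [LinearMap.comp_apply, AlternatingMap.alternatizeUncurryFin_apply,
      Finset.mul_sum, mul_left_comm]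

/-- `f ↦ (w ↦ (v ↦ (f v) (w, ·)))` -/
def D1_curFlip (j : ℕ) : (V →ₗ[ℤ] (V [⋀^Fin (j + 1)]→ₗ[ℤ] ℚ)) →ₗ[ℤ]
    (V →ₗ[ℤ] (V →ₗ[ℤ] (V [⋀^Fin j]→ₗ[ℤ] ℚ))) where
  toFun f := ((AlternatingMap.curryLeftLinearMap).comp f).flip
  map_add' f g := by
    ext w v y
    rfl
  map_smul' c f := by
    ext w v y
    rfl

end D1

/-- K1. -/
theorem koszul_step {V : Type} [AddCommGroup V] (m j : ℕ)
    (Q : MultilinearMap ℤ (fun _ : Fin (m + 2) => V) (V →ₗ[ℤ] (V [⋀^Fin j]→ₗ[ℤ] ℚ)))
    (hS : ∀ s : V, Q (fun _ => s) s = 0)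
    (hD : ∀ (i : ℕ) (hi : j = i + 1) (s v : V) (y : Fin i → V),
      Q (fun _ => s) v ((Fin.cons s y : Fin (i + 1) → V) ∘ Fin.cast hi) = 0) :
    ∃ Q' : MultilinearMap ℤ (fun _ : Fin (m + 1) => V) (V →ₗ[ℤ] (V [⋀^Fin (j + 1)]→ₗ[ℤ] ℚ)),
      (∀ s : V, Q' (fun _ => s) s = 0) ∧
      ∀ (s v : V) (y : Fin j → V), Q' (fun _ => s) v (Fin.cons s y) = Q (fun _ => s) v y := by
  set c : ℚ := (m : ℚ) + 2 + j with hc
  have hc0 : c ≠ 0 := by positivity
  have hc1 : c + 1 ≠ 0 := by positivity
  -- evaluation at `v`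
  let ev : V → ((V →ₗ[ℤ] (V [⋀^Fin j]→ₗ[ℤ] ℚ)) →ₗ[ℤ] (V [⋀^Fin j]→ₗ[ℤ] ℚ)) := fun v =>
    LinearMap.applyₗ v
  let HQ : MultilinearMap ℤ (fun _ : Fin (m + 1) => V) (V →ₗ[ℤ] (V [⋀^Fin (j + 1)]→ₗ[ℤ] ℚ)) :=
    (D1_altFlip j).compMultilinearMap (D1_kd Q)
  let ω : MultilinearMap ℤ (fun _ : Fin (m + 2) => V) (V [⋀^Fin (j + 1)]→ₗ[ℤ] ℚ) :=
    (AlternatingMap.alternatizeUncurryFinLM).compMultilinearMap Q
  let ρ : MultilinearMap ℤ (fun _ : Fin (m + 1) => V) (V [⋀^Fin (j + 2)]→ₗ[ℤ] ℚ) :=
    (AlternatingMap.alternatizeUncurryFinLM).compMultilinearMap (D1_kd ω)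
  let E : MultilinearMap ℤ (fun _ : Fin (m + 1) => V) (V →ₗ[ℤ] (V [⋀^Fin (j + 1)]→ₗ[ℤ] ℚ)) :=
    MultilinearMap.uncurryRight (M := fun _ : Fin (m + 1) => V)
      ((D1_curFlip (j + 1)).compMultilinearMap
        (MultilinearMap.curryRight (M := fun _ : Fin (m + 1) => V) ρ))
  have hHQ : ∀ s v : V, HQ (fun _ => s) v = AlternatingMap.alternatizeUncurryFin
      (D1_kd ((ev v).compMultilinearMap Q) (fun _ => s)) := by
    intro s v
    have : D1_kd ((ev v).compMultilinearMap Q) (fun _ => s) = (D1_kd Q (fun _ => s)).flip v := by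
      ext1 u
      rw [D1_kd_comp]
      rfl
    rw [this]
    rfl
  have hE : ∀ (s v : V) (y : Fin (j + 1) → V), E (fun _ => s) v y =
      ρ (Fin.snoc (fun _ : Fin m => s) v) (Fin.cons s y) := fun s v y => rfl
  have hω : ∀ s : V, ω (fun _ => s) = AlternatingMap.alternatizeUncurryFin (Q (fun _ => s)) :=
    fun s => rfl
  have hρ : ∀ s : V, ρ (fun _ => s) = AlternatingMap.alternatizeUncurryFin (D1_kd ω (fun _ => s)) :=
    fun s => rfl
  -- `D ω = 0`
  have hDω : ∀ (i : ℕ) (hi : j + 1 = i + 1) (s : V) (y : Fin i → V),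
      ω (fun _ => s) ((Fin.cons s y : Fin (i + 1) → V) ∘ Fin.cast hi) = 0 := by
    intro i hi s y
    obtain rfl : j = i := by omega
    change ω (fun _ => s) (Fin.cons s y) = 0
    rw [hω, AlternatingMap.alternatizeUncurryFin_apply, Fin.sum_univ_succ]
    rw [Fin.cons_zero, hS s]
    have : ∀ k : Fin j, (-1 : ℤ) ^ ((k.succ : Fin (j + 1)) : ℕ) • (Q (fun _ => s)
        ((Fin.cons s y : Fin (j + 1) → V) k.succ))
        (k.succ.removeNth (Fin.cons s y : Fin (j + 1) → V)) = 0 := by
      intro k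
      obtain ⟨i, rfl⟩ : ∃ i, j = i + 1 := ⟨j - 1, by have := k.isLt; omega⟩
      rw [D1_removeNth, Fin.cons_succ]
      have h1 : Q (fun _ => s) (y k) (Fin.cons s (k.removeNth y)) = 0 :=
        hD i rfl s (y k) (k.removeNth y)
      rw [h1, smul_zero]
    rw [Finset.sum_eq_zero fun k _ => this k]
    simp
  refine ⟨c⁻¹ • HQ + (c⁻¹ * (c + 1)⁻¹) • E, ?_, ?_⟩
  · intro s
    ext y
    have h1 : HQ (fun _ => s) s y = -(ω (fun _ => s) y) := by
      rw [hHQ, hω, AlternatingMap.alternatizeUncurryFin_apply,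
        AlternatingMap.alternatizeUncurryFin_apply, ← Finset.sum_neg_distrib]
      refine Finset.sum_congr rfl fun i _ => ?_
      rw [← smul_neg]
      congr 1
      -- evaluation at `s` and `ŷ_i`
      let g : (V [⋀^Fin j]→ₗ[ℤ] ℚ) →ₗ[ℤ] ℚ :=
        { toFun := fun f => f (i.removeNth y)
          map_add' := fun f g => rfl
          map_smul' := fun c f => rfl }
      let G : (V →ₗ[ℤ] (V [⋀^Fin j]→ₗ[ℤ] ℚ)) →ₗ[ℤ] (V →ₗ[ℤ] ℚ) :=
        { toFun := fun f => g.comp f
          map_add' := fun f g => by ext; rfl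
          map_smul' := fun c f => by ext; rfl }
      have h2 := D1_pol' (G.compMultilinearMap Q) (fun s => by
        change (Q (fun _ => s) s) (i.removeNth y) = 0
        rw [hS s]; rfl) s (y i)
      rw [D1_kd_comp] at h2
      have h3 : (D1_kd Q (fun _ => s) (y i)) s (i.removeNth y) +
        Q (fun _ => s) (y i) (i.removeNth y) = 0 := h2
      have h4 : (D1_kd ((ev s).compMultilinearMap Q) (fun _ => s)) (y i) (i.removeNth y) =
          (D1_kd Q (fun _ => s) (y i)) s (i.removeNth y) := by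
        rw [D1_kd_comp]; rfl
      rw [h4]
      linarith
    have h2 : E (fun _ => s) s y = (c + 1) * ω (fun _ => s) y := by
      rw [hE]
      have e : (Fin.snoc (fun _ : Fin m => s) s : Fin (m + 1) → V) = fun _ => s := by
        funext k
        refine Fin.lastCases ?_ (fun k => ?_) k <;> simp
      rw [e, hρ, D1_hom ω hDω s y, hc]
      push_cast
      ring
    change c⁻¹ * HQ (fun _ => s) s y + (c⁻¹ * (c + 1)⁻¹) * E (fun _ => s) s y = 0
    rw [h1, h2]
    field_simp
    ring
  · intro s v y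
    have h1 : HQ (fun _ => s) v (Fin.cons s y) = c * Q (fun _ => s) v y := by
      rw [hHQ, D1_hom ((ev v).compMultilinearMap Q) (fun i hi s y => hD i hi s v y) s y, hc]
      have : ((ev v).compMultilinearMap Q) (fun _ => s) y = Q (fun _ => s) v y := rfl
      rw [this]
      push_cast
      ring
    have h2 : E (fun _ => s) v (Fin.cons s y) = 0 := by
      rw [hE]
      refine AlternatingMap.map_eq_zero_of_eq _ _ (i := 0) (j := 1) ?_ (by simp)
      simp [Fin.cons_one]
    change c⁻¹ * HQ (fun _ => s) v (Fin.cons s y) +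
      (c⁻¹ * (c + 1)⁻¹) * E (fun _ => s) v (Fin.cons s y) = Q (fun _ => s) v y
    rw [h1, h2]
    field_simp
    ring

end H39Gon
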