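import Pool.Agent.H39R2.Gon.Base

/-!
# Task D2: the last Koszul step
-/

namespace H39Gon

open scoped TensorProduct

namespace TD2

variable {V : Type} [AddCommGroup V]

/-- the multilinear map `z ↦ Q (z 1) (z 0) (z 2, z 3, …)`. -/
noncomputable def mm {j : ℕ} (Q : V →ₗ[ℤ] (V →ₗ[ℤ] (V [⋀^Fin j]→ₗ[ℤ] ℚ))) :
    MultilinearMap ℤ (fun _ : Fin (j + 2) => V) ℚ :=
  MultilinearMap.mk' (fun z => Q (z 1) (z 0) (fun i => z i.succ.succ))
    (by
      intro z i x y
      refine Fin.cases ?_ (fun i' => ?_) i
      · have h1 : ∀ w : V, Function.update z 0 w 1 = z 1 := fun w => by simp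
        have h2 : ∀ w : V, (fun k : Fin j => Function.update z 0 w k.succ.succ) =
            fun k : Fin j => z k.succ.succ := fun w => by
          funext k; rw [Function.update_of_ne (Fin.succ_ne_zero _)]
        rw [h1, h1, h1, h2, h2, h2, Function.update_self, Function.update_self,
          Function.update_self, map_add, AlternatingMap.add_apply]
      · refine Fin.cases ?_ (fun k => ?_) i'
        · have h1 : ∀ w : V, Function.update z (Fin.succ 0) w 0 = z 0 := fun w => by
            rw [Function.update_of_ne (Fin.succ_ne_zero _).symm]
          have h2 : ∀ w : V, (fun k : Fin j => Function.update z (Fin.succ 0) w k.succ.succ) =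
              fun k : Fin j => z k.succ.succ := fun w => by
            funext k
            rw [Function.update_of_ne (fun h => Fin.succ_ne_zero _ (Fin.succ_injective _ h))]
          have h3 : ∀ w : V, Function.update z (Fin.succ 0) w 1 = w := fun w => by
            rw [show (1 : Fin (j + 2)) = Fin.succ 0 from rfl, Function.update_self]
          rw [h1, h1, h1, h2, h2, h2, h3, h3, h3, map_add, LinearMap.add_apply,
            AlternatingMap.add_apply]
        · have h1 : ∀ w : V, Function.update z k.succ.succ w 0 = z 0 := fun w => by
            rw [Function.update_of_ne (Fin.succ_ne_zero _).symm]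
          have h3 : ∀ w : V, Function.update z k.succ.succ w 1 = z 1 := fun w => by
            rw [show (1 : Fin (j + 2)) = Fin.succ 0 from rfl,
              Function.update_of_ne (fun h => Fin.succ_ne_zero _ (Fin.succ_injective _ h).symm)]
          have h2 : ∀ w : V, (fun l : Fin j => Function.update z k.succ.succ w l.succ.succ) =
              Function.update (fun l : Fin j => z l.succ.succ) k w := fun w => by
            funext l
            by_cases h : l = k
            · subst h; simp
            · rw [Function.update_of_ne h, Function.update_of_ne]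
              intro hc
              exact h (Fin.succ_injective _ (Fin.succ_injective _ hc))
          rw [h1, h1, h1, h2, h2, h2, h3, h3, h3, AlternatingMap.map_update_add])
    (by
      intro z i c x
      refine Fin.cases ?_ (fun i' => ?_) i
      · have h1 : ∀ w : V, Function.update z 0 w 1 = z 1 := fun w => by simp
        have h2 : ∀ w : V, (fun k : Fin j => Function.update z 0 w k.succ.succ) =
            fun k : Fin j => z k.succ.succ := fun w => by
          funext k; rw [Function.update_of_ne (Fin.succ_ne_zero _)]
        rw [h1, h1, h2, h2, Function.update_self, Function.update_self,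
          map_smul, AlternatingMap.smul_apply]
      · refine Fin.cases ?_ (fun k => ?_) i'
        · have h1 : ∀ w : V, Function.update z (Fin.succ 0) w 0 = z 0 := fun w => by
            rw [Function.update_of_ne (Fin.succ_ne_zero _).symm]
          have h2 : ∀ w : V, (fun k : Fin j => Function.update z (Fin.succ 0) w k.succ.succ) =
              fun k : Fin j => z k.succ.succ := fun w => by
            funext k
            rw [Function.update_of_ne (fun h => Fin.succ_ne_zero _ (Fin.succ_injective _ h))]
          have h3 : ∀ w : V, Function.update z (Fin.succ 0) w 1 = w := fun w => by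
            rw [show (1 : Fin (j + 2)) = Fin.succ 0 from rfl, Function.update_self]
          rw [h1, h1, h2, h2, h3, h3, map_smul, LinearMap.smul_apply,
            AlternatingMap.smul_apply]
        · have h1 : ∀ w : V, Function.update z k.succ.succ w 0 = z 0 := fun w => by
            rw [Function.update_of_ne (Fin.succ_ne_zero _).symm]
          have h3 : ∀ w : V, Function.update z k.succ.succ w 1 = z 1 := fun w => by
            rw [show (1 : Fin (j + 2)) = Fin.succ 0 from rfl,
              Function.update_of_ne (fun h => Fin.succ_ne_zero _ (Fin.succ_injective _ h).symm)]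
          have h2 : ∀ w : V, (fun l : Fin j => Function.update z k.succ.succ w l.succ.succ) =
              Function.update (fun l : Fin j => z l.succ.succ) k w := fun w => by
            funext l
            by_cases h : l = k
            · subst h; simp
            · rw [Function.update_of_ne h, Function.update_of_ne]
              intro hc
              exact h (Fin.succ_injective _ (Fin.succ_injective _ hc))
          rw [h1, h1, h2, h2, h3, h3, AlternatingMap.map_update_smul])

lemma mm_apply {j : ℕ} (Q : V →ₗ[ℤ] (V →ₗ[ℤ] (V [⋀^Fin j]→ₗ[ℤ] ℚ))) (z : Fin (j + 2) → V) :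
    mm Q z = Q (z 1) (z 0) (fun i => z i.succ.succ) := rfl

lemma skew {j : ℕ} (Q : V →ₗ[ℤ] (V →ₗ[ℤ] (V [⋀^Fin j]→ₗ[ℤ] ℚ))) (hS : ∀ s : V, Q s s = 0)
    (s v : V) (y : Fin j → V) : Q s v y = - Q v s y := by
  have h := hS (s + v)
  rw [map_add Q s v, LinearMap.add_apply, map_add (Q s), map_add (Q v), hS, hS, zero_add, add_zero] at h
  have h2 := congrArg (fun f : V [⋀^Fin j]→ₗ[ℤ] ℚ => f y) h
  simp only [AlternatingMap.add_apply, AlternatingMap.zero_apply] at h2
  linarith

lemma vanish {j : ℕ} (Q : V →ₗ[ℤ] (V →ₗ[ℤ] (V [⋀^Fin j]→ₗ[ℤ] ℚ)))
    (hD : ∀ (i : ℕ) (hi : j = i + 1) (s v : V) (y : Fin i → V),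
      Q s v ((Fin.cons s y : Fin (i + 1) → V) ∘ Fin.cast hi) = 0)
    (s v : V) (y : Fin j → V) (k : Fin j) (hk : y k = s) : Q s v y = 0 := by
  cases j with
  | zero => exact k.elim0
  | succ i =>
    have h0 : ∀ y' : Fin (i + 1) → V, y' 0 = s → Q s v y' = 0 := by
      intro y' hy'
      have h := hD i rfl s v (Fin.tail y')
      have h2 : (Fin.cons s (Fin.tail y') : Fin (i + 1) → V) ∘ Fin.cast rfl = y' := by
        funext a
        simp only [Function.comp_apply, Fin.cast_eq_self]
        rw [← hy', Fin.cons_self_tail]
      rwa [h2] at h
    by_cases hk0 : k = 0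
    · subst hk0; exact h0 y hk
    · have h1 := AlternatingMap.map_swap (Q s v) y (Ne.symm hk0 : (0 : Fin (i + 1)) ≠ k)
      have h2 : Q s v (y ∘ Equiv.swap 0 k) = 0 := h0 _ (by simp [hk])
      rw [h2] at h1
      linarith

end TD2

open TD2 in
/-- K2: the last step. -/
theorem koszul_last {V : Type} [AddCommGroup V] (j : ℕ)
    (Q : V →ₗ[ℤ] (V →ₗ[ℤ] (V [⋀^Fin j]→ₗ[ℤ] ℚ)))
    (hS : ∀ s : V, Q s s = 0)
    (hD : ∀ (i : ℕ) (hi : j = i + 1) (s v : V) (y : Fin i → V),
      Q s v ((Fin.cons s y : Fin (i + 1) → V) ∘ Fin.cast hi) = 0) :
    ∃ Θ : V [⋀^Fin (j + 2)]→ₗ[ℤ] ℚ,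
      ∀ (s v : V) (y : Fin j → V), Θ (Fin.cons v (Fin.cons s y)) = Q s v y := by
  refine ⟨{ mm Q with map_eq_zero_of_eq' := ?_ }, ?_⟩
  · have key : ∀ (z : Fin (j + 2) → V) (a b : Fin (j + 2)), a < b → z a = z b →
        Q (z 1) (z 0) (fun i => z i.succ.succ) = 0 := by
      intro z a b hab hz
      revert hab hz
      refine Fin.cases ?_ (fun a' => ?_) a
      · refine Fin.cases ?_ (fun b' => ?_) b
        · intro h; exact absurd h (lt_irrefl _)
        · refine Fin.cases ?_ (fun k => ?_) b'
          · intro _ h
            have h' : z 0 = z 1 := h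
            rw [h', hS]; rfl
          · intro _ h
            rw [skew Q hS]
            rw [vanish Q hD (z 0) (z 1) _ k h.symm, neg_zero]
      · refine Fin.cases ?_ (fun a'' => ?_) a'
        · refine Fin.cases ?_ (fun b' => ?_) b
          · intro h; exact absurd h (by simp)
          · refine Fin.cases ?_ (fun k => ?_) b'
            · intro h; exact absurd h (lt_irrefl _)
            · intro _ h
              have h' : z 1 = z k.succ.succ := h
              exact vanish Q hD (z 1) (z 0) _ k h'.symm
        · refine Fin.cases ?_ (fun b' => ?_) b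
          · intro h; exact absurd h (by simp)
          · refine Fin.cases ?_ (fun k => ?_) b'
            · intro h
              exact absurd h (by
                rw [Fin.succ_lt_succ_iff]; simp)
            · intro h1 h
              refine AlternatingMap.map_eq_zero_of_eq _ _ (i := a'') (j := k) h ?_
              rintro rfl
              exact lt_irrefl _ h1
    intro z a b hz hab
    rcases lt_or_gt_of_ne hab with h | h
    · exact key z a b h hz
    · exact key z b a h hz.symm
  · intro s v y
    show mm Q (Fin.cons v (Fin.cons s y)) = _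
    rw [mm_apply]
    rfl

end H39Gon
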