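import Mathlib

/-!
# Goncharov's groups `B_n(F)` and the polylogarithmic complexes (definitions)
-/

namespace H39Gon

open scoped TensorProduct

/-- `P^1(F) = F ∪ {∞}`, `none` is `∞`. -/
abbrev P1 (F : Type) : Type := Option F

/-- `ℤ[P^1_F]`. -/
abbrev ZP (F : Type) : Type := P1 F →₀ ℤ

/-- `F^*`, written additively. -/
abbrev UV (F : Type) [Field F] : Type := Additive Fˣ

open Classical in
/-- the class of `x` in `F^*` (written additively); by convention `0` (the neutral element)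
for `x = 0`. -/
noncomputable def cl {F : Type} [Field F] (x : F) : UV F :=
  if h : x = 0 then 0 else Additive.ofMul (Units.mk0 x h)

open Classical in
/-- value of `f ∈ F(t)` at `t₀ ∈ F`, an element of `P^1(F)`. -/
noncomputable def spec (F : Type) [Field F] (t0 : F) : P1 (RatFunc F) → P1 F
  | none => none
  | some f => if f.denom.eval t0 = 0 then none else some (f.num.eval t0 / f.denom.eval t0)

/-- specialisation `ℤ[P^1_{F(t)}] → ℤ[P^1_F]`, `α(t) ↦ α(t₀)`. -/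
noncomputable def specZ (F : Type) [Field F] (t0 : F) : ZP (RatFunc F) →ₗ[ℤ] ZP F :=
  Finsupp.lmapDomain ℤ ℤ (spec F t0)

/-- `δ_2{x} = (1-x) ∧ x ∈ Λ²F^*` for `x ≠ 0,1,∞`, and `0` for `x = 0, 1, ∞`. -/
noncomputable def delta2 (F : Type) [Field F] : ZP F →ₗ[ℤ] ⋀[ℤ]^2 (UV F) :=
  Finsupp.linearCombination ℤ (fun x : P1 F => match x with
    | none => 0
    | some x => exteriorPower.ιMulti ℤ 2 ![cl (1 - x), cl x])

/-- `δ{x} = {x} ⊗ x ∈ (ℤ[P^1_F]/S) ⊗ F^*` for `x ≠ 0,∞`, and `0` for `x = 0, ∞`. -/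
noncomputable def deltaS (F : Type) [Field F] (S : Submodule ℤ (ZP F)) :
    ZP F →ₗ[ℤ] ((ZP F ⧸ S) ⊗[ℤ] UV F) :=
  Finsupp.linearCombination ℤ (fun x : P1 F => match x with
    | none => 0
    | some y => (S.mkQ (Finsupp.single x 1)) ⊗ₜ[ℤ] cl y)

/-- The subgroup generated by `{0}`, `{∞}` and all `α(0) - α(1)`, `α ∈ A`, for a subgroup
`A ⊆ ℤ[P^1_{F(t)}]`. -/
noncomputable def relSpan (F : Type) [Field F] (A : Submodule ℤ (ZP (RatFunc F))) :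
    Submodule ℤ (ZP F) :=
  Submodule.span ℤ ({Finsupp.single (some 0) 1, Finsupp.single none 1} ∪
    {β | ∃ α ∈ A, β = specZ F 0 α - specZ F 1 α})

/-- Goncharov's relation groups `R_n(F)` (`n ≥ 1`; the value at `0` is irrelevant). -/
noncomputable def R : ℕ → ∀ (F : Type) [Field F], Submodule ℤ (ZP F)
  | 0 => fun _ _ => ⊥
  | 1 => fun F _ => Submodule.span ℤ ({Finsupp.single (some 0) 1, Finsupp.single none 1} ∪
      {β | ∃ x y : F, x ≠ 0 ∧ y ≠ 0 ∧ β = Finsupp.single (some x) 1 + Finsupp.single (some y) 1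
        - Finsupp.single (some (x * y)) 1})
  | 2 => fun F _ => relSpan F (LinearMap.ker (delta2 (RatFunc F)))
  | (n + 3) => fun F _ => relSpan F (LinearMap.ker (deltaS (RatFunc F) (R (n + 2) (RatFunc F))))

/-- `B_n(F) = ℤ[P^1_F]/R_n(F)`. -/
abbrev B (n : ℕ) (F : Type) [Field F] : Type := ZP F ⧸ R n F

/-- the class `{x}_n`. -/
noncomputable def bcl (n : ℕ) {F : Type} [Field F] (x : P1 F) : B n F :=
  (R n F).mkQ (Finsupp.single x 1)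

/-- The terms `(B_m(F) ⊗ Λ^j F^*) ⊗ ℚ` of the complexes `Γ(F,n) ⊗ ℚ` (`n = m + j`). -/
abbrev TQ (F : Type) [Field F] (m j : ℕ) : Type :=
  ℚ ⊗[ℤ] (B m F ⊗[ℤ] (⋀[ℤ]^j (UV F)))

/-- The last terms `Λ^n F^* ⊗ ℚ`. -/
abbrev LQ (F : Type) [Field F] (j : ℕ) : Type := ℚ ⊗[ℤ] (⋀[ℤ]^j (UV F))

/-- `({x}_m ⊗ y_1 ∧ ... ∧ y_j) ⊗ 1` in `(B_m(F) ⊗ Λ^j F^*) ⊗ ℚ`. -/
noncomputable def tq (F : Type) [Field F] (m j : ℕ) (x : P1 F) (y : Fin j → UV F) : TQ F m j :=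
  (1 : ℚ) ⊗ₜ[ℤ] (bcl m x ⊗ₜ[ℤ] exteriorPower.ιMulti ℤ j y)

/-- `(y_1 ∧ ... ∧ y_j) ⊗ 1` in `Λ^j F^* ⊗ ℚ`. -/
noncomputable def lq (F : Type) [Field F] (j : ℕ) (y : Fin j → UV F) : LQ F j :=
  (1 : ℚ) ⊗ₜ[ℤ] exteriorPower.ιMulti ℤ j y

/-- The differentials of all the complexes `Γ(F,n) ⊗ ℚ`, `n ≥ 2`: the term of degree `i ≤ n - 1`
of `Γ(F,n) ⊗ ℚ` is `TQ F (n - i + 1) (i - 1)`, the term of degree `n` is `LQ F n`. -/
structure Differentials (F : Type) [Field F] where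
  /-- `(B_{m+3}(F) ⊗ Λ^j F^*)_ℚ → (B_{m+2}(F) ⊗ Λ^{j+1} F^*)_ℚ` -/
  d : ∀ m j : ℕ, TQ F (m + 3) j →ₗ[ℚ] TQ F (m + 2) (j + 1)
  d_inf : ∀ m j y, d m j (tq F (m + 3) j none y) = 0
  d_zero : ∀ m j y, d m j (tq F (m + 3) j (some 0) y) = 0
  d_some : ∀ m j (x : F) y, x ≠ 0 → d m j (tq F (m + 3) j (some x) y) =
    tq F (m + 2) (j + 1) (some x) (Fin.cons (cl x) y)
  /-- `(B_2(F) ⊗ Λ^j F^*)_ℚ → (Λ^{j+2} F^*)_ℚ` -/
  e : ∀ j : ℕ, TQ F 2 j →ₗ[ℚ] LQ F (j + 2)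
  e_inf : ∀ j y, e j (tq F 2 j none y) = 0
  e_zero : ∀ j y, e j (tq F 2 j (some 0) y) = 0
  e_one : ∀ j y, e j (tq F 2 j (some 1) y) = 0
  e_some : ∀ j (x : F) y, x ≠ 0 → x ≠ 1 → e j (tq F 2 j (some x) y) =
    lq F (j + 2) (Fin.cons (cl (1 - x)) (Fin.cons (cl x) y))

/-- All the complexes `Γ(F,n) ⊗ ℚ`, `n ≥ 2`, are acyclic. -/
def Differentials.Acyclic {F : Type} [Field F] (D : Differentials F) : Prop :=
  (∀ m, Function.Injective (D.d m 0)) ∧ Function.Injective (D.e 0) ∧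
  (∀ m j, Function.Exact (D.d (m + 1) j) (D.d m (j + 1))) ∧
  (∀ j, Function.Exact (D.d 0 j) (D.e (j + 1))) ∧
  (∀ j, Function.Surjective (D.e j))

end H39Gon
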