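import Pool.Agent.H39R2.Gon.Base
import Pool.Agent.H39R2.Gon.C2
import Pool.Agent.H39R2.Gon.C4

/-!
# The differentials exist
-/

set_option autoImplicit false

namespace H39Gon

open scoped TensorProduct
open Polynomial


/-- `a ∧ w` -/
noncomputable def e1wedge (V : Type) [AddCommGroup V] (j : ℕ) :
    V →ₗ[ℤ] (⋀[ℤ]^j V) →ₗ[ℤ] (⋀[ℤ]^(j + 1) V) :=
  (exteriorPower.alternatingMapLinearEquiv (R := ℤ) (M := V) (N := ⋀[ℤ]^(j + 1) V)
    (n := j)).toLinearMap ∘ₗ (exteriorPower.ιMulti ℤ (M := V) (j + 1)).curryLeft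

theorem e1wedge_apply (V : Type) [AddCommGroup V] (j : ℕ) (a : V) (y : Fin j → V) :
    e1wedge V j a (exteriorPower.ιMulti ℤ j y) = exteriorPower.ιMulti ℤ (j + 1) (Fin.cons a y) := by
  simp [e1wedge, Matrix.vecCons]

theorem e1wedge_self (V : Type) [AddCommGroup V] (j : ℕ) (a : V) :
    (e1wedge V (j + 1) a) ∘ₗ (e1wedge V j a) = 0 := by
  refine exteriorPower.linearMap_ext ?_
  ext y
  simp only [LinearMap.compAlternatingMap_apply, LinearMap.comp_apply, e1wedge_apply,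
    LinearMap.zero_apply]
  refine congrArg _ ((exteriorPower.ιMulti ℤ (j + 1 + 1)).map_eq_zero_of_eq _
    (i := 0) (j := 1) ?_ (by simp))
  simp

/-- `w ↦ 1 ⊗ w` -/
noncomputable def e1one {M : Type} [AddCommGroup M] : M →ₗ[ℤ] (ℚ ⊗[ℤ] M) :=
  AddMonoidHom.toIntLinearMap (TensorProduct.mk ℤ ℚ M 1).toAddMonoidHom

theorem e1one_apply {M : Type} [AddCommGroup M] (x : M) : e1one x = (1 : ℚ) ⊗ₜ[ℤ] x := rfl

/-- the map `{x} ↦ (w ↦ 1 ⊗ ((1-x) ∧ x ∧ w))` as a functional `Ψ` -/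
noncomputable def e1Psi2 (F : Type) [Field F] (j : ℕ) :
    UV F →ₗ[ℤ] UV F →ₗ[ℤ] ((⋀[ℤ]^j (UV F)) →ₗ[ℤ] LQ F (j + 2)) :=
  LinearMap.mk₂ ℤ (fun a b => (e1one (M := ⋀[ℤ]^(j + 2) (UV F))) ∘ₗ
      (e1wedge (UV F) (j + 1) a) ∘ₗ (e1wedge (UV F) j b))
    (by intro a a' b; ext w; simp)
    (by intro c a b; ext w; simp)
    (by intro a b b'; ext w; simp)
    (by intro c a b; ext w; simp)

theorem e1Psi2_apply (F : Type) [Field F] (j : ℕ) (a b : UV F) (y : Fin j → UV F) :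
    e1Psi2 F j a b (exteriorPower.ιMulti ℤ j y) = lq F (j + 2) (Fin.cons a (Fin.cons b y)) := by
  simp only [e1Psi2, LinearMap.mk₂_apply, LinearMap.comp_apply, e1wedge_apply, lq, e1one_apply]

/-- the functional with no further variables -/
noncomputable def e1Psi (F : Type) [Field F] (j : ℕ) :
    UV F →ₗ[ℤ] UV F →ₗ[ℤ] MultilinearMap ℤ (fun _ : Fin 0 => UV F)
      ((⋀[ℤ]^j (UV F)) →ₗ[ℤ] LQ F (j + 2)) :=
  (e1Psi2 F j).compr₂ (MultilinearMap.constLinearEquivOfIsEmpty ℤ ℤ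
    (fun _ : Fin 0 => UV F) ((⋀[ℤ]^j (UV F)) →ₗ[ℤ] LQ F (j + 2))).toLinearMap

theorem e1Psi_apply (F : Type) [Field F] (j : ℕ) (a b : UV F) (c : Fin 0 → UV F) :
    e1Psi F j a b c = e1Psi2 F j a b := rfl

theorem e1Psi_self (F : Type) [Field F] (j : ℕ) (a : UV F) : e1Psi F j a a = 0 := by
  ext c : 1
  rw [e1Psi_apply]
  refine exteriorPower.linearMap_ext ?_
  ext y
  simp only [LinearMap.compAlternatingMap_apply, e1Psi2_apply, zero_apply,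
    LinearMap.zero_apply, lq]
  rw [(exteriorPower.ιMulti ℤ (j + 2)).map_eq_zero_of_eq _
    (i := 0) (j := 1) (by simp) (by simp), TensorProduct.tmul_zero]

/-- linear map from `(B_n ⊗ Λ^j)_ℚ` defined by a map on `ℤ[P^1]` -/
noncomputable def e1lift {F : Type} [Field F] {n j : ℕ} {L : Type} [AddCommGroup L] [Module ℚ L]
    (θ : ZP F →ₗ[ℤ] ((⋀[ℤ]^j (UV F)) →ₗ[ℤ] L)) (hθ : ∀ r ∈ R n F, θ r = 0) :
    TQ F n j →ₗ[ℚ] L :=
  LinearMap.liftBaseChange ℚ (AddMonoidHom.toIntLinearMap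
    (TensorProduct.lift ((R n F).liftQ θ fun r hr => hθ r hr)).toAddMonoidHom)

theorem e1lift_apply {F : Type} [Field F] {n j : ℕ} {L : Type} [AddCommGroup L] [Module ℚ L]
    (θ : ZP F →ₗ[ℤ] ((⋀[ℤ]^j (UV F)) →ₗ[ℤ] L)) (hθ : ∀ r ∈ R n F, θ r = 0) (x : P1 F)
    (y : Fin j → UV F) :
    e1lift θ hθ (tq F n j x y) = θ (Finsupp.single x 1) (exteriorPower.ιMulti ℤ j y) := by
  unfold e1lift tq bcl
  rw [LinearMap.liftBaseChange_tmul, one_smul]
  rfl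

/-- the differential `e` -/
noncomputable def e1e (F : Type) [Field F] (j : ℕ) : TQ F 2 j →ₗ[ℚ] LQ F (j + 2) :=
  e1lift (ev (e1Psi F j)) (fun r hr => ev_R (m := 0) (e1Psi F j) (e1Psi_self F j) r hr)

theorem e1e_apply (F : Type) [Field F] (j : ℕ) (x : P1 F) (y : Fin j → UV F) :
    e1e F j (tq F 2 j x y) =
      ev (e1Psi F j) (Finsupp.single x 1) (exteriorPower.ιMulti ℤ j y) :=
  e1lift_apply _ _ _ _

theorem e1ev_none {F : Type} [Field F] {W : Type} [AddCommGroup W] {m : ℕ}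
    (Ψ : UV F →ₗ[ℤ] UV F →ₗ[ℤ] MultilinearMap ℤ (fun _ : Fin m => UV F) W) :
    ev Ψ (Finsupp.single none 1) = 0 := by
  simp [ev]

theorem e1ev_some {F : Type} [Field F] {W : Type} [AddCommGroup W] {m : ℕ}
    (Ψ : UV F →ₗ[ℤ] UV F →ₗ[ℤ] MultilinearMap ℤ (fun _ : Fin m => UV F) W) (x : F) :
    ev Ψ (Finsupp.single (some x) 1) = Ψ (cl (1 - x)) (cl x) (fun _ => cl x) := by
  simp [ev]

theorem e1cl_zero {F : Type} [Field F] : cl (0 : F) = 0 := by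
  simp [cl]

theorem e1cl_one {F : Type} [Field F] : cl (1 : F) = 0 := by
  simp only [cl, one_ne_zero, dite_false]
  have : Units.mk0 (1 : F) one_ne_zero = 1 := by ext; simp
  rw [this]; rfl

/-- `w ↦ b ⊗ w` -/
noncomputable def e1tens {M N : Type} [AddCommGroup M] [AddCommGroup N] (b : M) :
    N →ₗ[ℤ] (M ⊗[ℤ] N) :=
  AddMonoidHom.toIntLinearMap (TensorProduct.mk ℤ M N b).toAddMonoidHom

theorem e1tens_apply {M N : Type} [AddCommGroup M] [AddCommGroup N] (b : M) (w : N) :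
    e1tens b w = b ⊗ₜ[ℤ] w := rfl

theorem e1tens_add {M N : Type} [AddCommGroup M] [AddCommGroup N] (b b' : M) :
    (e1tens (b + b') : N →ₗ[ℤ] (M ⊗[ℤ] N)) = e1tens b + e1tens b' := by
  ext w; simp [e1tens_apply, TensorProduct.add_tmul]

theorem e1tens_smul {M N : Type} [AddCommGroup M] [AddCommGroup N] (c : ℤ) (b : M) :
    (e1tens (c • b) : N →ₗ[ℤ] (M ⊗[ℤ] N)) = c • e1tens b := by
  ext w
  exact TensorProduct.smul_tmul' c b w

/-- `b ↦ a ↦ w ↦ 1 ⊗ (b ⊗ (a ∧ w))` -/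
noncomputable def e1T (F : Type) [Field F] (m j : ℕ) :
    B (m + 2) F →ₗ[ℤ] UV F →ₗ[ℤ] ((⋀[ℤ]^j (UV F)) →ₗ[ℤ] TQ F (m + 2) (j + 1)) :=
  LinearMap.mk₂ ℤ (fun b a => (e1one (M := B (m + 2) F ⊗[ℤ] (⋀[ℤ]^(j + 1) (UV F)))) ∘ₗ
      (e1tens b) ∘ₗ (e1wedge (UV F) j a))
    (by intro a a' b; ext w; simp [e1tens_add])
    (by intro c a b; ext w; simp [e1tens_smul])
    (by intro a b b'; ext w; simp)
    (by intro c a b; ext w; simp)

theorem e1T_apply (F : Type) [Field F] (m j : ℕ) (x : P1 F) (a : UV F) (y : Fin j → UV F) :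
    e1T F m j (bcl (m + 2) x) a (exteriorPower.ιMulti ℤ j y) =
      tq F (m + 2) (j + 1) x (Fin.cons a y) := by
  simp only [e1T, LinearMap.mk₂_apply, LinearMap.comp_apply, e1wedge_apply, tq, e1one_apply,
    e1tens_apply]

/-- the last variable of a multilinear map -/
noncomputable def e1unc {V W : Type} [AddCommGroup V] [AddCommGroup W] (m : ℕ) :
    MultilinearMap ℤ (fun _ : Fin m => V) (V →ₗ[ℤ] W) →ₗ[ℤ]
      MultilinearMap ℤ (fun _ : Fin (m + 1) => V) W :=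
  AddMonoidHom.toIntLinearMap
    { toFun := fun f => MultilinearMap.uncurryRight (M := fun _ : Fin (m + 1) => V) f
      map_zero' := by ext v; simp
      map_add' := by intro f g; ext v; simp }

theorem e1unc_apply {V W : Type} [AddCommGroup V] [AddCommGroup W] (m : ℕ)
    (f : MultilinearMap ℤ (fun _ : Fin m => V) (V →ₗ[ℤ] W)) (v : Fin (m + 1) → V) :
    e1unc m f v = f (Fin.init v) (v (Fin.last m)) := rfl

theorem e1_step {F : Type} [Field F] {W : Type} [AddCommGroup W] (m : ℕ)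
    (Ψ' : UV F →ₗ[ℤ] UV F →ₗ[ℤ] MultilinearMap ℤ (fun _ : Fin m => UV F) (UV F →ₗ[ℤ] W))
    (hΨ' : ∀ a, Ψ' a a = 0) :
    ∃ Ψ : UV F →ₗ[ℤ] UV F →ₗ[ℤ] MultilinearMap ℤ (fun _ : Fin (m + 1) => UV F) W,
      (∀ a, Ψ a a = 0) ∧ ∀ x : F, ev Ψ (Finsupp.single (some x) 1) =
        ev Ψ' (Finsupp.single (some x) 1) (cl x) := by
  refine ⟨Ψ'.compr₂ (e1unc m), fun a => ?_, fun x => ?_⟩
  · rw [LinearMap.compr₂_apply, hΨ' a, map_zero]
  · rw [e1ev_some, e1ev_some, LinearMap.compr₂_apply, e1unc_apply]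
    rfl

theorem e1_lift_R {F : Type} [Field F] {L : Type} [AddCommGroup L] [Module ℚ L] (m j : ℕ)
    (Ψ : UV F →ₗ[ℤ] UV F →ₗ[ℤ] MultilinearMap ℤ (fun _ : Fin (m + 1) => UV F)
      ((⋀[ℤ]^j (UV F)) →ₗ[ℤ] L)) (hΨ : ∀ a, Ψ a a = 0) :
    ∃ d : TQ F (m + 3) j →ₗ[ℚ] L, ∀ x y, d (tq F (m + 3) j x y) =
      ev Ψ (Finsupp.single x 1) (exteriorPower.ιMulti ℤ j y) := by
  have h : ∀ r ∈ R (m + 3) F, ev Ψ r = 0 := fun r hr => ev_R (m := m + 1) Ψ hΨ r hr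
  exact ⟨e1lift (ev Ψ) h, fun x y => e1lift_apply _ _ _ _⟩

theorem e1_exists_d (k : Type) [Field k] (p : ℕ) [Fact p.Prime] [CharP k p]
    (hk : ∀ c : k, ∃ r : ℕ, 1 ≤ r ∧ c ^ p ^ r = c) (m j : ℕ) :
    ∃ d : TQ (RatFunc k) (m + 3) j →ₗ[ℚ] TQ (RatFunc k) (m + 2) (j + 1),
      (∀ y, d (tq (RatFunc k) (m + 3) j none y) = 0) ∧
      (∀ y, d (tq (RatFunc k) (m + 3) j (some 0) y) = 0) ∧
      (∀ (x : RatFunc k) y, x ≠ 0 → d (tq (RatFunc k) (m + 3) j (some x) y) =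
        tq (RatFunc k) (m + 2) (j + 1) (some x) (Fin.cons (cl x) y)) := by
  have hθ : ∀ r ∈ R (m + 2) (RatFunc k),
      ((e1T (RatFunc k) m j) ∘ₗ (R (m + 2) (RatFunc k)).mkQ) r = 0 := by
    intro r hr
    have : (R (m + 2) (RatFunc k)).mkQ r = 0 := by simpa using hr
    rw [LinearMap.comp_apply, this, map_zero]
  obtain ⟨Ψ', hΨ', h⟩ := ev_surj k p hk m _ hθ
  obtain ⟨Ψ, hΨa, hΨ⟩ := e1_step m Ψ' hΨ'
  obtain ⟨d, hd⟩ := e1_lift_R m j Ψ hΨa
  have hsome : ∀ (x : RatFunc k) (y : Fin j → UV (RatFunc k)),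
      d (tq (RatFunc k) (m + 3) j (some x) y) =
        tq (RatFunc k) (m + 2) (j + 1) (some x) (Fin.cons (cl x) y) := by
    intro x y
    rw [hd, hΨ, ← h, ← e1T_apply]
    rfl
  refine ⟨d, ?_, ?_, fun x y _ => hsome x y⟩
  · intro y
    rw [hd, e1ev_none]
    rfl
  · intro y
    rw [hsome, e1cl_zero]
    unfold tq
    rw [(exteriorPower.ιMulti ℤ (j + 1)).map_coord_zero (i := 0) (by simp),
      TensorProduct.tmul_zero, TensorProduct.tmul_zero]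

/-- E1: the differentials exist. -/
theorem exists_differentials (k : Type) [Field k] (p : ℕ) [Fact p.Prime] [CharP k p]
    (hk : ∀ c : k, ∃ r : ℕ, 1 ≤ r ∧ c ^ p ^ r = c) : Nonempty (Differentials (RatFunc k)) := by
  choose d hd using fun m j => e1_exists_d k p hk m j
  refine ⟨⟨d, fun m j => (hd m j).1, fun m j => (hd m j).2.1, fun m j => (hd m j).2.2,
    e1e (RatFunc k), ?_, ?_, ?_, ?_⟩⟩
  · intro j y
    rw [e1e_apply, e1ev_none]
    rfl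
  · intro j y
    rw [e1e_apply, e1ev_some, e1Psi_apply, e1Psi2_apply, e1cl_zero]
    unfold lq
    rw [(exteriorPower.ιMulti ℤ (j + 2)).map_coord_zero (i := 1) (by simp),
      TensorProduct.tmul_zero]
  · intro j y
    rw [e1e_apply, e1ev_some, e1Psi_apply, e1Psi2_apply, e1cl_one]
    unfold lq
    rw [(exteriorPower.ιMulti ℤ (j + 2)).map_coord_zero (i := 1) (by simp),
      TensorProduct.tmul_zero]
  · intro j x y _ _
    rw [e1e_apply, e1ev_some, e1Psi_apply, e1Psi2_apply]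

end H39Gon
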