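import Pool.Agent.H39R2.Gon.C2
import Pool.Agent.H39R2.Gon.C4
import Pool.Agent.H39R2.Gon.D1
import Pool.Agent.H39R2.Gon.D2

/-!
# E2: acyclicity of the polylogarithmic complexes from `SpanDual`
-/

namespace H39Gon

open scoped TensorProduct
open Polynomial

namespace E2

section Duality

variable {U V W : Type} [AddCommGroup U] [Module ℚ U] [AddCommGroup V] [Module ℚ V]
  [AddCommGroup W] [Module ℚ W]

theorem exists_dual_ne {S : Submodule ℚ V} {y : V} (hy : y ∉ S) :
    ∃ φ : V →ₗ[ℚ] ℚ, (∀ s ∈ S, φ s = 0) ∧ φ y ≠ 0 := by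
  obtain ⟨φ, h1, h2⟩ := Submodule.exists_dual_map_eq_bot_of_notMem hy inferInstance
  refine ⟨φ, fun s hs => ?_, h1⟩
  have h3 : φ s ∈ S.map φ := Submodule.mem_map_of_mem hs
  rw [h2] at h3
  simpa using h3

theorem exact_of_dual (f : U →ₗ[ℚ] V) (g : V →ₗ[ℚ] W) (hgf : ∀ u, g (f u) = 0)
    (h : ∀ φ : V →ₗ[ℚ] ℚ, (∀ u, φ (f u) = 0) → ∃ ψ : W →ₗ[ℚ] ℚ, ∀ v, φ v = ψ (g v)) :
    Function.Exact f g := by
  intro y
  constructor
  · intro hy
    by_contra hn
    have hn' : y ∉ LinearMap.range f := fun ⟨u, hu⟩ => hn ⟨u, hu⟩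
    obtain ⟨φ, h1, h2⟩ := exists_dual_ne hn'
    obtain ⟨ψ, hψ⟩ := h φ fun u => h1 _ ⟨u, rfl⟩
    apply h2
    rw [hψ, hy, map_zero]
  · rintro ⟨u, rfl⟩
    exact hgf u

theorem injective_of_dual (g : V →ₗ[ℚ] W)
    (h : ∀ φ : V →ₗ[ℚ] ℚ, ∃ ψ : W →ₗ[ℚ] ℚ, ∀ v, φ v = ψ (g v)) : Function.Injective g := by
  rw [injective_iff_map_eq_zero]
  intro y hy
  by_contra hn
  have hn' : y ∉ (⊥ : Submodule ℚ V) := by simpa using hn
  obtain ⟨φ, h1, h2⟩ := exists_dual_ne hn'
  obtain ⟨ψ, hψ⟩ := h φ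
  apply h2
  rw [hψ, hy, map_zero]

theorem surjective_of_dual (f : U →ₗ[ℚ] V)
    (h : ∀ φ : V →ₗ[ℚ] ℚ, (∀ u, φ (f u) = 0) → φ = 0) : Function.Surjective f := by
  intro y
  by_contra hn
  have hn' : y ∉ LinearMap.range f := fun ⟨u, hu⟩ => hn ⟨u, hu⟩
  obtain ⟨φ, h1, h2⟩ := exists_dual_ne hn'
  apply h2
  rw [h φ fun u => h1 _ ⟨u, rfl⟩]
  simp

end Duality

section Functionals

variable {F : Type} [Field F] {m j : ℕ}

theorem lext {N : Type} [AddCommGroup N] [Module ℚ N] {j : ℕ} (f g : LQ F j →ₗ[ℚ] N)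
    (h : ∀ y, f (lq F j y) = g (lq F j y)) : f = g := by
  apply TensorProduct.AlgebraTensorModule.curry_injective
  ext y
  simpa [lq] using h y

theorem text {N : Type} [AddCommGroup N] [Module ℚ N] (f g : TQ F m j →ₗ[ℚ] N)
    (h : ∀ x y, f (tq F m j x y) = g (tq F m j x y)) : f = g := by
  apply TensorProduct.AlgebraTensorModule.curry_injective
  ext x y
  exact h x y

/-- the `ℤ[P^1]`-functional of a functional on `TQ` -/
noncomputable def toTheta (φ : TQ F m j →ₗ[ℚ] ℚ) : ZP F →ₗ[ℤ] (UV F [⋀^Fin j]→ₗ[ℤ] ℚ) :=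
  (exteriorPower.alternatingMapLinearEquiv.symm.toLinearMap) ∘ₗ
    (TensorProduct.curry ((φ.restrictScalars ℤ) ∘ₗ
      (TensorProduct.mk ℤ ℚ (B m F ⊗[ℤ] (⋀[ℤ]^j (UV F))) 1))) ∘ₗ (R m F).mkQ

theorem toTheta_apply (φ : TQ F m j →ₗ[ℚ] ℚ) (x : P1 F) (y : Fin j → UV F) :
    toTheta φ (Finsupp.single x 1) y = φ (tq F m j x y) := rfl

theorem toTheta_R (φ : TQ F m j →ₗ[ℚ] ℚ) (r : ZP F) (hr : r ∈ R m F) : toTheta φ r = 0 := by
  unfold toTheta
  have : (R m F).mkQ r = 0 := by simpa using hr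
  simp only [LinearMap.comp_apply, this, map_zero]

/-- the functional on `TQ` of a `ℤ[P^1]`-functional killing the relations -/
noncomputable def ofTheta (θ : ZP F →ₗ[ℤ] (UV F [⋀^Fin j]→ₗ[ℤ] ℚ))
    (h : ∀ r ∈ R m F, θ r = 0) : TQ F m j →ₗ[ℚ] ℚ :=
  LinearMap.liftBaseChange ℚ (TensorProduct.lift
    ((exteriorPower.alternatingMapLinearEquiv.toLinearMap) ∘ₗ ((R m F).liftQ θ (fun r hr => LinearMap.mem_ker.mpr (h r hr)))))

theorem ofTheta_apply (θ : ZP F →ₗ[ℤ] (UV F [⋀^Fin j]→ₗ[ℤ] ℚ))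
    (h : ∀ r ∈ R m F, θ r = 0) (x : P1 F) (y : Fin j → UV F) :
    ofTheta θ h (tq F m j x y) = θ (Finsupp.single x 1) y := by
  unfold ofTheta tq bcl
  rw [LinearMap.liftBaseChange_tmul, one_smul]
  change (exteriorPower.alternatingMapLinearEquiv (θ (Finsupp.single x 1)))
    (exteriorPower.ιMulti ℤ j y) = _
  rw [exteriorPower.alternatingMapLinearEquiv_apply_ιMulti]

/-- the functional on `LQ` of an alternating map -/
noncomputable def ofAlt (Θ : UV F [⋀^Fin j]→ₗ[ℤ] ℚ) : LQ F j →ₗ[ℚ] ℚ :=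
  LinearMap.liftBaseChange ℚ (exteriorPower.alternatingMapLinearEquiv Θ)

theorem ofAlt_apply (Θ : UV F [⋀^Fin j]→ₗ[ℤ] ℚ) (y : Fin j → UV F) :
    ofAlt Θ (lq F j y) = Θ y := by
  unfold ofAlt lq
  rw [LinearMap.liftBaseChange_tmul, one_smul]
  simp

/-- the alternating map of a functional on `LQ` -/
noncomputable def toAlt (χ : LQ F j →ₗ[ℚ] ℚ) : UV F [⋀^Fin j]→ₗ[ℤ] ℚ :=
  exteriorPower.alternatingMapLinearEquiv.symm ((χ.restrictScalars ℤ) ∘ₗ
      (TensorProduct.mk ℤ ℚ (⋀[ℤ]^j (UV F)) 1))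

theorem toAlt_apply (χ : LQ F j →ₗ[ℚ] ℚ) (y : Fin j → UV F) :
    toAlt χ y = χ (lq F j y) := rfl

end Functionals

section Multi

variable {V : Type} [AddCommGroup V]

theorem polar {N : ℕ} (M : MultilinearMap ℤ (fun _ : Fin N => V) ℚ)
    (h : ∀ s, M (fun _ => s) = 0) (s u : V) :
    ∑ i, M (Function.update (fun _ => s) i u) = 0 := by
  classical
  let p : ℚ[X] := ∑ T : Finset (Fin N),
    C (M (T.piecewise (fun _ => u) (fun _ => s))) * X ^ T.card
  have hp : ∀ t : ℕ, p.eval (t : ℚ) = 0 := by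
    intro t
    have h1 := h ((t : ℤ) • u + s)
    have h2 : (fun _ : Fin N => (t : ℤ) • u + s) = (fun _ => (t : ℤ) • u) + (fun _ => s) := rfl
    rw [h2, M.map_add_univ] at h1
    rw [← h1, Polynomial.eval_finset_sum]
    apply Finset.sum_congr rfl
    intro T _
    rw [eval_mul, eval_C, eval_pow, eval_X]
    have h3 : T.piecewise (fun _ => (t : ℤ) • u) (fun _ => s) =
        T.piecewise (fun i => (t : ℤ) • (T.piecewise (fun _ => u) (fun _ => s)) i)
          (T.piecewise (fun _ => u) (fun _ => s)) := by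
      funext i
      by_cases hi : i ∈ T <;> simp [hi]
    rw [h3, M.map_piecewise_smul]
    simp [mul_comm]
  have hp0 : p = 0 := by
    apply Polynomial.eq_zero_of_infinite_isRoot
    apply (Set.infinite_range_of_injective (Nat.cast_injective (R := ℚ))).mono
    rintro _ ⟨t, rfl⟩
    exact hp t
  have hc : p.coeff 1 = 0 := by rw [hp0]; simp
  simp only [p, Polynomial.finset_sum_coeff, coeff_C_mul, coeff_X_pow] at hc
  have h4 : ∑ T : Finset (Fin N), M (T.piecewise (fun _ => u) (fun _ => s)) *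
      (if 1 = T.card then 1 else 0) = ∑ T ∈ Finset.univ.filter (fun T : Finset (Fin N) =>
        T.card = 1), M (T.piecewise (fun _ => u) (fun _ => s)) := by
    rw [Finset.sum_filter]
    apply Finset.sum_congr rfl
    intro T _
    by_cases hT : T.card = 1
    · simp [hT]
    · have : ¬ 1 = T.card := fun h => hT h.symm
      simp [hT, this]
  rw [h4, Finset.univ_filter_card_eq, Finset.powersetCard_one, Finset.sum_map] at hc
  rw [← hc]
  apply Finset.sum_congr rfl
  intro i _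
  simp [Finset.piecewise_singleton]

/-- evaluation of alternating maps -/
def evalAlt {j : ℕ} (y : Fin j → V) : (V [⋀^Fin j]→ₗ[ℤ] ℚ) →ₗ[ℤ] ℚ where
  toFun f := f y
  map_add' _ _ := rfl
  map_smul' _ _ := rfl

/-- evaluation of all but the first entry -/
def evalTail {i : ℕ} (y : Fin i → V) : (V [⋀^Fin (i + 1)]→ₗ[ℤ] ℚ) →ₗ[ℤ] (V →ₗ[ℤ] ℚ) where
  toFun g :=
    { toFun := fun s => g (Fin.cons s y)
      map_add' := fun a b => AlternatingMap.map_vecCons_add g y a b
      map_smul' := fun c a => AlternatingMap.map_vecCons_smul g y c a }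
  map_add' _ _ := rfl
  map_smul' _ _ := rfl

/-- `f ↦ (s ↦ (v ↦ f v (s, y)))` -/
def flipTail {i : ℕ} (y : Fin i → V) :
    (V →ₗ[ℤ] (V [⋀^Fin (i + 1)]→ₗ[ℤ] ℚ)) →ₗ[ℤ] (V →ₗ[ℤ] (V →ₗ[ℤ] ℚ)) where
  toFun f := LinearMap.flip (evalTail y ∘ₗ f)
  map_add' _ _ := rfl
  map_smul' _ _ := rfl

/-- the polarisation of `Q (s, …, s) s = 0` -/
theorem polarQ {n j : ℕ}
    (Q : MultilinearMap ℤ (fun _ : Fin n => V) (V →ₗ[ℤ] (V [⋀^Fin j]→ₗ[ℤ] ℚ)))
    (h : ∀ s, Q (fun _ => s) s = 0) (s u : V) (y : Fin j → V) :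
    ∑ i, Q (Function.update (fun _ => s) i u) s y + Q (fun _ => s) u y = 0 := by
  have h1 := polar ((evalAlt y).compMultilinearMap
    (MultilinearMap.uncurryRight (M := fun _ : Fin (n + 1) => V) Q)) (by
      intro s
      change Q (fun _ => s) s y = 0
      rw [h s]
      rfl) s u
  rw [Fin.sum_univ_castSucc] at h1
  rw [← h1]
  congr 1
  · apply Finset.sum_congr rfl
    intro i _
    change _ = Q (Fin.init (Function.update (fun _ => s) i.castSucc u))
      (Function.update (fun _ => s) i.castSucc u (Fin.last n)) y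
    rw [Fin.init_update_castSucc, Function.update_of_ne (Fin.castSucc_lt_last i).ne']
    rfl
  · change _ = Q (Fin.init (Function.update (fun _ => s) (Fin.last n) u))
      (Function.update (fun _ => s) (Fin.last n) u (Fin.last n)) y
    rw [Fin.init_update_last, Function.update_self]
    rfl

/-- `Q (s_0, …, s_n) v = Ψ v s_n (s_0, …, s_{n-1})` -/
noncomputable def qOf {W : Type} [AddCommGroup W] {n : ℕ}
    (Ψ : V →ₗ[ℤ] V →ₗ[ℤ] MultilinearMap ℤ (fun _ : Fin n => V) W) :
    MultilinearMap ℤ (fun _ : Fin (n + 1) => V) (V →ₗ[ℤ] W) :=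
  MultilinearMap.uncurryRight (M := fun _ : Fin (n + 1) => V)
    (MultilinearMap.mk' (fun s : Fin n → V => LinearMap.mk₂ ℤ (fun b v => Ψ v b s)
      (fun a b c => by simp) (fun a b c => by simp) (fun a b c => by simp)
      (fun a b c => by simp))
      (fun s i x y => by ext b v; simp [LinearMap.mk₂_apply])
      (fun s i c x => by ext b v; simp [LinearMap.mk₂_apply]))

theorem qOf_apply {W : Type} [AddCommGroup W] {n : ℕ}
    (Ψ : V →ₗ[ℤ] V →ₗ[ℤ] MultilinearMap ℤ (fun _ : Fin n => V) W) (s v : V) :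
    qOf Ψ (fun _ => s) v = Ψ v s (fun _ => s) := rfl

/-- `(a, b) ↦ (c ↦ Q (c with b inserted at i) a)` -/
noncomputable def gOf {W : Type} [AddCommGroup W] {n : ℕ}
    (Q : MultilinearMap ℤ (fun _ : Fin (n + 1) => V) (V →ₗ[ℤ] W)) (i : Fin (n + 1)) :
    V →ₗ[ℤ] V →ₗ[ℤ] MultilinearMap ℤ (fun _ : Fin n => V) W :=
  LinearMap.mk₂ ℤ (fun a b => (LinearMap.applyₗ (R := ℤ) a).compMultilinearMap
      (MultilinearMap.curryMid (M := fun _ : Fin (n + 1) => V) i Q b))
    (fun a b c => by ext s; simp) (fun a b c => by ext s; simp) (fun a b c => by ext s; simp)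
    (fun a b c => by ext s; simp)

theorem gOf_apply {W : Type} [AddCommGroup W] {n : ℕ}
    (Q : MultilinearMap ℤ (fun _ : Fin (n + 1) => V) (V →ₗ[ℤ] W)) (i : Fin (n + 1))
    (a b s : V) : gOf Q i a b (fun _ => s) = Q (Function.update (fun _ => s) i b) a := by
  change Q (i.insertNth b (fun _ => s)) a = _
  congr 2
  funext k
  rcases eq_or_ne k i with h | h
  · subst h
    simp
  · obtain ⟨k', rfl⟩ := Fin.exists_succAbove_eq h
    simp

end Multi

section Steps

variable {F : Type} [Field F]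

theorem ev_none {W : Type} [AddCommGroup W] {m : ℕ}
    (Ψ : UV F →ₗ[ℤ] UV F →ₗ[ℤ] MultilinearMap ℤ (fun _ : Fin m => UV F) W) :
    ev Ψ (Finsupp.single none 1) = 0 := by
  simp [ev]

theorem ev_some {W : Type} [AddCommGroup W] {m : ℕ}
    (Ψ : UV F →ₗ[ℤ] UV F →ₗ[ℤ] MultilinearMap ℤ (fun _ : Fin m => UV F) W) (x : F) :
    ev Ψ (Finsupp.single (some x) 1) = Ψ (cl (1 - x)) (cl x) (fun _ => cl x) := by
  simp [ev]

theorem cl_zero : cl (0 : F) = 0 := by
  simp [cl]

theorem cl_one : cl (1 : F) = 0 := by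
  unfold cl
  rw [dif_neg one_ne_zero]
  have : Units.mk0 (1 : F) one_ne_zero = 1 := by
    ext
    rfl
  rw [this]
  rfl

/-- the functional `{x} ↦ Q' (x, …, x) (1 - x)` -/
noncomputable def theta' {m j : ℕ} (Q' : MultilinearMap ℤ (fun _ : Fin (m + 1) => UV F)
    (UV F →ₗ[ℤ] (UV F [⋀^Fin j]→ₗ[ℤ] ℚ))) : ZP F →ₗ[ℤ] (UV F [⋀^Fin j]→ₗ[ℤ] ℚ) :=
  Finsupp.linearCombination ℤ (fun x : P1 F => match x with
    | none => 0
    | some x => Q' (fun _ => cl x) (cl (1 - x)))

theorem theta'_none {m j : ℕ} (Q' : MultilinearMap ℤ (fun _ : Fin (m + 1) => UV F)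
    (UV F →ₗ[ℤ] (UV F [⋀^Fin j]→ₗ[ℤ] ℚ))) : theta' Q' (Finsupp.single none 1) = 0 := by
  simp [theta']

theorem theta'_some {m j : ℕ} (Q' : MultilinearMap ℤ (fun _ : Fin (m + 1) => UV F)
    (UV F →ₗ[ℤ] (UV F [⋀^Fin j]→ₗ[ℤ] ℚ))) (x : F) :
    theta' Q' (Finsupp.single (some x) 1) = Q' (fun _ => cl x) (cl (1 - x)) := by
  simp [theta']

theorem theta'_R {m j : ℕ} (Q' : MultilinearMap ℤ (fun _ : Fin (m + 1) => UV F)
    (UV F →ₗ[ℤ] (UV F [⋀^Fin j]→ₗ[ℤ] ℚ))) (h : ∀ s, Q' (fun _ => s) s = 0) (r : ZP F)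
    (hr : r ∈ R (m + 2) F) : theta' Q' r = 0 := by
  let Ψ' : UV F →ₗ[ℤ] UV F →ₗ[ℤ] MultilinearMap ℤ (fun _ : Fin m => UV F)
      (UV F [⋀^Fin j]→ₗ[ℤ] ℚ) := ∑ i, (gOf Q' i - (gOf Q' i).flip)
  have hΨ : ∀ a, Ψ' a a = 0 := by
    intro a
    simp [Ψ', LinearMap.sum_apply]
  have h1 : ev Ψ' = ((m + 2 : ℕ) : ℤ) • theta' Q' := by
    apply Finsupp.lhom_ext'
    intro x
    apply LinearMap.ext_ring
    rcases x with _ | x
    · change ev Ψ' (Finsupp.single none 1) = ((m + 2 : ℕ) : ℤ) • theta' Q' (Finsupp.single none 1)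
      rw [ev_none, theta'_none, smul_zero]
    · change ev Ψ' (Finsupp.single (some x) 1) =
        ((m + 2 : ℕ) : ℤ) • theta' Q' (Finsupp.single (some x) 1)
      rw [ev_some, theta'_some]
      ext y
      have h2 := polarQ Q' h (cl x) (cl (1 - x)) y
      have h3 : Ψ' (cl (1 - x)) (cl x) (fun _ => cl x) y =
          ∑ i : Fin (m + 1), (Q' (fun _ => cl x) (cl (1 - x)) y -
            Q' (Function.update (fun _ => cl x) i (cl (1 - x))) (cl x) y) := by
        simp only [Ψ', LinearMap.sum_apply, MultilinearMap.sum_apply, LinearMap.sub_apply,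
          LinearMap.flip_apply, MultilinearMap.sub_apply, gOf_apply, Function.update_eq_self]
        change evalAlt y (∑ i : Fin (m + 1), _) = _
        rw [map_sum]
        apply Finset.sum_congr rfl
        intro i _
        rfl
      rw [h3, Finset.sum_sub_distrib, Finset.sum_const, Finset.card_univ, Fintype.card_fin]
      rw [AlternatingMap.smul_apply]
      have h4 : ∑ i : Fin (m + 1), Q' (Function.update (fun _ => cl x) i (cl (1 - x))) (cl x) y =
          - Q' (fun _ => cl x) (cl (1 - x)) y := by linarith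
      rw [h4]
      simp only [nsmul_eq_mul, zsmul_eq_mul]
      push_cast
      ring
  have h2 := ev_R Ψ' hΨ r hr
  rw [h1, LinearMap.smul_apply] at h2
  have h3 : ((m + 2 : ℕ) : ℤ) ≠ 0 := by positivity
  ext y
  have h4 := congrArg (fun f : UV F [⋀^Fin j]→ₗ[ℤ] ℚ => f y) h2
  simp only [AlternatingMap.smul_apply, AlternatingMap.zero_apply, zsmul_eq_mul] at h4
  have h5 : (((m + 2 : ℕ) : ℤ) : ℚ) ≠ 0 := by exact_mod_cast h3
  exact (mul_eq_zero.mp h4).resolve_left h5

end Steps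

section Main

variable (k : Type) [Field k] (p : ℕ) [Fact p.Prime] [CharP k p]
    (hk : ∀ c : k, ∃ r : ℕ, 1 ≤ r ∧ c ^ p ^ r = c)
    (hsd : ∀ m, SpanDual (RatFunc k) m) (D : Differentials (RatFunc k))

include hk hsd in
theorem step_d (m j : ℕ) (φ : TQ (RatFunc k) (m + 3) j →ₗ[ℚ] ℚ)
    (hφ : ∀ (i : ℕ) (hi : j = i + 1) (x : RatFunc k) (y : Fin i → UV (RatFunc k)), x ≠ 0 →
      φ (tq (RatFunc k) (m + 3) j (some x)
        ((Fin.cons (cl x) y : Fin (i + 1) → UV (RatFunc k)) ∘ Fin.cast hi)) = 0) :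
    ∃ ψ : TQ (RatFunc k) (m + 2) (j + 1) →ₗ[ℚ] ℚ, ∀ v, φ v = ψ (D.d m j v) := by
  obtain ⟨Ψ, hΨ, hev⟩ := ev_surj k p hk (m + 1) (toTheta φ) (fun r hr => toTheta_R φ r hr)
  have hnone : ∀ y, φ (tq (RatFunc k) (m + 3) j none y) = 0 := by
    intro y
    rw [← toTheta_apply, hev, ev_none]
    rfl
  have hsome : ∀ x y, φ (tq (RatFunc k) (m + 3) j (some x) y) =
      Ψ (cl (1 - x)) (cl x) (fun _ => cl x) y := by
    intro x y
    rw [← toTheta_apply, hev, ev_some]
  obtain ⟨Q', hQ1, hQ2⟩ := koszul_step m j (qOf Ψ) (by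
      intro s
      rw [qOf_apply, hΨ]
      rfl) (by
      intro i hi s v y
      subst hi
      have h1 := hsd (m + 2) (MultilinearMap.uncurryRight
        (M := fun _ : Fin (m + 2 + 1) => UV (RatFunc k))
        ((flipTail y).compMultilinearMap (qOf Ψ))) (by
          intro f hf0 hf1
          change qOf Ψ (fun _ => cl f) (cl (1 - f)) (Fin.cons (cl f) y) = 0
          rw [qOf_apply, ← hsome]
          exact hφ i rfl f y hf0) s v
      exact h1)
  refine ⟨ofTheta (theta' Q') (theta'_R Q' hQ1), fun v => ?_⟩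
  have h2 : φ = (ofTheta (theta' Q') (theta'_R Q' hQ1)) ∘ₗ (D.d m j) := by
    apply text
    intro x y
    rw [LinearMap.comp_apply]
    rcases x with _ | x
    · rw [hnone, D.d_inf, map_zero]
    · by_cases hx : x = 0
      · subst hx
        rw [D.d_zero, map_zero, hsome, cl_zero, map_zero]
        rfl
      · rw [D.d_some m j x y hx, ofTheta_apply, theta'_some, hQ2, qOf_apply, hsome]
  rw [h2]
  rfl

include hk hsd in
theorem step_e (j : ℕ) (φ : TQ (RatFunc k) 2 j →ₗ[ℚ] ℚ)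
    (hφ : ∀ (i : ℕ) (hi : j = i + 1) (x : RatFunc k) (y : Fin i → UV (RatFunc k)), x ≠ 0 →
      φ (tq (RatFunc k) 2 j (some x)
        ((Fin.cons (cl x) y : Fin (i + 1) → UV (RatFunc k)) ∘ Fin.cast hi)) = 0) :
    ∃ ψ : LQ (RatFunc k) (j + 2) →ₗ[ℚ] ℚ, ∀ v, φ v = ψ (D.e j v) := by
  obtain ⟨Ψ, hΨ, hev⟩ := ev_surj k p hk 0 (toTheta φ) (fun r hr => toTheta_R φ r hr)
  have hnone : ∀ y, φ (tq (RatFunc k) 2 j none y) = 0 := by
    intro y
    rw [← toTheta_apply, hev, ev_none]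
    rfl
  have hsome : ∀ x y, φ (tq (RatFunc k) 2 j (some x) y) =
      Ψ (cl (1 - x)) (cl x) (fun _ => cl x) y := by
    intro x y
    rw [← toTheta_apply, hev, ev_some]
  let Q : UV (RatFunc k) →ₗ[ℤ] (UV (RatFunc k) →ₗ[ℤ] (UV (RatFunc k) [⋀^Fin j]→ₗ[ℤ] ℚ)) :=
    LinearMap.mk₂ ℤ (fun s v => Ψ v s Fin.elim0)
      (fun a b c => by simp) (fun a b c => by simp) (fun a b c => by simp)
      (fun a b c => by simp)
  have hQ : ∀ s v, Q s v = Ψ v s (fun _ => s) := by
    intro s v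
    change Ψ v s Fin.elim0 = _
    congr 1
    exact Subsingleton.elim _ _
  obtain ⟨Θ, hΘ⟩ := koszul_last j Q (by
      intro s
      rw [hQ, hΨ]
      rfl) (by
      intro i hi s v y
      subst hi
      have h1 := hsd 1 (MultilinearMap.uncurryRight
        (M := fun _ : Fin (1 + 1) => UV (RatFunc k))
        ((flipTail y).compMultilinearMap (qOf Ψ))) (by
          intro f hf0 hf1
          change qOf Ψ (fun _ => cl f) (cl (1 - f)) (Fin.cons (cl f) y) = 0
          rw [qOf_apply, ← hsome]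
          exact hφ i rfl f y hf0) s v
      have h2 : qOf Ψ (fun _ => s) v (Fin.cons s y) = 0 := h1
      rw [qOf_apply] at h2
      rw [hQ]
      exact h2)
  refine ⟨ofAlt Θ, fun v => ?_⟩
  have h2 : φ = (ofAlt Θ) ∘ₗ (D.e j) := by
    apply text
    intro x y
    rw [LinearMap.comp_apply]
    rcases x with _ | x
    · rw [hnone, D.e_inf, map_zero]
    · by_cases hx : x = 0
      · subst hx
        rw [D.e_zero, map_zero, hsome, cl_zero, map_zero]
        rfl
      · by_cases hx1 : x = 1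
        · subst hx1
          rw [D.e_one, map_zero, hsome, sub_self, cl_zero, map_zero]
          rfl
        · rw [D.e_some j x y hx hx1, ofAlt_apply, hΘ, hQ, hsome]
  rw [h2]
  rfl

end Main

end E2

open E2 in
/-- E2: acyclicity. -/
theorem acyclic_of_spanDual (k : Type) [Field k] (p : ℕ) [Fact p.Prime] [CharP k p]
    (hk : ∀ c : k, ∃ r : ℕ, 1 ≤ r ∧ c ^ p ^ r = c)
    (hsd : ∀ m, SpanDual (RatFunc k) m) (D : Differentials (RatFunc k)) : D.Acyclic := by
  refine ⟨?_, ?_, ?_, ?_, ?_⟩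
  · intro m
    apply injective_of_dual
    intro φ
    exact step_d k p hk hsd D m 0 φ (fun i hi => by omega)
  · apply injective_of_dual
    intro φ
    exact step_e k p hk hsd D 0 φ (fun i hi => by omega)
  · intro m j
    apply exact_of_dual
    · have h0 : (D.d m (j + 1)) ∘ₗ (D.d (m + 1) j) = 0 := by
        apply text
        intro x y
        rw [LinearMap.comp_apply, LinearMap.zero_apply]
        rcases x with _ | x
        · rw [D.d_inf, map_zero]
        · by_cases hx : x = 0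
          · subst hx
            rw [D.d_zero, map_zero]
          · rw [D.d_some _ _ _ _ hx, D.d_some _ _ _ _ hx]
            unfold tq
            have h1 : exteriorPower.ιMulti ℤ (j + 1 + 1)
                (Fin.cons (cl x) (Fin.cons (cl x) y : Fin (j + 1) → UV (RatFunc k))) = 0 :=
              AlternatingMap.map_eq_zero_of_eq _ _ (i := 0) (j := 1) (by simp) (by simp)
            rw [h1, TensorProduct.tmul_zero, TensorProduct.tmul_zero]
      intro u
      exact LinearMap.congr_fun h0 u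
    · intro φ hφ
      apply step_d k p hk hsd D m (j + 1) φ
      intro i hi x y hx
      obtain rfl : j = i := by omega
      have h1 := hφ (tq (RatFunc k) (m + 1 + 3) j (some x) y)
      rw [D.d_some _ _ _ _ hx] at h1
      exact h1
  · intro j
    apply exact_of_dual
    · have h0 : (D.e (j + 1)) ∘ₗ (D.d 0 j) = 0 := by
        apply text
        intro x y
        rw [LinearMap.comp_apply, LinearMap.zero_apply]
        rcases x with _ | x
        · rw [D.d_inf, map_zero]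
        · by_cases hx : x = 0
          · subst hx
            rw [D.d_zero, map_zero]
          · rw [D.d_some _ _ _ _ hx]
            by_cases hx1 : x = 1
            · subst hx1
              exact D.e_one _ _
            · rw [D.e_some _ _ _ hx hx1]
              unfold lq
              have h1 : exteriorPower.ιMulti ℤ (j + 1 + 2)
                  (Fin.cons (cl (1 - x)) (Fin.cons (cl x)
                    (Fin.cons (cl x) y : Fin (j + 1) → UV (RatFunc k)) :
                      Fin (j + 1 + 1) → UV (RatFunc k))) = 0 :=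
                AlternatingMap.map_eq_zero_of_eq _ _ (i := ⟨1, by omega⟩) (j := ⟨2, by omega⟩)
                  (by rfl) (by simp [Fin.ext_iff])
              rw [h1, TensorProduct.tmul_zero]
      intro u
      exact LinearMap.congr_fun h0 u
    · intro φ hφ
      apply step_e k p hk hsd D (j + 1) φ
      intro i hi x y hx
      obtain rfl : j = i := by omega
      have h1 := hφ (tq (RatFunc k) (0 + 3) j (some x) y)
      rw [D.d_some _ _ _ _ hx] at h1
      exact h1
  · intro j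
    apply surjective_of_dual
    intro χ hχ
    apply lext
    intro z
    rw [LinearMap.zero_apply, ← toAlt_apply]
    have h1 : ∀ (y : Fin j → UV (RatFunc k)) (s v : UV (RatFunc k)),
        toAlt χ (Fin.cons v (Fin.cons s y)) = 0 := by
      intro y s v
      have h2 := hsd 0 (MultilinearMap.ofSubsingleton ℤ (UV (RatFunc k))
        (UV (RatFunc k) →ₗ[ℤ] ℚ) (0 : Fin 1)
        (LinearMap.flip ((evalTail y) ∘ₗ (toAlt χ).curryLeft))) (by
          intro f hf0 hf1
          change toAlt χ (Fin.cons (cl (1 - f)) (Fin.cons (cl f) y)) = 0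
          rw [toAlt_apply, ← D.e_some j f y hf0 hf1]
          exact hχ _) s v
      exact h2
    have h3 := h1 (Fin.tail (Fin.tail z)) (Fin.tail z 0) (z 0)
    rwa [Fin.cons_self_tail, Fin.cons_self_tail] at h3

end H39Gon
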