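import Pool.Agent.H39R2.Gon.Ch

/-!
# Fourier analysis: Parseval, invariances, and the multiplicity bound
-/

namespace H39Gon

open Polynomial Finset

/-- normalised exponential sum -/
noncomputable def nrm {G Ω : Type*} [AddCommGroup G] [Fintype Ω] (g : Ω → G) (χ : AddChar G ℂ) : ℝ :=
  ‖∑ ω, χ (g ω)‖ / Fintype.card Ω

theorem nrm_nonneg {G Ω : Type*} [AddCommGroup G] [Fintype Ω] (g : Ω → G) (χ : AddChar G ℂ) :
    0 ≤ nrm g χ := by unfold nrm; positivity

theorem nrm_one {G Ω : Type*} [AddCommGroup G] [Fintype Ω] [Nonempty Ω] (g : Ω → G) :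
    nrm g (1 : AddChar G ℂ) = 1 := by
  unfold nrm
  have : (Fintype.card Ω : ℝ) ≠ 0 := by exact_mod_cast Fintype.card_ne_zero
  simp [this]

theorem normSq_sum {G Ω : Type*} [AddCommGroup G] [Finite G] [Fintype Ω] (g : Ω → G)
    (χ : AddChar G ℂ) :
    ((‖∑ ω, χ (g ω)‖ ^ 2 : ℝ) : ℂ) = ∑ ω, ∑ ω', χ (g ω - g ω') := by
  have h : ∀ z : ℂ, ((‖z‖ ^ 2 : ℝ) : ℂ) = z * (starRingEnd ℂ) z := by
    intro z; rw [Complex.mul_conj, Complex.normSq_eq_norm_sq]
  rw [h, map_sum, Finset.sum_mul_sum]
  apply Finset.sum_congr rfl; intro ω _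
  apply Finset.sum_congr rfl; intro ω' _
  rw [sub_eq_add_neg, AddChar.map_add_eq_mul, AddChar.map_neg_eq_conj]

theorem parseval {G Ω : Type*} [AddCommGroup G] [Fintype G] [DecidableEq G] [Fintype Ω] (g : Ω → G) :
    ∑ χ : AddChar G ℂ, ‖∑ ω, χ (g ω)‖ ^ 2 =
      (Fintype.card G : ℝ) * ((univ.filter (fun p : Ω × Ω => g p.1 = g p.2)).card : ℝ) := by
  have h : ((∑ χ : AddChar G ℂ, ‖∑ ω, χ (g ω)‖ ^ 2 : ℝ) : ℂ) =
      (((Fintype.card G : ℝ) * ((univ.filter (fun p : Ω × Ω => g p.1 = g p.2)).card : ℝ) : ℝ) : ℂ) := by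
    rw [Complex.ofReal_sum]
    simp_rw [normSq_sum]
    rw [Finset.sum_comm]
    simp_rw [Finset.sum_comm (s := (univ : Finset (AddChar G ℂ)))]
    simp_rw [AddChar.sum_apply_eq_ite, sub_eq_zero]
    rw [Finset.card_filter]
    push_cast
    rw [← Finset.univ_product_univ, Finset.sum_product, Finset.mul_sum]
    apply Finset.sum_congr rfl; intro ω _
    rw [Finset.mul_sum]
    apply Finset.sum_congr rfl; intro ω' _
    split_ifs <;> simp
  exact_mod_cast h

theorem parseval_bound {G Ω : Type*} [AddCommGroup G] [Fintype G] [DecidableEq G] [Fintype Ω]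
    [Nonempty Ω] (g : Ω → G) (M : ℕ) (hM : ∀ ω, (univ.filter (fun ω' => g ω' = g ω)).card ≤ M) :
    ∑ χ : AddChar G ℂ, nrm g χ ^ 2 ≤ (Fintype.card G : ℝ) * M / Fintype.card Ω := by
  have hΩ : (0 : ℝ) < Fintype.card Ω := by exact_mod_cast Fintype.card_pos
  unfold nrm
  simp_rw [div_pow]
  rw [← Finset.sum_div, parseval]
  rw [div_le_div_iff₀ (by positivity) hΩ]
  have : ((univ.filter (fun p : Ω × Ω => g p.1 = g p.2)).card : ℝ) ≤ Fintype.card Ω * M := by
    have h1 : (univ.filter (fun p : Ω × Ω => g p.1 = g p.2)).card ≤ Fintype.card Ω * M := by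
      rw [Finset.card_filter, ← Finset.univ_product_univ, Finset.sum_product_right]
      calc ∑ y : Ω, ∑ x : Ω, (if g x = g y then 1 else 0)
          ≤ ∑ y : Ω, M := by
            apply Finset.sum_le_sum
            intro y _
            rw [← Finset.card_filter]
            exact hM y
        _ = Fintype.card Ω * M := by simp
    exact_mod_cast h1
  calc (Fintype.card G : ℝ) * ((univ.filter (fun p : Ω × Ω => g p.1 = g p.2)).card : ℝ) *
        Fintype.card Ω ≤ (Fintype.card G : ℝ) * (Fintype.card Ω * M) * Fintype.card Ω := by gcongr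
    _ = _ := by ring

variable {K : Type} [Field K] [Fintype K] [DecidableEq K]

/-- The space of parameters `(λ, w)` and the polynomial `λ ∏_{i ∈ S} (T - w_i)`. -/
noncomputable def gf {d : ℕ} (S : Finset (Fin d)) (n : ℕ) (h : S.card < n) :
    Kˣ × (Fin d → K) → degreeLT K n :=
  fun ω => ⟨C (ω.1 : K) * ∏ i ∈ S, (X - C (ω.2 i)), by
    rw [mem_degreeLT, degree_mul, degree_C ω.1.ne_zero, zero_add, degree_prod]
    simp only [degree_X_sub_C, sum_const, nsmul_eq_mul, mul_one]
    exact_mod_cast h⟩

omit [Fintype K] [DecidableEq K] in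
theorem gf_coe {d : ℕ} (S : Finset (Fin d)) (n : ℕ) (h : S.card < n) (ω : Kˣ × (Fin d → K)) :
    ((gf S n h ω : degreeLT K n) : K[X]) = C (ω.1 : K) * ∏ i ∈ S, (X - C (ω.2 i)) := rfl

/-- number of functions with prescribed multiset of values on `S`. -/
theorem card_multiset {d : ℕ} (S : Finset (Fin d)) (w0 : Fin d → K) :
    (univ.filter (fun w : Fin d → K => Multiset.map w S.val = Multiset.map w0 S.val)).card ≤
      Fintype.card K ^ (d - S.card) * S.card.factorial := by
  classical
  set μ := Multiset.map w0 S.val with hμ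
  have hlen : μ.toList.length = S.card := by simp [hμ]
  have := Finset.card_le_card_of_injOn
    (s := univ.filter (fun w : Fin d → K => Multiset.map w S.val = μ))
    (t := (univ : Finset ({x // x ∈ Sᶜ} → K)) ×ˢ μ.toList.permutations.toFinset)
    (fun w => (fun i => w i.1, S.toList.map w))
    (by
      intro w hw
      simp only [coe_filter, mem_univ, true_and, Set.mem_ofPred_eq] at hw
      simp only [coe_product, Set.mem_prod, mem_coe, mem_univ, true_and, List.mem_toFinset,
        List.mem_permutations]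
      rw [← Multiset.coe_eq_coe, Multiset.coe_toList, ← Multiset.map_coe, Finset.coe_toList]
      exact hw)
    (by
      intro w _ w' _ h
      simp only [Prod.mk.injEq] at h
      funext i
      by_cases hi : i ∈ S
      · have h2 := List.map_inj_left.1 h.2
        exact h2 i (by simpa using hi)
      · exact congrFun h.1 ⟨i, by simpa using hi⟩)
  refine this.trans ?_
  rw [Finset.card_product]
  apply Nat.mul_le_mul
  · simp [Finset.card_compl]
  · refine (List.toFinset_card_le _).trans ?_
    rw [List.length_permutations, hlen]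

theorem gf_mult {d : ℕ} (S : Finset (Fin d)) (n : ℕ) (h : S.card < n) (ω : Kˣ × (Fin d → K)) :
    (univ.filter (fun ω' : Kˣ × (Fin d → K) => gf S n h ω' = gf S n h ω)).card ≤
      Fintype.card K ^ (d - S.card) * S.card.factorial := by
  classical
  refine le_trans ?_ (card_multiset S ω.2)
  apply Finset.card_le_card_of_injOn (fun ω' => ω'.2)
  · intro ω' hω'
    simp only [coe_filter, mem_univ, true_and, Set.mem_ofPred_eq] at hω' ⊢
    have h1 := congrArg (fun P : degreeLT K n => (P : K[X]).roots) hω'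
    simp only [gf_coe] at h1
    rw [roots_C_mul _ ω'.1.ne_zero, roots_C_mul _ ω.1.ne_zero] at h1
    have e : ∀ w : Fin d → K, (∏ i ∈ S, (X - C (w i))).roots = Multiset.map w S.val := by
      intro w
      have : ∏ i ∈ S, (X - C (w i)) = (Multiset.map (fun a => X - C a) (Multiset.map w S.val)).prod := by
        rw [Multiset.map_map]; rfl
      rw [this, roots_multiset_prod_X_sub_C]
    rw [e, e] at h1
    exact h1
  · intro ω' h' ω'' h'' h2
    simp only [coe_filter, mem_univ, true_and, Set.mem_ofPred_eq] at h' h''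
    have h3 := congrArg (fun P : degreeLT K n => (P : K[X]).leadingCoeff) (h'.trans h''.symm)
    simp only [gf_coe, leadingCoeff_mul, leadingCoeff_C, leadingCoeff_prod,
      leadingCoeff_X_sub_C, prod_const_one, mul_one] at h3
    exact Prod.ext (Units.ext h3) h2

/-- (P) Parseval bound. -/
theorem parseval_gf {d : ℕ} (S : Finset (Fin d)) :
    ∑ χ : AddChar (degreeLT K (S.card + 1)) ℂ, nrm (gf (K := K) S (S.card + 1) (Nat.lt_succ_self _)) χ ^ 2
      ≤ 2 * d.factorial := by
  classical
  have hq : 2 ≤ Fintype.card K := Fintype.one_lt_card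
  have hSd : S.card ≤ d := by simpa using Finset.card_le_univ S
  refine (parseval_bound _ _ (gf_mult S (S.card + 1) (Nat.lt_succ_self _))).trans ?_
  have hcu : Fintype.card Kˣ = Fintype.card K - 1 := Fintype.card_units K
  have hc : Fintype.card (Kˣ × (Fin d → K)) = (Fintype.card K - 1) * Fintype.card K ^ d := by
    rw [Fintype.card_prod, hcu]; simp
  rw [hc, card_degreeLT]
  set q := Fintype.card K with hqdef
  have hq1 : (1 : ℝ) ≤ (q : ℝ) - 1 := by
    have : (2 : ℝ) ≤ q := by exact_mod_cast hq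
    linarith
  rw [div_le_iff₀ (by
    have : 0 < q - 1 := by omega
    positivity)]
  push_cast [Nat.cast_sub (by omega : 1 ≤ q)]
  have hf : (S.card.factorial : ℝ) ≤ d.factorial := by exact_mod_cast Nat.factorial_le hSd
  have hqp : (0 : ℝ) < q := by linarith
  have e : (q : ℝ) ^ (S.card + 1) * (q ^ (d - S.card) * S.card.factorial) =
      (q * q ^ d) * S.card.factorial := by
    have : (q : ℝ) ^ d = q ^ S.card * q ^ (d - S.card) := by
      rw [← pow_add]; congr 1; omega
    rw [this]; ring
  rw [e]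
  calc (q : ℝ) * q ^ d * S.card.factorial ≤ (2 * (q - 1)) * q ^ d * d.factorial := by
        gcongr; linarith
    _ = _ := by ring

end H39Gon
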