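import Pool.Agent.H39R2.Gon.Four

/-!
# Scaling and translation bounds
-/

namespace H39Gon

open Polynomial Finset

variable {K : Type} [Field K]

theorem C_nd (u : K) {n : ℕ} : (C u : K[X]).natDegree + n ≤ n := by simp

/-- `(uχ)(P) = χ(uP)` -/
noncomputable def scl (u : K) {n : ℕ} (χ : AddChar (degreeLT K n) ℂ) : AddChar (degreeLT K n) ℂ :=
  resC (C u) (C_nd u) χ

theorem scl_apply (u : K) {n : ℕ} (χ : AddChar (degreeLT K n) ℂ) (P : degreeLT K n) :
    scl u χ P = χ (u • P) := by
  unfold scl
  rw [resC_apply]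
  congr 1
  ext1
  simp [Polynomial.smul_eq_C_mul]

theorem scl_resC (u : K) (M : K[X]) {a b : ℕ} (h : M.natDegree + a ≤ b)
    (χ : AddChar (degreeLT K b) ℂ) : resC M h (scl u χ) = scl u (resC M h χ) := by
  ext P
  rw [resC_apply, scl_apply, scl_apply, resC_apply]
  congr 1
  ext1
  simp [Polynomial.smul_eq_C_mul]
  ring

theorem scl_inj {n : ℕ} (χ : AddChar (degreeLT K n) ℂ) (hχ : χ ≠ 1) (u v : K)
    (h : scl u χ = scl v χ) : u = v := by
  by_contra huv
  apply hχ
  ext P
  have hne : u - v ≠ 0 := sub_ne_zero.2 huv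
  have h1 := DFunLike.congr_fun h ((u - v)⁻¹ • P)
  rw [scl_apply, scl_apply] at h1
  have h2 : P = u • ((u - v)⁻¹ • P) + -(v • ((u - v)⁻¹ • P)) := by
    apply Subtype.ext
    change P.1 = u • ((u - v)⁻¹ • P.1) + -(v • ((u - v)⁻¹ • P.1))
    rw [smul_smul, smul_smul, ← sub_eq_add_neg, ← sub_smul, ← sub_mul, mul_inv_cancel₀ hne,
      one_smul]
  rw [h2, AddChar.map_add_eq_mul, h1, ← AddChar.map_add_eq_mul, add_neg_cancel]
  simp

theorem scl_bij {n : ℕ} (u : Kˣ) :
    Function.Bijective (scl (u : K) : AddChar (degreeLT K n) ℂ → AddChar (degreeLT K n) ℂ) := by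
  have h : ∀ (u : Kˣ) (χ : AddChar (degreeLT K n) ℂ), scl ((u⁻¹ : Kˣ) : K) (scl (u : K) χ) = χ := by
    intro u χ
    ext P
    rw [scl_apply, scl_apply, smul_smul]
    simp
  constructor
  · intro χ χ' hh
    rw [← h u χ, ← h u χ', hh]
  · intro χ
    refine ⟨scl ((u⁻¹ : Kˣ) : K) χ, ?_⟩
    have := h u⁻¹ χ
    rwa [inv_inv] at this

theorem nrm_scl [Fintype K] [DecidableEq K] {d : ℕ} (S : Finset (Fin d)) (n : ℕ) (h : S.card < n)
    (u : Kˣ) (χ : AddChar (degreeLT K n) ℂ) : nrm (gf S n h) (scl (u : K) χ) = nrm (gf S n h) χ := by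
  unfold nrm
  congr 2
  refine Fintype.sum_equiv ((Equiv.mulLeft u).prodCongr (Equiv.refl _)) _ _ ?_
  intro ω
  rw [scl_apply]
  congr 1
  ext1
  simp [gf_coe, Polynomial.smul_eq_C_mul, mul_assoc]

/-- Scaling bound. -/
theorem scaling_bound [Fintype K] [DecidableEq K] {d : ℕ} (S : Finset (Fin d)) (M : K[X]) {a : ℕ}
    (h : M.natDegree + a ≤ S.card + 1) (Q : AddChar (degreeLT K a) ℂ) (hQ : Q ≠ 1)
    [DecidableEq (AddChar (degreeLT K a) ℂ)] :
    ∑ χ ∈ univ.filter (fun χ : AddChar (degreeLT K (S.card + 1)) ℂ => resC M h χ = Q),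
      nrm (gf (K := K) S (S.card + 1) (Nat.lt_succ_self _)) χ ^ 2 ≤
      2 * d.factorial / ((Fintype.card K : ℝ) - 1) := by
  classical
  have hq : 2 ≤ Fintype.card K := Fintype.one_lt_card
  have hq1 : (1 : ℝ) ≤ (Fintype.card K : ℝ) - 1 := by
    have : (2 : ℝ) ≤ Fintype.card K := by exact_mod_cast hq
    linarith
  set F : AddChar (degreeLT K a) ℂ → ℝ := fun Q =>
    ∑ χ ∈ univ.filter (fun χ : AddChar (degreeLT K (S.card + 1)) ℂ => resC M h χ = Q),
      nrm (gf (K := K) S (S.card + 1) (Nat.lt_succ_self _)) χ ^ 2 with hF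
  have hinv : ∀ u : Kˣ, F (scl (u : K) Q) = F Q := by
    intro u
    rw [hF]
    simp only
    symm
    apply Finset.sum_bij' (fun χ _ => scl (u : K) χ) (fun χ _ => scl ((u⁻¹ : Kˣ) : K) χ)
    · intro χ hχ
      simp only [mem_filter, mem_univ, true_and] at hχ ⊢
      rw [scl_resC, hχ]
    · intro χ hχ
      simp only [mem_filter, mem_univ, true_and] at hχ ⊢
      rw [scl_resC, hχ]
      ext P; simp [scl_apply, smul_smul]
    · intro χ _
      ext P; simp [scl_apply, smul_smul]
    · intro χ _
      ext P; simp [scl_apply, smul_smul]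
    · intro χ _
      rw [nrm_scl]
  have hsum : ∑ u : Kˣ, F (scl (u : K) Q) ≤ ∑ Q', F Q' := by
    apply sum_le_of_inj univ univ (fun u : Kˣ => scl (u : K) Q)
    · intro u _ v _ huv
      exact Units.ext (scl_inj Q hQ _ _ huv)
    · intro _ _; exact mem_univ _
    · intro Q'; exact Finset.sum_nonneg (fun _ _ => sq_nonneg _)
  have htot : ∑ Q', F Q' = ∑ χ : AddChar (degreeLT K (S.card + 1)) ℂ,
      nrm (gf (K := K) S (S.card + 1) (Nat.lt_succ_self _)) χ ^ 2 := by
    rw [hF]
    exact Finset.sum_fiberwise univ (fun χ => resC M h χ) _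
  have hP := parseval_gf (K := K) S
  simp_rw [hinv] at hsum
  rw [htot, Finset.sum_const, Finset.card_univ, Fintype.card_units K, nsmul_eq_mul,
    Nat.cast_sub (by omega), Nat.cast_one] at hsum
  rw [le_div_iff₀ (by linarith)]
  have : F Q * ((Fintype.card K : ℝ) - 1) = ((Fintype.card K : ℝ) - 1) * F Q := by ring
  change F Q * ((Fintype.card K : ℝ) - 1) ≤ _
  rw [this]
  linarith

/-! ### translations -/

/-- `P(T) ↦ P(T+t)` -/
noncomputable def tay (t : K) (n : ℕ) : degreeLT K n →+ degreeLT K n where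
  toFun P := ⟨taylor t P.1, by
    have := P.2
    rw [mem_degreeLT] at this ⊢
    rwa [degree_taylor]⟩
  map_zero' := by ext1; simp
  map_add' P Q := by ext1; simp

@[simp] theorem tay_coe (t : K) (n : ℕ) (P : degreeLT K n) :
    ((tay t n P : degreeLT K n) : K[X]) = taylor t P.1 := rfl

theorem tay_tay (t s : K) (n : ℕ) (P : degreeLT K n) : tay t n (tay s n P) = tay (t + s) n P := by
  ext1; simp [taylor_taylor]

theorem tay_zero (n : ℕ) (P : degreeLT K n) : tay 0 n P = P := by
  ext1; simp

theorem tay_neg (t : K) (n : ℕ) (P : degreeLT K n) : tay t n (tay (-t) n P) = P := by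
  rw [tay_tay, add_neg_cancel, tay_zero]

theorem tay_neg' (t : K) (n : ℕ) (P : degreeLT K n) : tay (-t) n (tay t n P) = P := by
  rw [tay_tay, neg_add_cancel, tay_zero]

/-- translated character -/
noncomputable def trc (t : K) {n : ℕ} (χ : AddChar (degreeLT K n) ℂ) : AddChar (degreeLT K n) ℂ :=
  χ.compAddMonoidHom (tay t n)

@[simp] theorem trc_apply (t : K) {n : ℕ} (χ : AddChar (degreeLT K n) ℂ) (P : degreeLT K n) :
    trc t χ P = χ (tay t n P) := rfl

theorem trc_neg (t : K) {n : ℕ} (χ : AddChar (degreeLT K n) ℂ) : trc (-t) (trc t χ) = χ := by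
  ext P; simp [tay_neg]

theorem trc_neg' (t : K) {n : ℕ} (χ : AddChar (degreeLT K n) ℂ) : trc t (trc (-t) χ) = χ := by
  ext P; simp [tay_neg']

theorem nrm_trc [Fintype K] [DecidableEq K] {d : ℕ} (S : Finset (Fin d)) (n : ℕ) (h : S.card < n)
    (t : K) (χ : AddChar (degreeLT K n) ℂ) : nrm (gf S n h) (trc t χ) = nrm (gf S n h) χ := by
  unfold nrm
  congr 2
  refine Fintype.sum_equiv ((Equiv.refl _).prodCongr (Equiv.subRight (fun _ => t))) _ _ ?_
  intro ω
  rw [trc_apply]
  congr 1
  ext1
  rw [tay_coe, gf_coe, gf_coe, taylor_mul, taylor_C]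
  congr 1
  rw [← taylorAlgHom_apply, map_prod]
  apply Finset.prod_congr rfl
  intro i _
  simp only [taylorAlgHom_apply, Equiv.prodCongr_apply, Prod.map, Equiv.coe_refl, id,
    Equiv.subRight_apply, Pi.sub_apply]
  rw [map_sub, taylor_X, taylor_C, C_sub]
  ring

/-- Translation bound. -/
theorem translation_bound [Fintype K] [DecidableEq K] {d : ℕ} (S : Finset (Fin d)) {ι : Type}
    (N : Finset ι) (z : ι → K) {a : ℕ}
    (h : (∏ i ∈ N, (X - C (z i))).natDegree + a = S.card + 1) (hN : 2 * N.card ≤ S.card + 1)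
    [DecidableEq (AddChar (degreeLT K a) ℂ)] :
    ∑ χ ∈ univ.filter (fun χ : AddChar (degreeLT K (S.card + 1)) ℂ =>
        resC (∏ i ∈ N, (X - C (z i))) h.le χ = 1),
      nrm (gf (K := K) S (S.card + 1) (Nat.lt_succ_self _)) χ ^ 2 ≤
      1 + (N.card : ℝ) ^ 2 * (2 * d.factorial) / (Fintype.card K : ℝ) := by
  classical
  set al : AddChar (degreeLT K (S.card + 1)) ℂ → ℝ :=
    fun χ => nrm (gf (K := K) S (S.card + 1) (Nat.lt_succ_self _)) χ ^ 2 with hal
  have hq : (0 : ℝ) < Fintype.card K := by exact_mod_cast Fintype.card_pos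
  -- the translated polynomials
  set G : K → K[X] := fun t => ∏ i ∈ N, (X - C (z i - t)) with hG
  have hGm : ∀ t, (G t).Monic := fun t => monic_prod_of_monic _ _ (fun i _ => monic_X_sub_C _)
  have hGd : ∀ t, (G t).natDegree = N.card := by
    intro t; rw [hG]; simp only; rw [natDegree_prod_of_monic _ _ (fun i _ => monic_X_sub_C _)]
    simp only [natDegree_X_sub_C, sum_const, smul_eq_mul, mul_one]
  have hG0 : ∏ i ∈ N, (X - C (z i)) = G 0 := by rw [hG]; simp
  have hGt : ∀ t, taylor t (G 0) = G t := by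
    intro t
    rw [hG]; simp only [sub_zero]
    rw [← taylorAlgHom_apply, map_prod]
    apply Finset.prod_congr rfl
    intro i _
    simp only [taylorAlgHom_apply]
    rw [map_sub, taylor_X, taylor_C, C_sub]
    ring
  have hNd : (∏ i ∈ N, (X - C (z i))).natDegree = N.card := by rw [hG0, hGd]
  have ha : ∀ t, (G t).natDegree + a = S.card + 1 := by intro t; rw [hGd, ← hNd]; exact h
  -- D t
  set D : K → ℝ := fun t => ∑ χ ∈ (univ.filter (fun χ : AddChar (degreeLT K (S.card + 1)) ℂ =>
        resC (G t) (ha t).le χ = 1)).erase 1, al χ with hD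
  have hDt : ∀ t, D t = D 0 := by
    intro t
    rw [hD]
    simp only
    apply Finset.sum_bij' (fun χ _ => trc t χ) (fun χ _ => trc (-t) χ)
    · intro χ hχ
      simp only [mem_filter, mem_univ, true_and, mem_erase] at hχ ⊢
      refine ⟨?_, ?_⟩
      · intro h1
        apply hχ.1
        rw [← trc_neg t χ, h1]
        ext P; simp
      · ext P
        rw [resC_apply, trc_apply]
        have h2 := DFunLike.congr_fun hχ.2 (tay t _ P)
        rw [resC_apply] at h2
        rw [AddChar.one_apply] at h2 ⊢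
        rw [← h2]
        congr 1
        ext1
        rw [tay_coe, mulMap_coe, mulMap_coe, taylor_mul, hGt, tay_coe]
    · intro χ hχ
      simp only [mem_filter, mem_univ, true_and, mem_erase] at hχ ⊢
      refine ⟨?_, ?_⟩
      · intro h1
        apply hχ.1
        rw [← trc_neg' t χ, h1]
        ext P; simp
      · ext P
        rw [resC_apply, trc_apply]
        have h2 := DFunLike.congr_fun hχ.2 (tay (-t) _ P)
        rw [resC_apply] at h2
        rw [AddChar.one_apply] at h2 ⊢
        rw [← h2]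
        congr 1
        ext1
        rw [tay_coe, mulMap_coe, mulMap_coe, taylor_mul, ← hGt t, taylor_taylor, neg_add_cancel,
          taylor_zero, tay_coe]
    · intro χ _
      exact trc_neg t χ
    · intro χ _
      exact trc_neg' t χ
    · intro χ _
      rw [hal]; simp only
      rw [nrm_trc]
  have hcount : ∀ χ : AddChar (degreeLT K (S.card + 1)) ℂ, χ ≠ 1 →
      (univ.filter (fun t : K => resC (G t) (ha t).le χ = 1)).card ≤ N.card ^ 2 := by
    intro χ hχ
    by_cases hne : (univ.filter (fun t : K => resC (G t) (ha t).le χ = 1)).Nonempty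
    · obtain ⟨t0, ht0⟩ := hne
      simp only [mem_filter, mem_univ, true_and] at ht0
      have hsub : univ.filter (fun t : K => resC (G t) (ha t).le χ = 1) ⊆
          (N ×ˢ N).image (fun p => z p.1 - z p.2 + t0) := by
        intro t ht
        simp only [mem_filter, mem_univ, true_and] at ht
        by_contra hcon
        apply hχ
        have hcop : IsCoprime (G t) (G t0) := by
          rw [hG]; simp only
          apply IsCoprime.prod_left; intro i hi
          apply IsCoprime.prod_right; intro j hj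
          apply isCoprime_X_sub_C_of_isUnit_sub
          rw [isUnit_iff_ne_zero]
          intro h0
          apply hcon
          rw [Finset.mem_image]
          refine ⟨(i, j), by simp [hi, hj], ?_⟩
          simp only
          linear_combination h0
        apply resC_inj (hGm t) (hGm t0) hcop (ha t) (ha t0) (by rw [hGd, hGd]; omega) χ 1
        · rw [ht, resC_one]
        · rw [ht0, resC_one]
      refine (Finset.card_le_card hsub).trans (Finset.card_image_le.trans ?_)
      rw [Finset.card_product, sq]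
    · rw [Finset.not_nonempty_iff_eq_empty] at hne
      rw [hne]; simp
  have hsum : ∑ t : K, D t ≤ (N.card : ℝ) ^ 2 * (2 * d.factorial) := by
    calc ∑ t : K, D t = ∑ t : K, ∑ χ ∈ univ.erase (1 : AddChar (degreeLT K (S.card + 1)) ℂ),
          (if resC (G t) (ha t).le χ = 1 then al χ else 0) := by
          apply Finset.sum_congr rfl; intro t _
          rw [hD]; simp only
          rw [← Finset.sum_filter]
          apply Finset.sum_congr _ (fun _ _ => rfl)
          ext χ; simp only [mem_erase, mem_filter, mem_univ, true_and]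
          tauto
      _ = ∑ χ ∈ univ.erase (1 : AddChar (degreeLT K (S.card + 1)) ℂ),
          ((univ.filter (fun t : K => resC (G t) (ha t).le χ = 1)).card : ℝ) * al χ := by
          rw [Finset.sum_comm]
          apply Finset.sum_congr rfl; intro χ _
          rw [← Finset.sum_filter, Finset.sum_const, nsmul_eq_mul]
      _ ≤ ∑ χ ∈ univ.erase (1 : AddChar (degreeLT K (S.card + 1)) ℂ), (N.card : ℝ) ^ 2 * al χ := by
          apply Finset.sum_le_sum
          intro χ hχ
          have := hcount χ (Finset.ne_of_mem_erase hχ)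
          have h0 : 0 ≤ al χ := sq_nonneg _
          have h1 : ((univ.filter (fun t : K => resC (G t) (ha t).le χ = 1)).card : ℝ) ≤
              (N.card : ℝ) ^ 2 := by exact_mod_cast this
          exact mul_le_mul_of_nonneg_right h1 h0
      _ ≤ ∑ χ, (N.card : ℝ) ^ 2 * al χ := by
          apply Finset.sum_le_sum_of_subset_of_nonneg (Finset.erase_subset _ _)
          intro χ _ _
          have h0 : 0 ≤ al χ := sq_nonneg _
          positivity
      _ ≤ _ := by
          rw [← Finset.mul_sum]
          have := parseval_gf (K := K) S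
          apply mul_le_mul_of_nonneg_left this (by positivity)
  simp_rw [hDt] at hsum
  rw [Finset.sum_const, Finset.card_univ, nsmul_eq_mul] at hsum
  have hfin : ∑ χ ∈ univ.filter (fun χ : AddChar (degreeLT K (S.card + 1)) ℂ =>
        resC (∏ i ∈ N, (X - C (z i))) h.le χ = 1), al χ = D 0 + al 1 := by
    have e : univ.filter (fun χ : AddChar (degreeLT K (S.card + 1)) ℂ =>
        resC (∏ i ∈ N, (X - C (z i))) h.le χ = 1) =
        univ.filter (fun χ : AddChar (degreeLT K (S.card + 1)) ℂ =>
        resC (G 0) (ha 0).le χ = 1) := by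
      ext χ
      simp only [mem_filter, mem_univ, true_and]
      have : resC (∏ i ∈ N, (X - C (z i))) h.le χ = resC (G 0) (ha 0).le χ := by
        ext P
        rw [resC_apply, resC_apply]
        congr 1
        ext1
        simp [hG0]
      rw [this]
    rw [e, hD]
    simp only
    rw [Finset.sum_erase_add]
    simp only [mem_filter, mem_univ, true_and]
    exact resC_one _ _
  change ∑ χ ∈ univ.filter (fun χ : AddChar (degreeLT K (S.card + 1)) ℂ =>
        resC (∏ i ∈ N, (X - C (z i))) h.le χ = 1), al χ ≤ _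
  rw [hfin]
  have hal1 : al 1 = 1 := by
    rw [hal]; simp only
    rw [nrm_one]; simp
  rw [hal1]
  have : D 0 ≤ (N.card : ℝ) ^ 2 * (2 * d.factorial) / (Fintype.card K : ℝ) := by
    rw [le_div_iff₀ hq]; linarith
  linarith

end H39Gon
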