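import Pool.Agent.H39R2.Gon.Base

/-!
# Abstract inequalities for the count theorem
-/

namespace H39Gon

open Finset

/-- sums along an injective map -/
theorem sum_le_of_inj {X Y : Type*} [DecidableEq Y] (F : Finset X) (G : Finset Y) (φ : X → Y)
    (hφ : ∀ x ∈ F, ∀ y ∈ F, φ x = φ y → x = y) (hm : ∀ x ∈ F, φ x ∈ G) (f : Y → ℝ)
    (hf : ∀ y, 0 ≤ f y) : ∑ x ∈ F, f (φ x) ≤ ∑ y ∈ G, f y := by
  rw [← Finset.sum_image (f := f) (s := F) (g := φ) (by
    intro x hx y hy h; exact hφ x hx y hy h)]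
  apply Finset.sum_le_sum_of_subset_of_nonneg
  · intro y hy
    rw [Finset.mem_image] at hy
    obtain ⟨x, hx, rfl⟩ := hy
    exact hm x hx
  · intro i _ _; exact hf i

theorem lw {X Y0 Y1 Y2 Θ : Type*} [Fintype X] [Fintype Y0] [Fintype Y1] [Fintype Y2] [Fintype Θ]
    [DecidableEq Y0] [DecidableEq Y1] [DecidableEq Y2] [DecidableEq Θ]
    (p0 : X → Y0) (p1 : X → Y1) (p2 : X → Y2) (t0 : Y0 → Θ) (t1 : Y1 → Θ)
    (h01 : ∀ x, t0 (p0 x) = t1 (p1 x)) (hinj : ∀ x y, p0 x = p0 y → p1 x = p1 y → x = y)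
    (h2 : ∀ x y, t0 (p0 x) = t0 (p0 y) → p2 x = p2 y → x = y)
    (a0 : Y0 → ℝ) (a1 : Y1 → ℝ) (a2 : Y2 → ℝ) :
    ∑ x, a0 (p0 x) * a1 (p1 x) * a2 (p2 x) ≤
      √(∑ y, a0 y ^ 2) * √(∑ y, a1 y ^ 2) * √(∑ y, a2 y ^ 2) := by
  classical
  set A : Θ → ℝ := fun c => ∑ y ∈ univ.filter (fun y => t0 y = c), a0 y ^ 2 with hA
  set B : Θ → ℝ := fun c => ∑ y ∈ univ.filter (fun y => t1 y = c), a1 y ^ 2 with hB
  have hA0 : ∀ c, 0 ≤ A c := fun c => Finset.sum_nonneg (fun _ _ => sq_nonneg _)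
  have hB0 : ∀ c, 0 ≤ B c := fun c => Finset.sum_nonneg (fun _ _ => sq_nonneg _)
  have step : ∀ c : Θ, ∑ x ∈ univ.filter (fun x => t0 (p0 x) = c),
      a0 (p0 x) * a1 (p1 x) * a2 (p2 x) ≤ (√(A c) * √(B c)) * √(∑ y, a2 y ^ 2) := by
    intro c
    refine (Real.sum_mul_le_sqrt_mul_sqrt _ _ _).trans ?_
    apply mul_le_mul
    · rw [← Real.sqrt_mul (hA0 c)]
      apply Real.sqrt_le_sqrt
      have := sum_le_of_inj (univ.filter (fun x => t0 (p0 x) = c))
        ((univ.filter (fun y => t0 y = c)) ×ˢ (univ.filter (fun y => t1 y = c)))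
        (fun x => (p0 x, p1 x))
        (by intro x _ y _ h
            rw [Prod.mk.injEq] at h
            exact hinj x y h.1 h.2)
        (by intro x hx
            simp only [mem_filter, mem_univ, true_and] at hx
            simp [hx, ← h01])
        (fun y => a0 y.1 ^ 2 * a1 y.2 ^ 2) (fun y => by positivity)
      rw [Finset.sum_product] at this
      simp only [] at this
      calc ∑ x ∈ univ.filter (fun x => t0 (p0 x) = c), (a0 (p0 x) * a1 (p1 x)) ^ 2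
          = ∑ x ∈ univ.filter (fun x => t0 (p0 x) = c), a0 (p0 x) ^ 2 * a1 (p1 x) ^ 2 := by
            apply Finset.sum_congr rfl; intro x _; ring
        _ ≤ _ := this
        _ = A c * B c := by
            rw [hA, hB]; simp only [Finset.sum_mul_sum]
    · apply Real.sqrt_le_sqrt
      exact sum_le_of_inj (univ.filter (fun x => t0 (p0 x) = c)) univ (fun x => p2 x)
        (by intro x hx y hy h
            simp only [mem_filter, mem_univ, true_and] at hx hy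
            exact h2 x y (hx.trans hy.symm) h)
        (fun _ _ => mem_univ _) (fun y => a2 y ^ 2) (fun y => sq_nonneg _)
    · exact Real.sqrt_nonneg _
    · positivity
  calc ∑ x, a0 (p0 x) * a1 (p1 x) * a2 (p2 x)
      = ∑ c : Θ, ∑ x ∈ univ.filter (fun x => t0 (p0 x) = c),
          a0 (p0 x) * a1 (p1 x) * a2 (p2 x) := by
        rw [Finset.sum_fiberwise]
    _ ≤ ∑ c : Θ, (√(A c) * √(B c)) * √(∑ y, a2 y ^ 2) := Finset.sum_le_sum (fun c _ => step c)
    _ = (∑ c : Θ, √(A c) * √(B c)) * √(∑ y, a2 y ^ 2) := by rw [Finset.sum_mul]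
    _ ≤ _ := by
        apply mul_le_mul_of_nonneg_right _ (Real.sqrt_nonneg _)
        refine (Real.sum_mul_le_sqrt_mul_sqrt _ _ _).trans ?_
        have e1 : ∑ c : Θ, √(A c) ^ 2 = ∑ y, a0 y ^ 2 := by
          rw [← Finset.sum_fiberwise univ t0 (fun y => a0 y ^ 2)]
          apply Finset.sum_congr rfl
          intro c _
          rw [Real.sq_sqrt (hA0 c)]
        have e2 : ∑ c : Θ, √(B c) ^ 2 = ∑ y, a1 y ^ 2 := by
          rw [← Finset.sum_fiberwise univ t1 (fun y => a1 y ^ 2)]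
          apply Finset.sum_congr rfl
          intro c _
          rw [Real.sq_sqrt (hB0 c)]
        rw [e1, e2]

/-- The abstract error bound.  `X` = characters of `G`, `Yi` = characters of `G_i`,
`H` = characters of the common subgroup. -/
theorem abstract_bound {X Y0 Y1 Y2 Θ H : Type*} [Fintype X] [Fintype Y0] [Fintype Y1] [Fintype Y2]
    [Fintype Θ] [Fintype H] [DecidableEq X]
    [DecidableEq Y0] [DecidableEq Y1] [DecidableEq Y2] [DecidableEq Θ] [DecidableEq H]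
    (p0 : X → Y0) (p1 : X → Y1) (p2 : X → Y2) (t0 : Y0 → Θ) (t1 : Y1 → Θ)
    (h01 : ∀ x, t0 (p0 x) = t1 (p1 x)) (hinj : ∀ x y, p0 x = p0 y → p1 x = p1 y → x = y)
    (h2 : ∀ x y, t0 (p0 x) = t0 (p0 y) → p2 x = p2 y → x = y)
    (r0 : Y0 → H) (r1 : Y1 → H) (r2 : Y2 → H)
    (hr1 : ∀ x, r1 (p1 x) = r0 (p0 x)) (hr2 : ∀ x, r2 (p2 x) = r0 (p0 x))
    (x1 : X)
    (a0 : Y0 → ℝ) (a1 : Y1 → ℝ) (a2 : Y2 → ℝ) (ha0 : ∀ y, 0 ≤ a0 y) (ha1 : ∀ y, 0 ≤ a1 y)
    (ha2 : ∀ y, 0 ≤ a2 y)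
    (hone : a0 (p0 x1) * a1 (p1 x1) * a2 (p2 x1) = 1)
    (C0 η δ : ℝ) (hC0 : 0 ≤ C0) (hδ : 0 ≤ δ)
    (hS0 : ∑ y, a0 y ^ 2 ≤ C0) (hS1 : ∑ y, a1 y ^ 2 ≤ C0)
    (hη : ∀ Q, Q ≠ r0 (p0 x1) → ∑ y ∈ univ.filter (fun y => r2 y = Q), a2 y ^ 2 ≤ η)
    (hδ0 : ∑ y ∈ univ.filter (fun y => r0 y = r0 (p0 x1)), a0 y ^ 2 ≤ 1 + δ)
    (hδ1 : ∑ y ∈ univ.filter (fun y => r1 y = r0 (p0 x1)), a1 y ^ 2 ≤ 1 + δ)
    (hδ2 : ∑ y ∈ univ.filter (fun y => r2 y = r0 (p0 x1)), a2 y ^ 2 ≤ 1 + δ) :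
    ∑ x ∈ univ.erase x1, a0 (p0 x) * a1 (p1 x) * a2 (p2 x) ≤ C0 * √η + ((1 + δ) ^ 2 - 1) := by
  classical
  set q1 := r0 (p0 x1) with hq1
  set S0 : H → ℝ := fun Q => ∑ y ∈ univ.filter (fun y => r0 y = Q), a0 y ^ 2 with hS0d
  set S1 : H → ℝ := fun Q => ∑ y ∈ univ.filter (fun y => r1 y = Q), a1 y ^ 2 with hS1d
  set S2 : H → ℝ := fun Q => ∑ y ∈ univ.filter (fun y => r2 y = Q), a2 y ^ 2 with hS2d
  have n0 : ∀ c, 0 ≤ S0 c := fun c => Finset.sum_nonneg (fun _ _ => sq_nonneg _)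
  have n1 : ∀ c, 0 ≤ S1 c := fun c => Finset.sum_nonneg (fun _ _ => sq_nonneg _)
  have n2 : ∀ c, 0 ≤ S2 c := fun c => Finset.sum_nonneg (fun _ _ => sq_nonneg _)
  set g : X → ℝ := fun x => a0 (p0 x) * a1 (p1 x) * a2 (p2 x) with hg
  have key : ∀ Q : H, ∑ x ∈ univ.filter (fun x => r0 (p0 x) = Q), g x ≤
      √(S0 Q) * √(S1 Q) * √(S2 Q) := by
    intro Q
    have := lw p0 p1 p2 t0 t1 h01 hinj h2 (fun y => if r0 y = Q then a0 y else 0)
      (fun y => if r1 y = Q then a1 y else 0) (fun y => if r2 y = Q then a2 y else 0)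
    have e0 : ∑ y, (if r0 y = Q then a0 y else 0) ^ 2 = S0 Q := by
      rw [hS0d]; simp only; rw [Finset.sum_filter]
      apply Finset.sum_congr rfl; intro y _; split_ifs <;> simp
    have e1 : ∑ y, (if r1 y = Q then a1 y else 0) ^ 2 = S1 Q := by
      rw [hS1d]; simp only; rw [Finset.sum_filter]
      apply Finset.sum_congr rfl; intro y _; split_ifs <;> simp
    have e2 : ∑ y, (if r2 y = Q then a2 y else 0) ^ 2 = S2 Q := by
      rw [hS2d]; simp only; rw [Finset.sum_filter]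
      apply Finset.sum_congr rfl; intro y _; split_ifs <;> simp
    rw [e0, e1, e2] at this
    refine le_trans (le_of_eq ?_) this
    rw [Finset.sum_filter]
    apply Finset.sum_congr rfl
    intro x _
    by_cases h : r0 (p0 x) = Q
    · simp [h, hr1, hr2, hg]
    · simp [h]
  have split : ∑ x ∈ univ.erase x1, g x = (∑ Q ∈ univ.erase q1,
      ∑ x ∈ univ.filter (fun x => r0 (p0 x) = Q), g x) +
      (∑ x ∈ univ.filter (fun x => r0 (p0 x) = q1), g x - g x1) := by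
    have h1 := Finset.sum_fiberwise univ (fun x => r0 (p0 x)) g
    have h2 := Finset.sum_erase_add univ g (mem_univ x1)
    have h3 := Finset.sum_erase_add univ
      (fun Q => ∑ x ∈ univ.filter (fun x => r0 (p0 x) = Q), g x) (mem_univ q1)
    linarith
  rw [split]
  have hg1 : g x1 = 1 := hone
  have bound2 : ∑ x ∈ univ.filter (fun x => r0 (p0 x) = q1), g x ≤ (1 + δ) ^ 2 := by
    refine (key q1).trans ?_
    have b0 : √(S0 q1) ≤ √(1 + δ) := Real.sqrt_le_sqrt hδ0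
    have b1 : √(S1 q1) ≤ √(1 + δ) := Real.sqrt_le_sqrt hδ1
    have b2 : √(S2 q1) ≤ √(1 + δ) := Real.sqrt_le_sqrt hδ2
    have c0 : √(1 + δ) ≤ 1 + δ := by
      rw [Real.sqrt_le_left (by linarith)]
      nlinarith
    have c1 : √(1 + δ) * √(1 + δ) = 1 + δ := Real.mul_self_sqrt (by linarith)
    have s0 := Real.sqrt_nonneg (S0 q1)
    have s1 := Real.sqrt_nonneg (S1 q1)
    have s2 := Real.sqrt_nonneg (S2 q1)
    calc √(S0 q1) * √(S1 q1) * √(S2 q1) ≤ √(1 + δ) * √(1 + δ) * √(1 + δ) := by gcongr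
      _ = (1 + δ) * √(1 + δ) := by rw [c1]
      _ ≤ (1 + δ) * (1 + δ) := by gcongr
      _ = _ := by ring
  have bound1 : ∑ Q ∈ univ.erase q1, ∑ x ∈ univ.filter (fun x => r0 (p0 x) = Q), g x ≤
      C0 * √η := by
    calc ∑ Q ∈ univ.erase q1, ∑ x ∈ univ.filter (fun x => r0 (p0 x) = Q), g x
        ≤ ∑ Q ∈ univ.erase q1, √(S0 Q) * √(S1 Q) * √η := by
          apply Finset.sum_le_sum
          intro Q hQ
          refine (key Q).trans ?_
          have := Real.sqrt_le_sqrt (hη Q (Finset.ne_of_mem_erase hQ))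
          have s0 := Real.sqrt_nonneg (S0 Q)
          have s1 := Real.sqrt_nonneg (S1 Q)
          gcongr
      _ ≤ ∑ Q, √(S0 Q) * √(S1 Q) * √η := by
          apply Finset.sum_le_sum_of_subset_of_nonneg (Finset.erase_subset _ _)
          intro Q _ _
          positivity
      _ = (∑ Q, √(S0 Q) * √(S1 Q)) * √η := by rw [Finset.sum_mul]
      _ ≤ (√(∑ Q, √(S0 Q) ^ 2) * √(∑ Q, √(S1 Q) ^ 2)) * √η := by
          apply mul_le_mul_of_nonneg_right _ (Real.sqrt_nonneg _)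
          exact Real.sum_mul_le_sqrt_mul_sqrt _ _ _
      _ ≤ (√C0 * √C0) * √η := by
          have e1 : ∑ Q, √(S0 Q) ^ 2 = ∑ y, a0 y ^ 2 := by
            rw [← Finset.sum_fiberwise univ r0 (fun y => a0 y ^ 2)]
            apply Finset.sum_congr rfl
            intro c _
            rw [Real.sq_sqrt (n0 c)]
          have e2 : ∑ Q, √(S1 Q) ^ 2 = ∑ y, a1 y ^ 2 := by
            rw [← Finset.sum_fiberwise univ r1 (fun y => a1 y ^ 2)]
            apply Finset.sum_congr rfl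
            intro c _
            rw [Real.sq_sqrt (n1 c)]
          rw [e1, e2]
          gcongr
      _ = C0 * √η := by rw [Real.mul_self_sqrt hC0]
  linarith [bound1, bound2, hg1]

end H39Gon
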