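import Pool.Agent.H39R2.Gon.Count
import Pool.Agent.H39R2.Gon.A2
import Pool.Agent.H39R2.Gon.B
import Pool.Agent.H39R2.Gon.E1
import Pool.Agent.H39R2.Gon.E2

namespace H39Gon

open Polynomial

theorem FT_all (m : ℕ) : FT m (6 * (m + 2)) :=
  FT_of_countThm m (6 * (m + 2)) (by omega) (countThm (2 * (m + 2)) (6 * (m + 2)) (by omega))

theorem frob_fix (k : Type) [Field k] (p : ℕ) [Fact p.Prime] [Algebra (ZMod p) k]
    [Algebra.IsAlgebraic (ZMod p) k] (c : k) : ∃ r : ℕ, 1 ≤ r ∧ c ^ p ^ r = c := by
  classical
  have hint : IsIntegral (ZMod p) c := (Algebra.IsAlgebraic.isAlgebraic c).isIntegral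
  let K := IntermediateField.adjoin (ZMod p) {c}
  haveI : FiniteDimensional (ZMod p) K := IntermediateField.adjoin.finiteDimensional hint
  haveI : Finite K := Module.finite_of_finite (ZMod p)
  haveI : Fintype K := Fintype.ofFinite K
  haveI : CharP K p := by
    haveI : CharP (ZMod p) p := inferInstance
    exact charP_of_injective_algebraMap (algebraMap (ZMod p) K).injective p
  obtain ⟨n, hp, hcard⟩ := FiniteField.card K p
  have h1 := FiniteField.pow_card (⟨c, IntermediateField.mem_adjoin_simple_self (ZMod p) c⟩ : K)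
  rw [hcard] at h1
  refine ⟨n, n.pos, ?_⟩
  have := congrArg (fun x : K => (x : k)) h1
  simpa using this

/-- Main theorem. -/
theorem main (p : ℕ) [Fact p.Prime] (k : Type) [Field k] [IsAlgClosed k] [Algebra (ZMod p) k]
    [Algebra.IsAlgebraic (ZMod p) k] :
    Nonempty (Differentials (RatFunc k)) ∧ ∀ D : Differentials (RatFunc k), D.Acyclic := by
  haveI : CharP k p := charP_of_injective_algebraMap (algebraMap (ZMod p) k).injective p
  refine ⟨exists_differentials k p (frob_fix k p), fun D => ?_⟩
  exact acyclic_of_spanDual k p (frob_fix k p)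
    (fun m => spanDual_of_FT k p m (6 * (m + 2)) (FT_all m)) D

end H39Gon

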