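import Pool.Agent.H39R2.Gon.Base

/-!
# Interface (statements) for the proof that `Γ(k(x),n) ⊗ ℚ` is acyclic, `k = \bar F_p`
-/

namespace H39Gon

open scoped TensorProduct
open Polynomial

/-! ## Part I: finite fields -/

/-- A1. -/
theorem countThm (N d : ℕ) (h : 3 * N ≤ d) : CountThm N d := by
  sorry

/-- A2. -/
theorem FT_of_countThm (m d : ℕ) (hd : m + 2 ≤ d) (h : CountThm (2 * (m + 2)) d) : FT m d := by
  sorry

/-! ## Part II: the duality statement for `k(x)` -/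

/-- B. -/
theorem spanDual_of_FT (k : Type) [Field k] [IsAlgClosed k] (p : ℕ) [Fact p.Prime]
    [Algebra (ZMod p) k] [Algebra.IsAlgebraic (ZMod p) k] (m d : ℕ) (h : FT m d) :
    SpanDual (RatFunc k) m := by
  sorry

/-! ## Part III: functionals on `B_n(F)` -/

/-- K: these functionals kill the relations (any field, `W` a `ℚ`-vector space). -/
theorem ev_R {F : Type} [Field F] {W : Type} [AddCommGroup W] [Module ℚ W] {m : ℕ}
    (Ψ : UV F →ₗ[ℤ] UV F →ₗ[ℤ] MultilinearMap ℤ (fun _ : Fin m => UV F) W)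
    (hΨ : ∀ a, Ψ a a = 0) (r : ZP F) (hr : r ∈ R (m + 2) F) : ev Ψ r = 0 := by
  sorry

/-- functoriality of `R_n` under field homomorphisms. -/
theorem R_map {F F' : Type} [Field F] [Field F'] (φ : F →+* F') (m : ℕ) (r : ZP F)
    (hr : r ∈ R (m + 2) F) : Finsupp.lmapDomain ℤ ℤ (Option.map φ) r ∈ R (m + 2) F' := by
  sorry

/-- Frobenius: `{y^p}_n = p^n {y}_n`. -/
theorem frob {F : Type} [Field F] (p : ℕ) [Fact p.Prime] [CharP F p] (m : ℕ) (y : F) :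
    Finsupp.single (some (y ^ p)) 1 - (p ^ (m + 2) : ℤ) • Finsupp.single (some y) 1 ∈ R (m + 2) F := by
  sorry

/-- H¹-vanishing in functional form: every functional on `B_n(k(x))` is of the form `ev Ψ`. -/
theorem ev_surj (k : Type) [Field k] (p : ℕ) [Fact p.Prime] [CharP k p]
    (hk : ∀ c : k, ∃ r : ℕ, 1 ≤ r ∧ c ^ p ^ r = c)
    {W : Type} [AddCommGroup W] [Module ℚ W] (m : ℕ) (θ : ZP (RatFunc k) →ₗ[ℤ] W)
    (hθ : ∀ r ∈ R (m + 2) (RatFunc k), θ r = 0) :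
    ∃ Ψ : UV (RatFunc k) →ₗ[ℤ] UV (RatFunc k) →ₗ[ℤ]
        MultilinearMap ℤ (fun _ : Fin m => UV (RatFunc k)) W,
      (∀ a, Ψ a a = 0) ∧ θ = ev Ψ := by
  sorry

/-! ## Part IV: the Koszul part (pure linear algebra) -/

/-- K1. -/
theorem koszul_step {V : Type} [AddCommGroup V] (m j : ℕ)
    (Q : MultilinearMap ℤ (fun _ : Fin (m + 2) => V) (V →ₗ[ℤ] (V [⋀^Fin j]→ₗ[ℤ] ℚ)))
    (hS : ∀ s : V, Q (fun _ => s) s = 0)
    (hD : ∀ (i : ℕ) (hi : j = i + 1) (s v : V) (y : Fin i → V),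
      Q (fun _ => s) v ((Fin.cons s y : Fin (i + 1) → V) ∘ Fin.cast hi) = 0) :
    ∃ Q' : MultilinearMap ℤ (fun _ : Fin (m + 1) => V) (V →ₗ[ℤ] (V [⋀^Fin (j + 1)]→ₗ[ℤ] ℚ)),
      (∀ s : V, Q' (fun _ => s) s = 0) ∧
      ∀ (s v : V) (y : Fin j → V), Q' (fun _ => s) v (Fin.cons s y) = Q (fun _ => s) v y := by
  sorry

/-- K2: the last step. -/
theorem koszul_last {V : Type} [AddCommGroup V] (j : ℕ)
    (Q : V →ₗ[ℤ] (V →ₗ[ℤ] (V [⋀^Fin j]→ₗ[ℤ] ℚ)))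
    (hS : ∀ s : V, Q s s = 0)
    (hD : ∀ (i : ℕ) (hi : j = i + 1) (s v : V) (y : Fin i → V),
      Q s v ((Fin.cons s y : Fin (i + 1) → V) ∘ Fin.cast hi) = 0) :
    ∃ Θ : V [⋀^Fin (j + 2)]→ₗ[ℤ] ℚ,
      ∀ (s v : V) (y : Fin j → V), Θ (Fin.cons v (Fin.cons s y)) = Q s v y := by
  sorry

/-! ## Part V: assembly -/

/-- E1: the differentials exist. -/
theorem exists_differentials (k : Type) [Field k] (p : ℕ) [Fact p.Prime] [CharP k p]
    (hk : ∀ c : k, ∃ r : ℕ, 1 ≤ r ∧ c ^ p ^ r = c) : Nonempty (Differentials (RatFunc k)) := by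
  sorry

/-- E2: acyclicity. -/
theorem acyclic_of_spanDual (k : Type) [Field k] (p : ℕ) [Fact p.Prime] [CharP k p]
    (hk : ∀ c : k, ∃ r : ℕ, 1 ≤ r ∧ c ^ p ^ r = c)
    (hsd : ∀ m, SpanDual (RatFunc k) m) (D : Differentials (RatFunc k)) : D.Acyclic := by
  sorry

end H39Gon
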